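import Pool.Agent.NL.PadeId
import Pool.Agent.Helper52.WBT

/-!
Integrality and size of the coefficients of the Pade approximants for nu = 1 / q.

PLAN. choose_integral: q^(2k) * choose(a/q, k) = q^k * prod_(i<k) (a - i q) / k!, and k! divides
q^k * prod_(i<k)(a - i q) (Pool.Agent.Helper52.factorial_dvd_pow_mul_prod for naturals c + d j; for
integers shift a by a multiple of q * k!; or prove it directly prime by prime).
PA_coeff_integral: coefficient k <= N is (-1)^k choose((N q + s)/q, k) * natural number and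
q^(2N) = q^(2k) q^(2N-2k). PA_coeff_le: for k <= N, |choose(N + s/q, k)| <= choose(N+1, k) <= 2^(N+1)
(every factor N + s/q - i, i < k <= N, is between 0 and N + 1 - i), choose(2N-k, N) <= 4^N.
abs_choose_inv_le: factors |1/q - i|/(i+1) <= 1.
-/

namespace Pool.Agent.NL

open Finset

/-- One step for generalised binomial coefficients over the rationals. -/
private theorem choose_succ_mul (r : ℚ) (k : ℕ) :
    ((k : ℚ) + 1) * Ring.choose r (k + 1) = (r - k) * Ring.choose r k := by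
  have h1 := Ring.descPochhammer_eq_factorial_smul_choose r (k + 1)
  have h2 := Ring.descPochhammer_eq_factorial_smul_choose r k
  rw [descPochhammer_succ_right, Polynomial.smeval_mul, h2] at h1
  have h3 : (Polynomial.X - (k : Polynomial ℤ)).smeval r = r - k := by
    rw [Polynomial.smeval_sub, Polynomial.smeval_X, pow_one, Polynomial.smeval_natCast, pow_zero,
      nsmul_eq_mul, mul_one]
  rw [h3, nsmul_eq_mul, nsmul_eq_mul, Nat.factorial_succ] at h1
  have h4 : (k.factorial : ℚ) ≠ 0 := by exact_mod_cast Nat.factorial_ne_zero k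
  push_cast at h1
  apply mul_left_cancel₀ h4
  linarith

private theorem factorial_mul_choose (r : ℚ) (k : ℕ) :
    (k.factorial : ℚ) * Ring.choose r k = ∏ i ∈ range k, (r - i) := by
  induction k with
  | zero => simp
  | succ k ih =>
    rw [prod_range_succ, ← ih, Nat.factorial_succ]
    have h := choose_succ_mul r k
    push_cast
    linear_combination (k.factorial : ℚ) * h

theorem choose_integral (q : ℕ) (hq : 1 ≤ q) (a : ℤ) (k : ℕ) :
    ∃ m : ℤ, (q : ℚ) ^ (2 * k) * Ring.choose ((a : ℚ) / q) k = m := by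
  have hq0 : (q : ℚ) ≠ 0 := by
    have : q ≠ 0 := by omega
    exact_mod_cast this
  -- divisibility over the integers
  have hdvd : ((k.factorial : ℕ) : ℤ) ∣ (q : ℤ) ^ k * ∏ i ∈ range k, (a - i * q) := by
    set c₀ : ℤ := a - ((k : ℤ) - 1) * q with hc₀
    set t : ℕ := c₀.natAbs with ht
    have hpos : 0 ≤ c₀ + k.factorial * t := by
      have h1 : (1 : ℤ) ≤ k.factorial := by exact_mod_cast Nat.factorial_pos k
      have h2 : -(t : ℤ) ≤ c₀ := by rw [ht]; omega
      have h3 : (0 : ℤ) ≤ t := by positivity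
      nlinarith
    obtain ⟨c, hc⟩ := Int.eq_ofNat_of_zero_le hpos
    have h1 := Pool.Agent.Helper52.factorial_dvd_pow_mul_prod c q k
    have h2 : ((k.factorial : ℕ) : ℤ) ∣ (q : ℤ) ^ k * ∏ j ∈ range k, ((c : ℤ) + q * j) := by
      exact_mod_cast h1
    have h3 : ∏ i ∈ range k, (a - i * q) = ∏ j ∈ range k, (c₀ + q * j) := by
      rw [← Finset.prod_range_reflect]
      refine prod_congr rfl fun j hj => ?_
      rw [mem_range] at hj
      have : ((k - 1 - j : ℕ) : ℤ) = (k : ℤ) - 1 - j := by omega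
      rw [this, hc₀]
      ring
    have h4 : ((k.factorial : ℕ) : ℤ) ∣
        ∏ j ∈ range k, ((c : ℤ) + q * j) - ∏ j ∈ range k, (c₀ + q * j) := by
      rw [← Int.modEq_iff_dvd]
      apply Int.ModEq.prod
      intro j _
      have : (c : ℤ) = c₀ + k.factorial * t := hc.symm
      rw [this, Int.modEq_iff_dvd]
      exact ⟨t, by ring⟩
    rw [h3]
    have h5 := dvd_sub h2 (Dvd.dvd.mul_left h4 ((q : ℤ) ^ k))
    have h6 : (q : ℤ) ^ k * ∏ j ∈ range k, ((c : ℤ) + q * j) -
        (q : ℤ) ^ k * (∏ j ∈ range k, ((c : ℤ) + q * j) - ∏ j ∈ range k, (c₀ + q * j)) =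
        (q : ℤ) ^ k * ∏ j ∈ range k, (c₀ + q * j) := by ring
    rwa [h6] at h5
  obtain ⟨m, hm⟩ := hdvd
  refine ⟨m, ?_⟩
  have hf : (k.factorial : ℚ) ≠ 0 := by exact_mod_cast Nat.factorial_ne_zero k
  apply mul_left_cancel₀ hf
  have h7 : ∏ i ∈ range k, ((a : ℚ) - i * q) = (q : ℚ) ^ k * ∏ i ∈ range k, ((a : ℚ) / q - i) := by
    have h9 : (q : ℚ) ^ k = ∏ _i ∈ range k, (q : ℚ) := by rw [prod_const, card_range]
    rw [h9, ← prod_mul_distrib]
    refine prod_congr rfl fun i _ => ?_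
    field_simp
  have h8 : ((q : ℚ) ^ k * ∏ i ∈ range k, ((a : ℚ) - i * q)) = k.factorial * m := by
    exact_mod_cast congrArg (Int.cast : ℤ → ℚ) hm
  rw [← h8, h7, ← factorial_mul_choose, two_mul, pow_add]
  ring

private theorem PA_coeff (ν : ℚ) (N k : ℕ) : (PA ν N).coeff k =
    if k ≤ N then (-1) ^ k * Ring.choose ((N : ℚ) + ν) k * ((2 * N - k).choose N : ℚ) else 0 := by
  unfold PA
  rw [Polynomial.finsetSum_coeff]
  simp only [Polynomial.coeff_monomial]
  rw [Finset.sum_ite_eq']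
  simp

/-- `q^(2N) PA(± 1/q, N)` has integer coefficients. -/
theorem PA_coeff_integral (q : ℕ) (hq : 1 ≤ q) (s : ℚ) (hs : s = 1 ∨ s = -1) (N k : ℕ) :
    ∃ m : ℤ, (q : ℚ) ^ (2 * N) * (PA (s / q) N).coeff k = m := by
  rw [PA_coeff]
  split_ifs with hk
  · have hq0 : (q : ℚ) ≠ 0 := by
      have : q ≠ 0 := by omega
      exact_mod_cast this
    obtain ⟨s', hs'⟩ : ∃ s' : ℤ, s = s' := by
      rcases hs with rfl | rfl
      · exact ⟨1, by norm_num⟩
      · exact ⟨-1, by norm_num⟩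
    obtain ⟨m, hm⟩ := choose_integral q hq ((N : ℤ) * q + s') k
    have h1 : (((N : ℤ) * q + s' : ℤ) : ℚ) / q = (N : ℚ) + s / q := by
      rw [hs']
      push_cast
      field_simp
    rw [h1] at hm
    refine ⟨(-1) ^ k * q ^ (2 * N - 2 * k) * m * ((2 * N - k).choose N : ℤ), ?_⟩
    push_cast
    rw [← hm]
    have h2 : (q : ℚ) ^ (2 * N) = (q : ℚ) ^ (2 * N - 2 * k) * (q : ℚ) ^ (2 * k) := by
      rw [← pow_add]; congr 1; omega
    rw [h2]
    ring
  · exact ⟨0, by simp⟩

private theorem choose_between (r : ℚ) (N : ℕ) (h0 : (N : ℚ) - 1 ≤ r) (h1 : r ≤ N + 1) :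
    ∀ k : ℕ, k ≤ N → 0 ≤ Ring.choose r k ∧ Ring.choose r k ≤ ((N + 1).choose k : ℚ) := by
  intro k
  induction k with
  | zero => intro _; simp
  | succ k ih =>
    intro hk
    obtain ⟨ha, hb⟩ := ih (by omega)
    have h2 := choose_succ_mul r k
    have hk' : (k : ℚ) + 1 ≤ N := by exact_mod_cast hk
    have hk0 : (0 : ℚ) < (k : ℚ) + 1 := by positivity
    have h3 : 0 ≤ r - k := by linarith
    have h4 : r - k ≤ (N : ℚ) + 1 - k := by linarith
    have h5 : ((k : ℚ) + 1) * ((N + 1).choose (k + 1) : ℚ) = ((N : ℚ) + 1 - k) * ((N + 1).choose k : ℚ) := by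
      have h6 := Nat.choose_succ_right_eq (N + 1) k
      have h7 : ((N + 1 - k : ℕ) : ℚ) = (N : ℚ) + 1 - k := by
        rw [Nat.cast_sub (by omega)]; push_cast; ring
      have h8 : (((N + 1).choose (k + 1) * (k + 1) : ℕ) : ℚ) = (((N + 1).choose k * (N + 1 - k) : ℕ) : ℚ) := by
        rw [h6]
      rw [Nat.cast_mul, Nat.cast_mul, h7] at h8
      push_cast at h8
      linarith
    constructor
    · have : 0 ≤ ((k : ℚ) + 1) * Ring.choose r (k + 1) := by rw [h2]; exact mul_nonneg h3 ha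
      exact nonneg_of_mul_nonneg_right this hk0
    · have h9 : ((k : ℚ) + 1) * Ring.choose r (k + 1) ≤ ((k : ℚ) + 1) * ((N + 1).choose (k + 1) : ℚ) := by
        rw [h2, h5]
        exact mul_le_mul h4 hb ha (by linarith)
      exact le_of_mul_le_mul_left h9 hk0

theorem PA_coeff_le (q : ℕ) (hq : 2 ≤ q) (s : ℚ) (hs : s = 1 ∨ s = -1) (N k : ℕ) :
    |(PA (s / q) N).coeff k| ≤ 8 ^ (N + 1) := by
  rw [PA_coeff]
  split_ifs with hk
  · have hq2 : (2 : ℚ) ≤ q := by exact_mod_cast hq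
    have hs1 : |s / q| ≤ 1 := by
      rw [abs_div]
      have h1 : |s| = 1 := by rcases hs with rfl | rfl <;> simp
      rw [h1, abs_of_pos (by linarith : (0 : ℚ) < q), div_le_one (by linarith)]
      linarith
    rw [abs_le] at hs1
    obtain ⟨h1, h2⟩ := choose_between ((N : ℚ) + s / q) N (by linarith) (by linarith) k hk
    rw [abs_mul, abs_mul, abs_pow, abs_neg, abs_one, one_pow, one_mul, abs_of_nonneg h1, Nat.abs_cast]
    have h3 : ((N + 1).choose k : ℚ) ≤ 2 ^ (N + 1) := by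
      exact_mod_cast Nat.choose_le_two_pow (N + 1) k
    have h4 : ((2 * N - k).choose N : ℚ) ≤ 4 ^ N := by
      have h5 : (2 * N - k).choose N ≤ 4 ^ N := by
        calc (2 * N - k).choose N ≤ 2 ^ (2 * N - k) := Nat.choose_le_two_pow _ _
          _ ≤ 2 ^ (2 * N) := Nat.pow_le_pow_right (by norm_num) (by omega)
          _ = 4 ^ N := by rw [pow_mul]; norm_num
      exact_mod_cast h5
    calc Ring.choose ((N : ℚ) + s / q) k * ((2 * N - k).choose N : ℚ)
        ≤ 2 ^ (N + 1) * 4 ^ N := mul_le_mul (h2.trans h3) h4 (by positivity) (by positivity)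
      _ ≤ 2 ^ (N + 1) * 4 ^ (N + 1) := by
          have : (4 : ℚ) ^ N ≤ 4 ^ (N + 1) := pow_le_pow_right₀ (by norm_num) (by omega)
          exact mul_le_mul_of_nonneg_left this (by positivity)
      _ = 8 ^ (N + 1) := by rw [← mul_pow]; norm_num
  · simp only [abs_zero]
    positivity

theorem abs_choose_inv_le (q : ℕ) (hq : 1 ≤ q) (k : ℕ) : |Ring.choose ((1 : ℚ) / q) k| ≤ 1 := by
  have hq1 : (1 : ℚ) ≤ q := by exact_mod_cast hq
  have h0 : 0 ≤ (1 : ℚ) / q := by positivity
  have h1 : (1 : ℚ) / q ≤ 1 := by rw [div_le_one (by linarith)]; exact hq1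
  induction k with
  | zero => simp
  | succ k ih =>
    have h2 := choose_succ_mul ((1 : ℚ) / q) k
    have hk0 : (0 : ℚ) < (k : ℚ) + 1 := by positivity
    have hk : (0 : ℚ) ≤ k := by positivity
    have h3 : |(1 : ℚ) / q - k| ≤ (k : ℚ) + 1 := by
      rw [abs_le]; constructor <;> linarith
    have h4 : ((k : ℚ) + 1) * |Ring.choose ((1 : ℚ) / q) (k + 1)| ≤ ((k : ℚ) + 1) * 1 := by
      calc ((k : ℚ) + 1) * |Ring.choose ((1 : ℚ) / q) (k + 1)|
          = |((k : ℚ) + 1) * Ring.choose ((1 : ℚ) / q) (k + 1)| := by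
            rw [abs_mul, abs_of_pos hk0]
        _ = |(1 : ℚ) / q - k| * |Ring.choose ((1 : ℚ) / q) k| := by rw [h2, abs_mul]
        _ ≤ ((k : ℚ) + 1) * 1 := mul_le_mul h3 ih (abs_nonneg _) hk0.le
    exact le_of_mul_le_mul_left h4 hk0

end Pool.Agent.NL
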