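import Pool.Agent.NL.Ineq

/-!
Large exponents: the part of x composed of primes p with q not dividing p (p - 1) is small.

PLAN for params (large_exponent is proved from it). Let nu = n/q >= eps, kappa = max(nu, 1) <= nu/eps.
L = ceil(4 (log q + 4)/eps) + 1, R = ceil(8 L/eps), K = ceil((8 R/eps) kappa), S = ceil(L K/R) + L
(any similar choice is fine). R (S + 1 - L) = R (ceil(LK/R) + 1) > L K. S <= LK/R + 1 + L <= eps K/8 +
1 + L <= eps K/4 (K >= 8R/eps >= 64 L/eps^2). R nu <= R kappa <= eps K/8. So R nu + S <= (3/8) eps K.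
K L <= (9 R kappa/eps) L <= 81 L^2 kappa/eps^2 <= 81 L^2 nu/eps^3 <= q nu = n as soon as
q >= 81 L^2/eps^3, and R <= 9 L/eps <= q: true for q >= Q0(eps) since L = O(log q / eps)
(use isLittleO_log_rpow_atTop / Real.isLittleO_pow_log_id_atTop to get (log q)^2 <= c q eventually).
-/

namespace Pool.Agent.NL

open Finset

private theorem log_small (ε : ℝ) (hε : 0 < ε) : ∃ Q₀ : ℕ, 1 ≤ Q₀ ∧ ∀ q : ℕ, Q₀ ≤ q →
    1296 * (Real.log q + 5) ^ 2 ≤ ε ^ 6 * q := by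
  have h1 : (fun x : ℝ => Real.log x + 5) =o[Filter.atTop] fun x : ℝ => x ^ (1 / 2 : ℝ) := by
    refine (isLittleO_log_rpow_atTop (by norm_num)).add ?_
    rw [Asymptotics.isLittleO_const_left]
    right
    exact tendsto_norm_atTop_atTop.comp (tendsto_rpow_atTop (by norm_num))
  have h2 := h1.bound (show (0 : ℝ) < ε ^ 3 / 36 by positivity)
  have h3 := (tendsto_natCast_atTop_atTop (R := ℝ)).eventually h2
  obtain ⟨Q, hQ⟩ := Filter.eventually_atTop.1 h3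
  refine ⟨max Q 1, le_max_right _ _, fun q hq => ?_⟩
  have h4 := hQ q ((le_max_left _ _).trans hq)
  have hq1 : 1 ≤ q := (le_max_right _ _).trans hq
  have hq0 : (0 : ℝ) < q := by exact_mod_cast hq1
  have hlq : 0 ≤ Real.log q := Real.log_nonneg (by exact_mod_cast hq1)
  rw [Real.norm_of_nonneg (by linarith), Real.norm_of_nonneg (by positivity)] at h4
  have h5 : (Real.log q + 5) ^ 2 ≤ (ε ^ 3 / 36 * (q : ℝ) ^ (1 / 2 : ℝ)) ^ 2 :=
    pow_le_pow_left₀ (by linarith) h4 2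
  have h6 : ((q : ℝ) ^ (1 / 2 : ℝ)) ^ 2 = q := by
    rw [← Real.rpow_natCast, ← Real.rpow_mul hq0.le]
    norm_num
  rw [mul_pow, h6] at h5
  nlinarith

/-- Choice of the parameters. `κ = max ν 1`, `ν = n / q`. -/
theorem params (ε : ℝ) (hε : 0 < ε) (hε1 : ε < 1) : ∃ Q₀ : ℕ, 1 ≤ Q₀ ∧ ∀ q n : ℕ, Q₀ ≤ q →
    ε * q ≤ n → ∃ K L R S : ℕ, K * L ≤ n ∧ 1 ≤ K ∧ 2 ≤ L ∧ L ≤ K ∧ S ≤ K ∧ R ≤ q ∧
      L * (K - 1) < R * (S + 1 - L) ∧ 4 * (Real.log q + 4) ≤ ε * ((L : ℝ) - 1) ∧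
      (R : ℝ) * ((n : ℝ) / q) + S ≤ ε / 2 * K := by
  obtain ⟨Q₀, hQ1, hQ⟩ := log_small ε hε
  refine ⟨Q₀, hQ1, fun q n hq hn => ?_⟩
  have hsm := hQ q hq
  have hq1 : 1 ≤ q := hQ1.trans hq
  have hq0 : (0 : ℝ) < q := by exact_mod_cast hq1
  have hlq : 0 ≤ Real.log q := Real.log_nonneg (by exact_mod_cast hq1)
  obtain ⟨ν, hν⟩ : ∃ ν : ℝ, ν = (n : ℝ) / q := ⟨_, rfl⟩
  have hνn : ν * q = n := by rw [hν]; field_simp
  have hνε : ε ≤ ν := by
    rw [hν, le_div_iff₀ hq0]; exact hn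
  rw [← hν]
  obtain ⟨κ, hκ⟩ : ∃ κ : ℝ, κ = max ν 1 := ⟨_, rfl⟩
  have hκ1 : 1 ≤ κ := by rw [hκ]; exact le_max_right _ _
  have hκν : ν ≤ κ := by rw [hκ]; exact le_max_left _ _
  have hκε : ε * κ ≤ ν := by
    rw [hκ]
    rcases le_total ν 1 with h | h
    · rw [max_eq_right h]; linarith
    · rw [max_eq_left h]; nlinarith
  -- L
  obtain ⟨L, hL⟩ : ∃ L : ℕ, L = ⌈4 * (Real.log q + 4) / ε⌉₊ + 1 := ⟨_, rfl⟩
  have hL1 : 4 * (Real.log q + 4) ≤ ε * ((L : ℝ) - 1) := by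
    have h1 := Nat.le_ceil (4 * (Real.log q + 4) / ε)
    rw [div_le_iff₀ hε] at h1
    rw [hL]
    push_cast
    linarith
  have hL2 : 2 ≤ L := by
    have h1 : 0 < ⌈4 * (Real.log q + 4) / ε⌉₊ := Nat.ceil_pos.2 (by positivity)
    omega
  have hL3 : ε * (L : ℝ) ≤ 4 * (Real.log q + 5) := by
    have h1 := (Nat.ceil_lt_add_one (show 0 ≤ 4 * (Real.log q + 4) / ε by positivity)).le
    have h2 : (L : ℝ) ≤ 4 * (Real.log q + 4) / ε + 2 := by
      rw [hL]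
      push_cast
      linarith
    have h3 : ε * (L : ℝ) ≤ ε * (4 * (Real.log q + 4) / ε + 2) :=
      mul_le_mul_of_nonneg_left h2 hε.le
    have h4 : ε * (4 * (Real.log q + 4) / ε + 2) = 4 * (Real.log q + 4) + 2 * ε := by
      field_simp
    linarith
  have hLr : (2 : ℝ) ≤ L := by exact_mod_cast hL2
  -- 81 L^2 <= eps^3 q
  have hLq : 81 * (L : ℝ) ^ 2 ≤ ε ^ 3 * q := by
    have h1 : (ε * (L : ℝ)) ^ 2 ≤ (4 * (Real.log q + 5)) ^ 2 :=
      pow_le_pow_left₀ (by positivity) hL3 2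
    have h2 : 81 * (ε ^ 2 * (L : ℝ) ^ 2) ≤ ε ^ 6 * q := by nlinarith
    have h3 : ε ^ 2 * (81 * (L : ℝ) ^ 2) ≤ ε ^ 2 * (ε ^ 4 * q) := by nlinarith
    have h4 : 81 * (L : ℝ) ^ 2 ≤ ε ^ 4 * q := le_of_mul_le_mul_left h3 (by positivity)
    have h5 : ε ^ 4 * q ≤ ε ^ 3 * q := by
      refine mul_le_mul_of_nonneg_right ?_ hq0.le
      have : ε ^ 4 = ε ^ 3 * ε := by ring
      rw [this]
      exact mul_le_of_le_one_right (by positivity) hε1.le
    linarith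
  -- R
  obtain ⟨R, hR⟩ : ∃ R : ℕ, R = ⌈8 * (L : ℝ) / ε⌉₊ := ⟨_, rfl⟩
  have hR1 : 8 * (L : ℝ) ≤ ε * R := by
    have h1 := Nat.le_ceil (8 * (L : ℝ) / ε)
    rw [div_le_iff₀ hε, ← hR] at h1
    linarith
  have hR2 : ε * (R : ℝ) ≤ 9 * L := by
    have h1 := (Nat.ceil_lt_add_one (show 0 ≤ 8 * (L : ℝ) / ε by positivity)).le
    rw [← hR] at h1
    have h3 : ε * (R : ℝ) ≤ ε * (8 * (L : ℝ) / ε + 1) := mul_le_mul_of_nonneg_left h1 hε.le
    have h4 : ε * (8 * (L : ℝ) / ε + 1) = 8 * (L : ℝ) + ε := by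
      field_simp
    linarith
  have hR0 : (0 : ℝ) < R := by
    have : 0 < ε * (R : ℝ) := by linarith
    exact (pos_iff_pos_of_mul_pos this).1 hε
  have hRL : 8 * (L : ℝ) ≤ R := by
    have : ε * (R : ℝ) ≤ R := mul_le_of_le_one_left hR0.le hε1.le
    linarith
  -- K
  obtain ⟨K, hK⟩ : ∃ K : ℕ, K = ⌈8 * (R : ℝ) / ε * κ⌉₊ := ⟨_, rfl⟩
  have hK1 : 8 * ((R : ℝ) * κ) ≤ ε * K := by
    have h1 := Nat.le_ceil (8 * (R : ℝ) / ε * κ)
    rw [← hK] at h1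
    have h3 : ε * (8 * (R : ℝ) / ε * κ) ≤ ε * K := mul_le_mul_of_nonneg_left h1 hε.le
    have h4 : ε * (8 * (R : ℝ) / ε * κ) = 8 * ((R : ℝ) * κ) := by
      field_simp
    linarith
  have hRκ : (R : ℝ) ≤ R * κ := le_mul_of_one_le_right hR0.le hκ1
  have hK2 : ε * (K : ℝ) ≤ 9 * (R * κ) := by
    have h1 := (Nat.ceil_lt_add_one (show 0 ≤ 8 * (R : ℝ) / ε * κ by positivity)).le
    rw [← hK] at h1
    have h3 : ε * (K : ℝ) ≤ ε * (8 * (R : ℝ) / ε * κ + 1) := mul_le_mul_of_nonneg_left h1 hε.le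
    have h4 : ε * (8 * (R : ℝ) / ε * κ + 1) = 8 * ((R : ℝ) * κ) + ε := by
      field_simp
    linarith
  have hK0 : (0 : ℝ) < K := by
    have : 0 < ε * (K : ℝ) := by linarith
    exact (pos_iff_pos_of_mul_pos this).1 hε
  have hKR : 8 * (R : ℝ) ≤ ε * K := by linarith
  have hKr : ε * (K : ℝ) ≤ K := mul_le_of_le_one_left hK0.le hε1.le
  -- S
  obtain ⟨T, hT⟩ : ∃ T : ℕ, T = ⌈(L : ℝ) * K / R⌉₊ := ⟨_, rfl⟩
  have hT1 : (L : ℝ) * K ≤ R * T := by
    have h1 := Nat.le_ceil ((L : ℝ) * K / R)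
    rw [div_le_iff₀ hR0, ← hT] at h1
    linarith
  have hT2 : 8 * (T : ℝ) ≤ ε * K + 8 := by
    have h1 := (Nat.ceil_lt_add_one (show 0 ≤ (L : ℝ) * K / R by positivity)).le
    rw [← hT] at h1
    have h2 : 8 * ((L : ℝ) * K / R) ≤ ε * K := by
      rw [← mul_div_assoc, div_le_iff₀ hR0]
      nlinarith
    linarith
  have hSr : 4 * ((T : ℝ) + L) ≤ ε * K := by nlinarith
  refine ⟨K, L, R, T + L, ?_, ?_, hL2, ?_, ?_, ?_, ?_, hL1, ?_⟩
  · -- K L <= n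
    have h1 : ε ^ 2 * (K : ℝ) ≤ 9 * ((ε * R) * κ) := by nlinarith
    have h2 : (ε * R) * κ ≤ (9 * L) * κ := mul_le_mul_of_nonneg_right hR2 (by linarith)
    have h3 : ε ^ 2 * (K : ℝ) ≤ 81 * (L * κ) := by linarith
    have h4 : ε ^ 3 * ((K : ℝ) * L) ≤ 81 * (L : ℝ) ^ 2 * ν := by
      have h5 : ε ^ 2 * (K : ℝ) * (ε * L) ≤ 81 * (L * κ) * (ε * L) :=
        mul_le_mul_of_nonneg_right h3 (by positivity)
      have h6 : 81 * (L : ℝ) ^ 2 * (ε * κ) ≤ 81 * (L : ℝ) ^ 2 * ν :=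
        mul_le_mul_of_nonneg_left hκε (by positivity)
      nlinarith
    have hν0 : 0 ≤ ν := by linarith
    have h7 : 81 * (L : ℝ) ^ 2 * ν ≤ ε ^ 3 * q * ν := mul_le_mul_of_nonneg_right hLq hν0
    have h8 : ε ^ 3 * ((K : ℝ) * L) ≤ ε ^ 3 * n := by
      rw [← hνn]; linarith
    have h9 : (K : ℝ) * L ≤ n := le_of_mul_le_mul_left h8 (by positivity)
    exact_mod_cast h9
  · have : 0 < K := by exact_mod_cast hK0
    omega
  · have : (L : ℝ) ≤ K := by linarith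
    exact_mod_cast this
  · have : (T : ℝ) + L ≤ K := by
      have h0 : (0 : ℝ) ≤ (T : ℝ) + L := by positivity
      linarith
    exact_mod_cast this
  · -- R <= q
    have h1 : ε ^ 3 * (R : ℝ) ≤ ε ^ 3 * q := by
      have h2 : ε ^ 2 * (ε * R) ≤ 1 * (9 * L) := by
        refine mul_le_mul ?_ hR2 (by positivity) (by norm_num)
        exact pow_le_one₀ hε.le hε1.le
      nlinarith
    have h2 : (R : ℝ) ≤ q := le_of_mul_le_mul_left h1 (by positivity)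
    exact_mod_cast h2
  · have h1 : T + L + 1 - L = T + 1 := by omega
    rw [h1]
    have h2 : L * K ≤ R * T := by exact_mod_cast hT1
    have h3 : L * (K - 1) ≤ L * K := Nat.mul_le_mul_left _ (Nat.sub_le _ _)
    have h4 : 0 < R := by exact_mod_cast hR0
    nlinarith
  · push_cast
    have h1 : (R : ℝ) * ν ≤ R * κ := mul_le_mul_of_nonneg_left hκν hR0.le
    linarith

theorem large_exponent (ε : ℝ) (hε : 0 < ε) (hε1 : ε < 1) : ∃ Q₀ : ℕ, ∀ q : ℕ, Q₀ ≤ q →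
    ∀ x y n t : ℕ, 3 ≤ x → 2 ≤ y → y ^ q = rep x n → t ∣ x → q.Coprime (t * t.totient) →
    (t : ℝ) < (x : ℝ) ^ ε := by
  obtain ⟨Q₀, hQ1, hQ⟩ := params ε hε hε1
  refine ⟨Q₀, fun q hq x y n t hx hy h htx hco => ?_⟩
  by_contra hcon
  rw [not_lt] at hcon
  have hx0 : (0 : ℝ) < x := by exact_mod_cast (by omega : 0 < x)
  have hx3 : (3 : ℝ) ≤ x := by exact_mod_cast hx
  have hlx : 1 ≤ Real.log x := by
    rw [Real.le_log_iff_exp_le hx0]
    exact (Real.exp_one_lt_d9.le.trans (by norm_num)).trans hx3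
  have hq1 : 1 ≤ q := hQ1.trans hq
  have hqr : (0 : ℝ) < q := by exact_mod_cast hq1
  have ht1 : 1 < t := by
    have h1 : (1 : ℝ) < (x : ℝ) ^ ε := Real.one_lt_rpow (by linarith) hε
    exact_mod_cast h1.trans_le hcon
  have ht0 : (0 : ℝ) < t := by exact_mod_cast (by omega : 0 < t)
  have hlt : ε * Real.log x ≤ Real.log t := by
    rw [← Real.log_rpow hx0]
    exact Real.log_le_log (Real.rpow_pos_of_pos hx0 _) hcon
  -- n ≥ 1
  have hn1 : 1 ≤ n := by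
    rcases Nat.eq_zero_or_pos n with rfl | h'
    · rw [rep_zero] at h
      have : 0 < y ^ q := by positivity
      omega
    · exact h'
  -- y ≥ t + 1
  have hyt : t + 1 ≤ y := by
    have h1 := base_modEq hco htx hn1 h
    have h2 : (0 : ℤ) < (y : ℤ) - 1 := by
      have : (2 : ℤ) ≤ y := by exact_mod_cast hy
      linarith
    have h3 := Int.le_of_dvd h2 h1
    omega
  have hyx : y ^ q < x ^ n := by rw [h]; exact rep_lt (by omega)
  have hn : ε * q ≤ n := by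
    have h1 : (t : ℝ) ^ q < (x : ℝ) ^ n := by
      have : t ^ q < x ^ n := lt_of_le_of_lt (Nat.pow_le_pow_left (by omega) q) hyx
      exact_mod_cast this
    have h2 : (q : ℝ) * Real.log t < n * Real.log x := by
      rw [← Real.log_pow, ← Real.log_pow]
      exact Real.log_lt_log (by positivity) h1
    have h3 : (q : ℝ) * (ε * Real.log x) ≤ q * Real.log t := mul_le_mul_of_nonneg_left hlt hqr.le
    have h4 : (ε * q) * Real.log x < n * Real.log x := by nlinarith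
    exact (lt_of_mul_lt_mul_right h4 (by linarith)).le
  obtain ⟨K, L, R, S, hM, hK, hL, hLK, hSK, hRq, hRS, hA, hB⟩ := hQ q n hq hn
  have hmain := real_ineq ht1 hco htx hx (by omega : 1 ≤ y) h hM hK hL hLK hSK hq1 hRq hRS
  have hL1 : (0 : ℝ) < (L : ℝ) - 1 := by
    have : (2 : ℝ) ≤ L := by exact_mod_cast hL
    linarith
  have hKr : (0 : ℝ) < K := by exact_mod_cast hK
  have h5 : (Real.log q + 4) / ((L : ℝ) - 1) ≤ ε / 4 := by
    rw [div_le_iff₀ hL1]; linarith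
  have h6 : ((R : ℝ) * ((n : ℝ) / q) + S) / K ≤ ε / 2 := by
    rw [div_le_iff₀ hKr]; linarith
  have h7 : ((R : ℝ) * ((n : ℝ) / q) + S) / K * Real.log x ≤ ε / 2 * Real.log x :=
    mul_le_mul_of_nonneg_right h6 (by linarith)
  nlinarith

end Pool.Agent.NL
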