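import Mathlib

/-!
The sum of the reciprocals of the primes in a residue class diverges.

PLAN. Let P be the set of primes p with (p : ZMod m) = a. Suppose all finite sums of 1/p over P
are < B; then 1/p is summable over P. Mathlib (NumberTheory/LSeries/PrimesInAP.lean):
ArithmeticFunction.vonMangoldt.LSeries_residueClass_lower_bound: c/(x-1) - C <= sum_n residueClass a n/n^x
for x in (1, 2], c = 1/phi(m) > 0, and summable_residueClass_non_primes_div bounds the non-prime part.
So c/(x-1) - C' <= sum_(p in P) log p/p^x. But log p * p^(-(x-1)) <= 1/(x-1) (t e^(-t) <= 1), hence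
sum_(p in P) log p/p^x <= sum_(p in P, p <= Y) log p/p + (1/(x-1)) sum_(p in P, p > Y) 1/p, with the last sum
< c/2 for suitable Y: contradiction as x -> 1+.
-/

namespace Pool.Agent.NL

open Finset

open ArithmeticFunction.vonMangoldt in
theorem exists_ap_sum (m : ℕ) [NeZero m] (a : ZMod m) (ha : IsUnit a) (B : ℝ) :
    ∃ F : Finset ℕ, (∀ p ∈ F, p.Prime ∧ (p : ZMod m) = a) ∧ B ≤ ∑ p ∈ F, 1 / (p : ℝ) := by
  classical
  by_contra hcon
  push Not at hcon
  set s : ℕ → ℝ := fun n => if n.Prime ∧ (n : ZMod m) = a then 1 / (n : ℝ) else 0 with hs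
  have s0 : ∀ n, 0 ≤ s n := by
    intro n; simp only [hs]; split_ifs <;> positivity
  have ssum : Summable s := by
    refine summable_of_sum_le s0 (c := B) ?_
    intro u
    have h1 : ∑ n ∈ u, s n =
        ∑ n ∈ u.filter (fun n : ℕ => Nat.Prime n ∧ (n : ZMod m) = a), 1 / (n : ℝ) := by
      rw [Finset.sum_filter]
    rw [h1]
    refine (hcon _ ?_).le
    intro p hp
    exact (Finset.mem_filter.mp hp).2
  set c : ℝ := (m.totient : ℝ)⁻¹ with hc
  have hcpos : 0 < c := inv_pos.mpr (mod_cast m.totient.pos_of_neZero)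
  obtain ⟨Y, hY⟩ : ∃ Y : Finset ℕ, ∑' n, s n - ∑ n ∈ Y, s n < c / 2 := by
    have h := ssum.hasSum
    have h2 : ∀ᶠ Y in Filter.atTop, ∑' n, s n - c / 2 < ∑ n ∈ Y, s n :=
      h.eventually (lt_mem_nhds (by linarith))
    obtain ⟨Y, hY⟩ := h2.exists
    exact ⟨Y, by linarith⟩
  obtain ⟨C, hC⟩ := LSeries_residueClass_lower_bound ha
  set N : ℕ → ℝ := fun n => (if n.Prime then 0 else residueClass a n) / n with hN
  have Nsum : Summable N := summable_residueClass_non_primes_div a
  have N0 : ∀ n, 0 ≤ N n := by
    intro n; simp only [hN]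
    split_ifs
    · simp
    · exact div_nonneg (residueClass_nonneg a n) (Nat.cast_nonneg _)
  set g : ℕ → ℝ := fun n => (if n.Prime then residueClass a n else 0) with hg
  have g0 : ∀ n, 0 ≤ g n := by
    intro n; simp only [hg]
    split_ifs
    · exact residueClass_nonneg a n
    · exact le_rfl
  set D : ℝ := ∑ n ∈ Y, g n / n with hD
  -- key pointwise bound
  have key : ∀ x : ℝ, 1 < x → ∀ n : ℕ, residueClass a n / (n : ℝ) ^ x ≤
      N n + ((if n ∈ Y then g n / n else 0) + (1 / (x - 1)) * (if n ∈ Y then 0 else s n)) := by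
    intro x hx n
    have hx1 : 0 < x - 1 := by linarith
    rcases Nat.eq_zero_or_pos n with rfl | hn
    · have e : residueClass a 0 = 0 := residueClass_apply_zero a
      rw [e, zero_div]
      have e1 : 0 ≤ N 0 := N0 0
      have e2 : 0 ≤ (if (0:ℕ) ∈ Y then g 0 / ((0:ℕ):ℝ) else 0) := by
        split_ifs
        · simp
        · exact le_rfl
      have e3 : 0 ≤ (1 / (x - 1)) * (if (0:ℕ) ∈ Y then 0 else s 0) := by
        refine mul_nonneg (by positivity) ?_
        split_ifs
        · exact le_rfl
        · exact s0 0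
      linarith
    · have hnR : (0:ℝ) < n := mod_cast hn
      have hn1 : (1:ℝ) ≤ n := mod_cast hn
      have hmono : (n:ℝ) ≤ (n:ℝ) ^ x := by
        conv_lhs => rw [← Real.rpow_one (n:ℝ)]
        exact Real.rpow_le_rpow_of_exponent_le hn1 hx.le
      by_cases hp : n.Prime
      · have eN : N n = 0 := by simp [hN, hp]
        have eg : g n = residueClass a n := by simp [hg, hp]
        rw [eN, zero_add]
        by_cases hnY : n ∈ Y
        · simp only [hnY, if_true, mul_zero, add_zero]
          rw [eg]
          exact div_le_div_of_nonneg_left (residueClass_nonneg a _) hnR hmono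
        · simp only [hnY, if_false, zero_add]
          by_cases hna : (n : ZMod m) = a
          · have es : s n = 1 / (n:ℝ) := by simp [hs, hp, hna]
            have er : residueClass a n ≤ Real.log n := by
              refine (residueClass_le a n).trans ?_
              rw [ArithmeticFunction.vonMangoldt_apply_prime hp]
            rw [es]
            have hl : Real.log n ≤ (n:ℝ) ^ (x - 1) / (x - 1) := Real.log_le_rpow_div hnR.le hx1
            have hxp : (0:ℝ) < (n:ℝ) ^ x := Real.rpow_pos_of_pos hnR x
            have hsub : (n:ℝ) ^ (x - 1) = (n:ℝ) ^ x / n := by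
              rw [Real.rpow_sub hnR, Real.rpow_one]
            calc residueClass a n / (n:ℝ) ^ x ≤ ((n:ℝ) ^ (x - 1) / (x - 1)) / (n:ℝ) ^ x := by
                  exact div_le_div_of_nonneg_right (er.trans hl) hxp.le
              _ = 1 / (x - 1) * (1 / (n:ℝ)) := by
                  rw [hsub]; field_simp
          · have er : residueClass a n = 0 := by
              simp [residueClass, Set.indicator, hna]
            have es : s n = 0 := by simp [hs, hna]
            rw [er, es]; simp
      · have eN : N n = residueClass a n / n := by simp [hN, hp]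
        have eg : g n = 0 := by simp [hg, hp]
        have es : s n = 0 := by simp [hs, hp]
        rw [eN, eg, es]
        simp only [zero_div, ite_self, mul_zero, add_zero]
        exact div_le_div_of_nonneg_left (residueClass_nonneg a _) hnR hmono
  have s1 : Summable (fun n => if n ∈ Y then g n / (n:ℝ) else 0) := by
    refine summable_of_ne_finset_zero (s := Y) ?_
    intro n hn; simp [hn]
  have t1 : ∑' n, (if n ∈ Y then g n / (n:ℝ) else 0) = D := by
    rw [tsum_eq_sum (s := Y)]
    · refine Finset.sum_congr rfl ?_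
      intro n hn; simp [hn]
    · intro n hn; simp [hn]
  have s2 : Summable (fun n => if n ∈ Y then 0 else s n) := by
    refine Summable.of_nonneg_of_le ?_ ?_ ssum
    · intro n; split_ifs
      · exact le_rfl
      · exact s0 n
    · intro n; split_ifs
      · exact s0 n
      · exact le_rfl
  have t2 : ∑' n, (if n ∈ Y then 0 else s n) = ∑' n, s n - ∑ n ∈ Y, s n := by
    have h3 : ∑' n, s n = ∑' n, ((if n ∈ Y then s n else 0) + (if n ∈ Y then 0 else s n)) := by
      refine tsum_congr ?_
      intro n; split_ifs <;> simp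
    have s3 : Summable (fun n => if n ∈ Y then s n else 0) := by
      refine summable_of_ne_finset_zero (s := Y) ?_
      intro n hn; simp [hn]
    have t3 : ∑' n, (if n ∈ Y then s n else 0) = ∑ n ∈ Y, s n := by
      rw [tsum_eq_sum (s := Y)]
      · refine Finset.sum_congr rfl ?_
        intro n hn; simp [hn]
      · intro n hn; simp [hn]
    rw [h3, s3.tsum_add s2, t3]; ring
  have main : ∀ x : ℝ, x ∈ Set.Ioc (1:ℝ) 2 → c / 2 ≤ (C + ∑' n, N n + D) * (x - 1) := by
    intro x hx
    have hx1 : 0 < x - 1 := by linarith [hx.1]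
    have h1 := hC hx
    have s4 : Summable (fun n => N n + ((if n ∈ Y then g n / (n:ℝ) else 0) +
        (1 / (x - 1)) * (if n ∈ Y then 0 else s n))) := Nsum.add (s1.add (s2.mul_left _))
    have h0 : ∀ n : ℕ, 0 ≤ residueClass a n / (n : ℝ) ^ x := by
      intro n
      exact div_nonneg (residueClass_nonneg a n) (Real.rpow_nonneg (Nat.cast_nonneg _) _)
    have s5 : Summable (fun n : ℕ => residueClass a n / (n : ℝ) ^ x) :=
      Summable.of_nonneg_of_le h0 (key x hx.1) s4
    have h2 := s5.tsum_le_tsum (key x hx.1) s4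
    rw [Nsum.tsum_add (s1.add (s2.mul_left _)), s1.tsum_add (s2.mul_left _), t1, tsum_mul_left, t2]
      at h2
    have h3 : c / (x - 1) - C ≤ ∑' n, N n + (D + 1 / (x - 1) * (∑' n, s n - ∑ n ∈ Y, s n)) :=
      h1.trans h2
    have h4 : 1 / (x - 1) * (∑' n, s n - ∑ n ∈ Y, s n) ≤ 1 / (x - 1) * (c / 2) :=
      mul_le_mul_of_nonneg_left hY.le (by positivity)
    have h5 : c / (x - 1) - 1 / (x - 1) * (c / 2) ≤ C + ∑' n, N n + D := by linarith
    have h6 : c / (x - 1) - 1 / (x - 1) * (c / 2) = (c / 2) / (x - 1) := by ring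
    rw [h6, div_le_iff₀ hx1] at h5
    exact h5
  set K := C + ∑' n, N n + D with hK
  rcases le_or_gt K 0 with h₀ | h₀
  · have h7 := main 2 ⟨by norm_num, le_rfl⟩
    nlinarith
  · have h8 : min (1 + c / (4 * K)) 2 ∈ Set.Ioc (1:ℝ) 2 := by
      refine ⟨lt_min ?_ (by norm_num), min_le_right _ _⟩
      have : 0 < c / (4 * K) := by positivity
      linarith
    have h9 := main _ h8
    have h10 : min (1 + c / (4 * K)) 2 - 1 ≤ c / (4 * K) := by
      have := min_le_left (1 + c / (4 * K)) 2
      linarith
    have h11 : K * (min (1 + c / (4 * K)) 2 - 1) ≤ K * (c / (4 * K)) :=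
      mul_le_mul_of_nonneg_left h10 h₀.le
    have h12 : K * (c / (4 * K)) = c / 4 := by field_simp
    linarith

end Pool.Agent.NL
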