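import Pool.Agent.NL.Defs
import Pool.Agent.Helper24.PrimePairs

/-!
Brun-Titchmarsh inequality for the class 1 modulo a prime.

Selberg's sieve (`Pool.Agent.Helper24.residue_sieve`) is applied to the `j <= N / q` with `q j + 1` prime;
the forbidden class modulo a prime `l` is the root of `q c + 1 = 0` (no class for `l = q`).
-/

namespace Pool.Agent.NL

open Finset Pool.Agent.Helper24

/-- the forbidden classes -/
private def btΩ (q l : ℕ) : Finset ℕ := (range l).filter (fun c => l ∣ q * c + 1)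

private theorem mem_btΩ {q l c : ℕ} : c ∈ btΩ q l ↔ c < l ∧ l ∣ q * c + 1 := by
  rw [btΩ, mem_filter, mem_range]

private theorem card_btΩ_lt (q : ℕ) {l : ℕ} (hl : l.Prime) : (btΩ q l).card < l := by
  have h : btΩ q l ⊆ Ico 1 l := by
    intro c hc
    rw [mem_btΩ] at hc
    rw [mem_Ico]
    refine ⟨?_, hc.1⟩
    rcases Nat.eq_zero_or_pos c with rfl | h0
    · exfalso
      have := Nat.dvd_one.1 (by simpa using hc.2)
      exact hl.one_lt.ne' this
    · exact h0
  have h2 := card_le_card h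
  rw [Nat.card_Ico] at h2
  have := hl.pos
  omega

private theorem card_btΩ_pos {q l : ℕ} (hq : q.Prime) (hl : l.Prime) (hne : l ≠ q) :
    1 ≤ (btΩ q l).card := by
  haveI : Fact l.Prime := ⟨hl⟩
  rw [Nat.one_le_iff_ne_zero, card_ne_zero]
  have hq0 : (q : ZMod l) ≠ 0 := by
    intro h
    rw [ZMod.natCast_eq_zero_iff] at h
    exact hne ((Nat.prime_dvd_prime_iff_eq hl hq).1 h)
  refine ⟨(-(q : ZMod l)⁻¹).val, mem_btΩ.2 ⟨ZMod.val_lt _, ?_⟩⟩
  rw [← ZMod.natCast_eq_zero_iff]
  push_cast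
  rw [ZMod.natCast_zmod_val, mul_neg, mul_inv_cancel₀ hq0]
  ring

private theorem bt_density {q : ℕ} (hq : q.Prime) (Y : ℕ) :
    Real.log Y ≤ 3 * ∑ l ∈ (Icc 1 Y).filter Squarefree, hterm (btΩ q) l := by
  have h1 := log_le_two_mul_Fsum_inv Y
  set g : ℕ → ℝ := fun p => ((btΩ q p).card : ℝ) / ((p : ℝ) - (btΩ q p).card) with hg
  have hg0 : ∀ p, p.Prime → p ≤ Y → 0 ≤ g p := by
    intro p hp _
    have : ((btΩ q p).card : ℝ) < p := by exact_mod_cast card_btΩ_lt q hp
    have : (0 : ℝ) < (p : ℝ) - (btΩ q p).card := sub_pos.2 this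
    rw [hg]; positivity
  have hq0 : (0 : ℝ) < q := by exact_mod_cast hq.pos
  have h2 : Fsum Y (fun p => 1 / (p : ℝ)) ≤
      Fsum Y (fun p => g p + if p = q then 1 / (q : ℝ) else 0) := by
    refine Fsum_mono _ (fun p _ _ => by positivity) fun p hp hpY => ?_
    have hp0 : (0 : ℝ) < p := by exact_mod_cast hp.pos
    by_cases h : p = q
    · subst h
      rw [if_pos rfl]
      have := hg0 p hp hpY
      linarith
    · rw [if_neg h, add_zero, hg]
      simp only
      have h3 : (1 : ℝ) ≤ (btΩ q p).card := by exact_mod_cast card_btΩ_pos hq hp h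
      have h4 : ((btΩ q p).card : ℝ) < p := by exact_mod_cast card_btΩ_lt q hp
      have h5 : (0 : ℝ) < (p : ℝ) - (btΩ q p).card := sub_pos.2 h4
      rw [div_le_div_iff₀ hp0 h5]
      nlinarith
  have h3 := Fsum_step Y hg0 hq (u := 1 / (q : ℝ)) (by positivity)
  have h4 : (1 : ℝ) / q ≤ 1 / 2 := by
    rw [div_le_div_iff₀ hq0 (by norm_num)]
    have : (2 : ℝ) ≤ q := by exact_mod_cast hq.two_le
    linarith
  have h5 : 0 ≤ Fsum Y g := by
    have h6 := Fsum_mono Y (g := fun _ => 0) (g' := g) (fun p _ _ => le_rfl) hg0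
    refine le_trans ?_ h6
    exact sum_nonneg fun l _ => prod_nonneg fun p _ => le_rfl
  have h6 : (1 + 1 / (q : ℝ)) * Fsum Y g ≤ 3 / 2 * Fsum Y g :=
    mul_le_mul_of_nonneg_right (by linarith) h5
  have h7 : Fsum Y g = ∑ l ∈ (Icc 1 Y).filter Squarefree, hterm (btΩ q) l := rfl
  rw [← h7]
  linarith

private theorem bt_explicit {q : ℕ} (hq : q.Prime) (N Y : ℕ) (hY : 2 ≤ Y) :
    (((Icc 1 N).filter (fun p => p.Prime ∧ p % q = 1)).card : ℝ) ≤
      3 * ((N : ℝ) / q) / Real.log Y + 2 * (Y : ℝ) ^ 6 := by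
  have hlog : 0 < Real.log Y := Real.log_pos (by exact_mod_cast (by omega : 1 < Y))
  set M := N / q with hM
  set J := (Ioc 0 M).filter (fun j => (q * j + 1).Prime) with hJ
  set B := J.filter (fun j => Y < q * j + 1) with hB
  have hΩ : ∀ p, Nat.Prime p → p ≤ Y →
      (∀ c ∈ btΩ q p, c < p) ∧ (btΩ q p).card < p :=
    fun p hp _ => ⟨fun c hc => (mem_btΩ.1 hc).1, card_btΩ_lt q hp⟩
  have h1 := residue_sieve (A := 0) (M := M) (by omega : 1 ≤ Y) hΩ B ?_ ?_
  rotate_left
  · intro j hj
    rw [hB, mem_filter, hJ, mem_filter] at hj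
    rw [zero_add]
    exact hj.1.1
  · intro m hm p hp hpY hmem
    rw [hB, mem_filter, hJ, mem_filter] at hm
    rw [mem_btΩ] at hmem
    have hd : p ∣ q * m + 1 := by
      have e : q * m + 1 = p * (q * (m / p)) + (q * (m % p) + 1) := by
        conv_lhs => rw [← Nat.div_add_mod m p]
        ring
      rw [e]
      exact dvd_add (Dvd.intro _ rfl) hmem.2
    have := (Nat.prime_dvd_prime_iff_eq hp hm.1.2).1 hd
    omega
  have h2 := bt_density hq Y
  set G := ∑ l ∈ (Icc 1 Y).filter Squarefree, hterm (btΩ q) l with hG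
  have hG0 : 0 < G := by linarith
  have hMr : (M : ℝ) ≤ (N : ℝ) / q := by rw [hM]; exact Nat.cast_div_le
  have hM0 : (0 : ℝ) ≤ M := by positivity
  have h3 : (M : ℝ) / G ≤ 3 * ((N : ℝ) / q) / Real.log Y := by
    rw [div_le_div_iff₀ hG0 hlog]
    nlinarith
  have h4 : J.card ≤ B.card + Y := by
    rw [← card_filter_add_card_filter_not (s := J) (fun j => Y < q * j + 1)]
    refine Nat.add_le_add_left ?_ _
    have : J.filter (fun j => ¬ Y < q * j + 1) ⊆ Icc 1 Y := by
      intro j hj
      rw [mem_filter, hJ, mem_filter, mem_Ioc] at hj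
      rw [mem_Icc]
      refine ⟨hj.1.1.1, ?_⟩
      have h5 : 1 * j ≤ q * j := Nat.mul_le_mul_right _ hq.pos
      omega
    simpa using card_le_card this
  have h5 : ((Icc 1 N).filter (fun p => p.Prime ∧ p % q = 1)).card ≤ J.card := by
    refine card_le_card_of_injOn (fun p => p / q) ?_ ?_
    · intro p hp
      rw [mem_coe, mem_filter, mem_Icc] at hp
      have e := Nat.div_add_mod p q
      rw [hp.2.2] at e
      rw [mem_coe, hJ, mem_filter, mem_Ioc]
      refine ⟨⟨?_, Nat.div_le_div_right hp.1.2⟩, ?_⟩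
      · rcases Nat.eq_zero_or_pos (p / q) with h0 | h0
        · rw [h0] at e
          have := hp.2.1.one_lt
          omega
        · exact h0
      · show (q * (p / q) + 1).Prime
        rw [e]
        exact hp.2.1
    · intro p hp r hr hpr
      rw [mem_coe, mem_filter] at hp hr
      have e1 := Nat.div_add_mod p q
      have e2 := Nat.div_add_mod r q
      have h6 : p / q = r / q := hpr
      rw [hp.2.2] at e1
      rw [hr.2.2] at e2
      rw [← e1, ← e2, h6]
  have h6 : (((Icc 1 N).filter (fun p => p.Prime ∧ p % q = 1)).card : ℝ) ≤ B.card + Y := by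
    exact_mod_cast h5.trans h4
  have hYr : (1 : ℝ) ≤ Y := by exact_mod_cast (by omega : 1 ≤ Y)
  have h7 : (Y : ℝ) ≤ (Y : ℝ) ^ 6 := le_self_pow₀ hYr (by norm_num)
  linarith

theorem brun_titchmarsh : ∃ C : ℝ, 0 < C ∧ ∀ q N : ℕ, q.Prime → q ^ 2 ≤ N →
    (((Icc 1 N).filter (fun p => p.Prime ∧ p % q = 1)).card : ℝ) ≤
      C * N / (q * Real.log N) := by
  refine ⟨200, by norm_num, fun q N hq hN => ?_⟩
  have hq0 : (0 : ℝ) < q := by exact_mod_cast hq.pos
  have hq2 : (2 : ℝ) ≤ q := by exact_mod_cast hq.two_le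
  have hNn : 4 ≤ N := by
    have := hq.two_le
    nlinarith
  have hN4 : (4 : ℝ) ≤ N := by exact_mod_cast hNn
  have hN0 : (0 : ℝ) < N := by linarith
  set t : ℝ := (N : ℝ) ^ (1 / 24 : ℝ) with ht
  have ht0 : 0 < t := Real.rpow_pos_of_pos hN0 _
  have ht24 : t ^ 24 = N := by
    rw [ht, ← Real.rpow_natCast, ← Real.rpow_mul hN0.le]
    norm_num
  have ht1 : 1 < t := by
    by_contra hcon
    push Not at hcon
    have : t ^ 24 ≤ 1 := pow_le_one₀ ht0.le hcon
    linarith
  have hlogt : 0 < Real.log t := Real.log_pos ht1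
  have hlogN : Real.log N = 24 * Real.log t := by
    rw [← ht24, Real.log_pow]
    norm_num
  have hlogt' : Real.log t ≤ t := (Real.log_le_sub_one_of_pos ht0).trans (by linarith)
  have hlogN0 : 0 < Real.log N := by rw [hlogN]; positivity
  -- the trivial bound
  have htriv : (((Icc 1 N).filter (fun p => p.Prime ∧ p % q = 1)).card : ℝ) ≤ (N : ℝ) / q := by
    have h5 : ((Icc 1 N).filter (fun p => p.Prime ∧ p % q = 1)).card ≤ (Ioc 0 (N / q)).card := by
      refine card_le_card_of_injOn (fun p => p / q) ?_ ?_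
      · intro p hp
        rw [mem_coe, mem_filter, mem_Icc] at hp
        have e := Nat.div_add_mod p q
        rw [hp.2.2] at e
        rw [mem_coe, mem_Ioc]
        refine ⟨?_, Nat.div_le_div_right hp.1.2⟩
        rcases Nat.eq_zero_or_pos (p / q) with h0 | h0
        · rw [h0] at e
          have := hp.2.1.one_lt
          omega
        · exact h0
      · intro p hp r hr hpr
        rw [mem_coe, mem_filter] at hp hr
        have e1 := Nat.div_add_mod p q
        have e2 := Nat.div_add_mod r q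
        have h6 : p / q = r / q := hpr
        rw [hp.2.2] at e1
        rw [hr.2.2] at e2
        rw [← e1, ← e2, h6]
    rw [Nat.card_Ioc, Nat.sub_zero] at h5
    have h6 : (((Icc 1 N).filter (fun p => p.Prime ∧ p % q = 1)).card : ℝ) ≤ ((N / q : ℕ) : ℝ) := by
      exact_mod_cast h5
    exact h6.trans Nat.cast_div_le
  rcases lt_or_ge t 4 with h4 | h4
  · refine htriv.trans ?_
    have hl4 : Real.log t ≤ 3 := by
      have : Real.log t ≤ t - 1 := Real.log_le_sub_one_of_pos ht0
      linarith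
    rw [div_le_div_iff₀ hq0 (by positivity), hlogN]
    have h5 : (N : ℝ) * (q * (24 * Real.log t)) ≤ N * (q * 72) := by gcongr; linarith
    have h6 : (0 : ℝ) < N * q := by positivity
    nlinarith
  · set Y := ⌊t⌋₊ with hYd
    have hY1 : (Y : ℝ) ≤ t := Nat.floor_le ht0.le
    have hY2 : t < (Y : ℝ) + 1 := Nat.lt_floor_add_one t
    have hY3 : 2 ≤ Y := by
      have : (2 : ℝ) < Y := by linarith
      exact_mod_cast this.le
    have h5 := bt_explicit hq N Y hY3
    have hY0 : (0 : ℝ) < Y := by linarith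
    have hsq : t ≤ (Y : ℝ) ^ 2 := by nlinarith
    have hlogY : Real.log t ≤ 2 * Real.log Y := by
      have := Real.log_le_log ht0 hsq
      rwa [Real.log_pow, Nat.cast_ofNat] at this
    have hlogY0 : 0 < Real.log Y := by linarith
    have hqt : (q : ℝ) ≤ t ^ 12 := by
      have h6 : (q : ℝ) ^ 2 ≤ (t ^ 12) ^ 2 := by
        rw [← pow_mul]
        norm_num only
        rw [ht24]
        exact_mod_cast hN
      exact le_of_sq_le_sq h6 (by positivity)
    have h6 : 3 * ((N : ℝ) / q) / Real.log Y ≤ 144 * (N / (q * Real.log N)) := by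
      have e : 3 * ((N : ℝ) / q) / Real.log Y = 3 * (N / (q * Real.log Y)) := by
        field_simp
      have e2 : 144 * ((N : ℝ) / (q * Real.log N)) = 3 * (N / (q * (Real.log t / 2))) := by
        rw [hlogN]
        field_simp
        norm_num
      rw [e, e2]
      gcongr
      linarith
    have h7 : 2 * (Y : ℝ) ^ 6 ≤ 48 * (N / (q * Real.log N)) := by
      have e : 48 * ((N : ℝ) / (q * Real.log N)) = 2 * (t ^ 24 / (q * Real.log t)) := by
        rw [hlogN, ht24]
        field_simp
        norm_num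
      rw [e]
      refine mul_le_mul_of_nonneg_left ?_ (by norm_num)
      rw [le_div_iff₀ (by positivity)]
      have h8 : (Y : ℝ) ^ 6 ≤ t ^ 6 := by gcongr
      have h9 : (q : ℝ) * Real.log t ≤ t ^ 12 * t := by gcongr
      have h10 : (t : ℝ) ^ 19 ≤ t ^ 24 := pow_le_pow_right₀ ht1.le (by norm_num)
      calc (Y : ℝ) ^ 6 * (q * Real.log t) ≤ t ^ 6 * (t ^ 12 * t) := by gcongr
        _ = t ^ 19 := by ring
        _ ≤ t ^ 24 := h10
    have h11 : 0 ≤ (N : ℝ) / (q * Real.log N) := by positivity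
    have e3 : 200 * (N : ℝ) / (q * Real.log N) = 200 * (N / (q * Real.log N)) := by ring
    rw [e3]
    linarith

end Pool.Agent.NL
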