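import Mathlib

/-!
Almost all bases for the Nagell-Ljunggren equation: basic definitions.
-/

namespace Pool.Agent.NL

open Finset

/-- The repunit `1 + x + ... + x^(n-1)`. -/
def rep (x n : ℕ) : ℕ := ∑ i ∈ range n, x ^ i

/-- `x` is the base of a solution of the Nagell-Ljunggren equation with exponent `q`. -/
def Base (q x : ℕ) : Prop := ∃ y n : ℕ, 1 < x ∧ 1 < y ∧ 2 < n ∧ y ^ q = rep x n

/-- The number of elements of `S` in `[1, N]`. -/
noncomputable def cnt (S : Set ℕ) (N : ℕ) : ℕ := (S ∩ Set.Icc 1 N).ncard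

/-- `S` has natural density zero. -/
def DZ (S : Set ℕ) : Prop := ∀ ε : ℝ, 0 < ε → ∃ N₀ : ℕ, ∀ N : ℕ, N₀ ≤ N → (cnt S N : ℝ) ≤ ε * N

theorem rep_mul_int (x n : ℕ) : ((rep x n : ℕ) : ℤ) * ((x : ℤ) - 1) = (x : ℤ) ^ n - 1 := by
  unfold rep
  push_cast
  exact geom_sum_mul (x : ℤ) n

theorem rep_mul {x : ℕ} (hx : 1 ≤ x) (n : ℕ) : rep x n * (x - 1) + 1 = x ^ n := by
  have h := rep_mul_int x n
  zify
  rw [Nat.cast_sub hx]
  push_cast
  linarith

theorem rep_zero (x : ℕ) : rep x 0 = 0 := by simp [rep]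

theorem rep_one (x : ℕ) : rep x 1 = 1 := by simp [rep]

theorem rep_succ (x n : ℕ) : rep x (n + 1) = rep x n + x ^ n := by simp [rep, sum_range_succ]

theorem rep_pos {x n : ℕ} (hn : 1 ≤ n) : 0 < rep x n := by
  obtain ⟨m, rfl⟩ : ∃ m, n = m + 1 := ⟨n - 1, by omega⟩
  unfold rep
  rw [sum_range_succ']
  simp

theorem rep_lt {x n : ℕ} (hx : 2 ≤ x) : rep x n < x ^ n := by
  have h := rep_mul (by omega : 1 ≤ x) n
  have h2 : rep x n * 1 ≤ rep x n * (x - 1) := Nat.mul_le_mul_left _ (by omega)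
  omega

/-- `rep x (a * b) = rep x a * rep (x^a) b`. -/
theorem rep_mul_eq (x a b : ℕ) : rep x (a * b) = rep x a * rep (x ^ a) b := by
  induction b with
  | zero => simp [rep]
  | succ b ih =>
    have e : rep x (a * (b + 1)) = rep x (a * b) + x ^ (a * b) * rep x a := by
      rw [mul_add, mul_one, rep, sum_range_add, ← rep, rep, rep, mul_sum]
      congr 1
      refine sum_congr rfl fun i _ => ?_
      rw [pow_add]
    rw [e, rep_succ, ih, ← pow_mul]
    ring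

theorem cnt_mono {S T : Set ℕ} (h : S ⊆ T) (N : ℕ) : cnt S N ≤ cnt T N := by
  unfold cnt
  exact Set.ncard_le_ncard (Set.inter_subset_inter_left _ h)
    ((Set.finite_Icc 1 N).subset Set.inter_subset_right)

theorem cnt_union_le (S T : Set ℕ) (N : ℕ) : cnt (S ∪ T) N ≤ cnt S N + cnt T N := by
  unfold cnt
  rw [Set.union_inter_distrib_right]
  exact Set.ncard_union_le _ _

/-- Counting through a finset. -/
theorem cnt_le_card {S : Set ℕ} {N : ℕ} (F : Finset ℕ) (h : ∀ x ∈ S, 1 ≤ x → x ≤ N → x ∈ F) :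
    cnt S N ≤ F.card := by
  unfold cnt
  rw [← Set.ncard_coe_finset]
  refine Set.ncard_le_ncard ?_ F.finite_toSet
  intro x hx
  exact h x hx.1 hx.2.1 hx.2.2

theorem cnt_eq_card (P : ℕ → Prop) [DecidablePred P] (N : ℕ) :
    cnt {x | P x} N = ((Icc 1 N).filter P).card := by
  unfold cnt
  rw [← Set.ncard_coe_finset]
  congr 1
  ext x
  simp [and_comm]

theorem DZ.mono {S T : Set ℕ} (hT : DZ T) (h : S ⊆ T) : DZ S := by
  intro ε hε
  obtain ⟨N₀, hN⟩ := hT ε hε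
  exact ⟨N₀, fun N h0 => le_trans (by exact_mod_cast cnt_mono h N) (hN N h0)⟩

theorem DZ.union {S T : Set ℕ} (hS : DZ S) (hT : DZ T) : DZ (S ∪ T) := by
  intro ε hε
  obtain ⟨N₀, hN⟩ := hS (ε / 2) (by positivity)
  obtain ⟨N₁, hN'⟩ := hT (ε / 2) (by positivity)
  refine ⟨max N₀ N₁, fun N h => ?_⟩
  have h1 := hN N (le_trans (le_max_left _ _) h)
  have h2 := hN' N (le_trans (le_max_right _ _) h)
  have h3 : (cnt (S ∪ T) N : ℝ) ≤ cnt S N + cnt T N := by exact_mod_cast cnt_union_le S T N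
  linarith

theorem cnt_le_of_bounded {S : Set ℕ} {B : ℕ} (h : ∀ x ∈ S, x < B) (N : ℕ) : cnt S N ≤ B := by
  refine (cnt_le_card (range B) fun x hx _ _ => mem_range.2 (h x hx)).trans ?_
  rw [card_range]

theorem DZ_of_bounded {S : Set ℕ} {B : ℕ} (h : ∀ x ∈ S, x < B) : DZ S := by
  intro ε hε
  obtain ⟨N₀, hN⟩ := exists_nat_ge ((B : ℝ) / ε)
  refine ⟨N₀, fun N h0 => ?_⟩
  have h1 : (cnt S N : ℝ) ≤ B := by exact_mod_cast cnt_le_of_bounded h N
  have h2 : (N₀ : ℝ) ≤ N := by exact_mod_cast h0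
  rw [div_le_iff₀ hε] at hN
  nlinarith

theorem DZ.biUnion (s : Finset ℕ) (S : ℕ → Set ℕ) (h : ∀ i ∈ s, DZ (S i)) :
    DZ {x | ∃ i ∈ s, x ∈ S i} := by
  classical
  induction s using Finset.induction_on with
  | empty =>
    refine DZ_of_bounded (B := 0) fun x hx => ?_
    obtain ⟨i, hi, _⟩ := hx
    simp at hi
  | insert a s ha ih =>
    refine DZ.mono ((h a (mem_insert_self a s)).union (ih fun i hi => h i (mem_insert_of_mem hi))) ?_
    intro x hx
    obtain ⟨i, hi, hx⟩ := hx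
    rw [mem_insert] at hi
    rcases hi with rfl | hi
    · exact Or.inl hx
    · exact Or.inr ⟨i, hi, hx⟩

/-- A criterion: density zero if, up to sets of density zero, the upper density is at most every
positive number. -/
theorem DZ_of_forall {S : Set ℕ} (h : ∀ ε : ℝ, 0 < ε → ∃ T : Set ℕ, DZ T ∧
    ∃ N₀ : ℕ, ∀ N : ℕ, N₀ ≤ N → (cnt (S \ T) N : ℝ) ≤ ε * N) : DZ S := by
  intro ε hε
  obtain ⟨T, hT, N₀, hN⟩ := h (ε / 2) (by positivity)
  obtain ⟨N₁, hN'⟩ := hT (ε / 2) (by positivity)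
  refine ⟨max N₀ N₁, fun N h => ?_⟩
  have h1 := hN N (le_trans (le_max_left _ _) h)
  have h2 := hN' N (le_trans (le_max_right _ _) h)
  have h3 : (cnt S N : ℝ) ≤ cnt (S \ T) N + cnt T N := by
    have : cnt S N ≤ cnt ((S \ T) ∪ T) N := cnt_mono (by
      intro x hx
      by_cases hxT : x ∈ T
      · exact Or.inr hxT
      · exact Or.inl ⟨hx, hxT⟩) N
    exact_mod_cast this.trans (cnt_union_le _ _ _)
  linarith

end Pool.Agent.NL
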