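import Mathlib

/-!
Divisibility of a determinant of a product of rectangular matrices (Cauchy-Binet).

det_dvd: row a of C * V is sum_sigma C a sigma * (row sigma of V); by multilinearity of the
determinant in the rows det (C V) = sum_(f : iota -> I) (prod_a C a (f a)) * det (fun a c => V (f a) c).
If f is not injective the last determinant has two equal rows. If f is injective, prod_a C a (f a) is
divisible by t^(sum_a (w (f a) - i a)) and sum_a (w (f a) - i a) >= B - sum_a i a.
-/

namespace Pool.Agent.NL

open Finset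

private theorem det_mul_expand {ι I : Type*} [Fintype ι] [DecidableEq ι] [Fintype I]
    [DecidableEq I] (C : Matrix ι I ℤ) (V : Matrix I ι ℤ) :
    (C * V).det = ∑ f : ι → I, (∏ a, C a (f a)) * (Matrix.of fun a c => V (f a) c).det := by
  have h1 : (C * V) = Matrix.of fun a => ∑ σ, C a σ • V σ := by
    ext a c
    simp [Matrix.mul_apply, Finset.sum_apply]
  rw [h1]
  have h2 := (Matrix.detRowAlternating (n := ι) (R := ℤ)).toMultilinearMap.map_sum
    (fun (a : ι) (σ : I) => C a σ • V σ)
  have h3 : (Matrix.of fun a => ∑ σ, C a σ • V σ).det =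
      (Matrix.detRowAlternating (n := ι) (R := ℤ)).toMultilinearMap
        (fun a => ∑ σ, C a σ • V σ) := rfl
  rw [h3, h2]
  refine sum_congr rfl fun f _ => ?_
  have h4 := (Matrix.detRowAlternating (n := ι) (R := ℤ)).toMultilinearMap.map_smul_univ
    (fun a => C a (f a)) (fun a => V (f a))
  rw [h4, smul_eq_mul]
  rfl

theorem det_dvd {ι I : Type*} [Fintype ι] [DecidableEq ι] [Fintype I] [DecidableEq I] (t : ℤ)
    (w : I → ℕ) (i : ι → ℕ) (C : Matrix ι I ℤ) (V : Matrix I ι ℤ)
    (hC : ∀ a σ, t ^ (w σ - i a) ∣ C a σ) (B : ℕ)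
    (hw : ∀ f : ι → I, Function.Injective f → B ≤ ∑ a, w (f a)) :
    t ^ (B - ∑ a, i a) ∣ (C * V).det := by
  rw [det_mul_expand]
  refine Finset.dvd_sum fun f _ => ?_
  by_cases hf : Function.Injective f
  · refine Dvd.dvd.mul_right ?_ _
    have h1 : (∏ a, t ^ (w (f a) - i a)) ∣ ∏ a, C a (f a) :=
      Finset.prod_dvd_prod_of_dvd _ _ fun a _ => hC a (f a)
    rw [Finset.prod_pow_eq_pow_sum] at h1
    refine (pow_dvd_pow t ?_).trans h1
    have h2 := hw f hf
    have h3 : ∑ a, w (f a) ≤ ∑ a, (w (f a) - i a) + ∑ a, i a := by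
      rw [← sum_add_distrib]
      exact sum_le_sum fun a _ => by omega
    omega
  · have : (Matrix.of fun a c => V (f a) c).det = 0 := by
      rw [Function.Injective] at hf
      push Not at hf
      obtain ⟨a, b, hab, hne⟩ := hf
      refine Matrix.det_zero_of_row_eq hne ?_
      funext c
      simp [hab]
    rw [this, mul_zero]
    exact dvd_zero _

private theorem sum_ge_of_injOn (s : Finset ℕ) : s.card * (s.card - 1) / 2 ≤ ∑ x ∈ s, x := by
  have h := Finset.sum_range_id (s.card)
  rw [← h]
  -- the sum of the smallest elements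
  induction s using Finset.induction_on_max with
  | empty => simp
  | insert a s hs ih =>
    have ha : a ∉ s := fun h => lt_irrefl _ (hs a h)
    rw [card_insert_of_notMem ha, sum_insert ha, sum_range_succ]
    have h1 : s.card ≤ a := by
      have : s ⊆ range a := fun x hx => mem_range.2 (hs x hx)
      simpa using card_le_card this
    have h2 := ih (Finset.sum_range_id _)
    omega

/-- The sum of `M` weights, if every weight `< M` is taken at most once. -/
theorem weight_sum {ι I : Type*} [Fintype ι] (w : I → ℕ)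
    (hw : ∀ σ τ, w σ = w τ → w σ < Fintype.card ι → σ = τ) (f : ι → I)
    (hf : Function.Injective f) :
    Fintype.card ι * (Fintype.card ι - 1) / 2 ≤ ∑ a, w (f a) := by
  classical
  set M := Fintype.card ι with hM
  set A := (univ : Finset ι).filter (fun a => w (f a) < M) with hA
  set B := (univ : Finset ι).filter (fun a => ¬ w (f a) < M) with hB
  have hAB : A.card + B.card = M := by
    rw [hA, hB, Finset.card_filter_add_card_filter_not, card_univ]
  have hsplit : ∑ a, w (f a) = ∑ a ∈ A, w (f a) + ∑ a ∈ B, w (f a) := by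
    rw [hA, hB, Finset.sum_filter_add_sum_filter_not]
  have hinj : Set.InjOn (fun a => w (f a)) A := by
    intro a ha b _ hab
    rw [hA, mem_coe, mem_filter] at ha
    exact hf (hw _ _ hab ha.2)
  have h1 : A.card * (A.card - 1) / 2 ≤ ∑ a ∈ A, w (f a) := by
    have h2 := sum_ge_of_injOn (A.image fun a => w (f a))
    rw [card_image_of_injOn hinj, sum_image hinj] at h2
    exact h2
  have h3 : B.card * M ≤ ∑ a ∈ B, w (f a) := by
    rw [← smul_eq_mul]
    refine Finset.card_nsmul_le_sum _ _ _ fun a ha => ?_
    rw [hB, mem_filter] at ha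
    omega
  rw [hsplit]
  have h4 : M * (M - 1) / 2 ≤ A.card * (A.card - 1) / 2 + B.card * M := by
    have e : A.card = M - B.card := by omega
    have hBM : B.card ≤ M := by omega
    obtain ⟨c, hc⟩ : ∃ c, M = B.card + c := ⟨M - B.card, by omega⟩
    have hAc : A.card = c := by omega
    rw [hAc, hc]
    set b := B.card
    have e1 : (b + c) * (b + c - 1) ≤ c * (c - 1) + 2 * (b * (b + c)) := by
      rcases Nat.eq_zero_or_pos c with rfl | hc0
      · rcases Nat.eq_zero_or_pos b with hb | hb
        · simp [hb]
        · obtain ⟨b', hb'⟩ : ∃ b', b = b' + 1 := ⟨b - 1, by omega⟩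
          rw [hb']
          simp
          nlinarith
      · obtain ⟨c', rfl⟩ : ∃ c', c = c' + 1 := ⟨c - 1, by omega⟩
        have : b + (c' + 1) - 1 = b + c' := by omega
        rw [this, Nat.add_sub_cancel]
        nlinarith
    calc (b + c) * (b + c - 1) / 2 ≤ (c * (c - 1) + 2 * (b * (b + c))) / 2 := Nat.div_le_div_right e1
      _ = c * (c - 1) / 2 + b * (b + c) := by rw [Nat.add_mul_div_left _ _ (by norm_num)]
  omega

end Pool.Agent.NL
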