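import Pool.Agent.NL.Defs

/-!
The diagonal equation rep x q = q^e * w^q has few solutions.

PLAN. x -> rep x q is strictly increasing, so x <= N is determined by (e, w), e in {0,1} and
w^q <= rep x q < q (x)^(q-1)... <= q N^(q-1): w <= (q N^(q-1))^(1/q) <= q N^(1-1/q). So the count is at most
2 (q N^(1 - 1/q) + 1) = o(N).
-/

namespace Pool.Agent.NL

open Finset

private theorem rep_strictMono {q : ℕ} (hq : 2 ≤ q) {x y : ℕ} (h : x < y) : rep x q < rep y q := by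
  unfold rep
  refine Finset.sum_lt_sum (fun i _ => Nat.pow_le_pow_left h.le i) ⟨1, by simp; omega, ?_⟩
  simpa using h

private theorem rep_le_pow {q x : ℕ} (hx : 1 ≤ x) : rep x q ≤ q * x ^ (q - 1) := by
  unfold rep
  calc ∑ i ∈ range q, x ^ i ≤ ∑ _i ∈ range q, x ^ (q - 1) :=
        Finset.sum_le_sum fun i hi => Nat.pow_le_pow_right hx (by rw [mem_range] at hi; omega)
    _ = q * x ^ (q - 1) := by simp

theorem diag_DZ {q : ℕ} (hq : q.Prime) :
    DZ {x | 1 < x ∧ ∃ e w : ℕ, e ≤ 1 ∧ rep x q = q ^ e * w ^ q} := by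
  classical
  intro ε hε
  have hq2 : 2 ≤ q := hq.two_le
  set δ : ℝ := ε / 4 with hδ
  have hδ0 : 0 < δ := by positivity
  obtain ⟨N₁, hN₁⟩ := exists_nat_ge ((q : ℝ) / δ ^ q)
  obtain ⟨N₂, hN₂⟩ := exists_nat_ge (4 / ε)
  refine ⟨N₁ + N₂ + 1, fun N hN => ?_⟩
  have hN1 : (1 : ℝ) ≤ N := by
    have : 1 ≤ N := by omega
    exact_mod_cast this
  have hNa : (q : ℝ) / δ ^ q + 1 ≤ N := by
    have : (N₁ : ℝ) + 1 ≤ N := by
      have : N₁ + 1 ≤ N := by omega
      exact_mod_cast this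
    linarith
  have hNb : 4 / ε ≤ N := by
    have : (N₂ : ℝ) ≤ N := by
      have : N₂ ≤ N := by omega
      exact_mod_cast this
    linarith
  -- the witnesses
  have hbound : ∀ x : ℕ, 1 < x → x ≤ N → ∀ e w : ℕ, rep x q = q ^ e * w ^ q →
      w < ⌊δ * N⌋₊ + 1 := by
    intro x hx hxN e w hew
    have h1 : w ^ q ≤ q * N ^ (q - 1) := by
      calc w ^ q ≤ q ^ e * w ^ q := Nat.le_mul_of_pos_left _ (pow_pos hq.pos e)
        _ = rep x q := hew.symm
        _ ≤ q * x ^ (q - 1) := rep_le_pow (by omega)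
        _ ≤ q * N ^ (q - 1) := Nat.mul_le_mul_left _ (Nat.pow_le_pow_left hxN _)
    by_contra hcon
    push Not at hcon
    have h2 : δ * N < w := by
      have h3 : (⌊δ * N⌋₊ : ℝ) + 1 ≤ w := by exact_mod_cast hcon
      have h4 := Nat.lt_floor_add_one (δ * N)
      linarith
    have h3 : (δ * N) ^ q < (w : ℝ) ^ q := pow_lt_pow_left₀ h2 (by positivity) (by omega)
    have h4 : (w : ℝ) ^ q ≤ q * (N : ℝ) ^ (q - 1) := by exact_mod_cast h1
    have h5 : δ ^ q * N * (N : ℝ) ^ (q - 1) < q * (N : ℝ) ^ (q - 1) := by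
      have h6 : (δ * N) ^ q = δ ^ q * N * (N : ℝ) ^ (q - 1) := by
        rw [mul_pow, mul_assoc, ← pow_succ', Nat.sub_add_cancel (by omega : 1 ≤ q)]
      rw [← h6]
      exact h3.trans_le h4
    have h7 : (0 : ℝ) < (N : ℝ) ^ (q - 1) := by positivity
    have h8 : δ ^ q * N < q := lt_of_mul_lt_mul_right h5 h7.le
    have h9 : (0 : ℝ) < δ ^ q := by positivity
    have h10 : (N : ℝ) < q / δ ^ q := by
      rw [lt_div_iff₀ h9]
      linarith
    linarith
  rw [cnt_eq_card]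
  set F := (Icc 1 N).filter (fun x => 1 < x ∧ ∃ e w : ℕ, e ≤ 1 ∧ rep x q = q ^ e * w ^ q) with hF
  have hch : ∀ x : ℕ, ∃ p : ℕ × ℕ, x ∈ F →
      (p ∈ range 2 ×ˢ range (⌊δ * N⌋₊ + 1) ∧ rep x q = q ^ p.1 * p.2 ^ q) := by
    intro x
    by_cases hx : x ∈ F
    · have hx' := hx
      rw [hF, mem_filter, mem_Icc] at hx'
      obtain ⟨⟨_, hxN⟩, hx1, e, w, he, hew⟩ := hx'
      refine ⟨(e, w), fun _ => ⟨?_, hew⟩⟩
      rw [mem_product, mem_range, mem_range]
      exact ⟨by simp; omega, hbound x hx1 hxN e w hew⟩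
    · exact ⟨(0, 0), fun h => absurd h hx⟩
  choose p hp using hch
  have hcard : F.card ≤ (range 2 ×ˢ range (⌊δ * N⌋₊ + 1)).card := by
    refine Finset.card_le_card_of_injOn p (fun x hx => (hp x hx).1) ?_
    intro x hx y hy hxy
    have h1 := (hp x hx).2
    have h2 := (hp y hy).2
    rw [hxy, ← h2] at h1
    rcases lt_trichotomy x y with h | h | h
    · exact absurd h1 (rep_strictMono hq2 h).ne
    · exact h
    · exact absurd h1.symm (rep_strictMono hq2 h).ne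
  rw [card_product, card_range, card_range] at hcard
  have h1 : (F.card : ℝ) ≤ 2 * ((⌊δ * N⌋₊ : ℝ) + 1) := by exact_mod_cast hcard
  have h2 : (⌊δ * N⌋₊ : ℝ) ≤ δ * N := Nat.floor_le (by positivity)
  have h3 : 4 ≤ ε * N := by
    rw [div_le_iff₀ hε] at hNb
    linarith
  calc (F.card : ℝ) ≤ 2 * ((⌊δ * N⌋₊ : ℝ) + 1) := h1
    _ ≤ 2 * (δ * N + 1) := by linarith
    _ ≤ ε * N := by rw [hδ]; nlinarith

end Pool.Agent.NL
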