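import Mathlib

/-!
Binomial expansions of the rows.

pow_eq_sum: z^e = ((z-1)+1)^e, binomial theorem, terms with e < k vanish.
choose_mul_pow: if m < i both sides are 0. If i <= m: z^m = z^i z^(m-i), expand z^(m-i), and
choose(m,i) choose(m-i,k) = choose(m,i+k) choose(i+k,i), l = i + k.
-/

namespace Pool.Agent.NL

open Finset

theorem pow_eq_sum (z : ℤ) (e Λ : ℕ) (h : e < Λ) :
    z ^ e = ∑ k ∈ range Λ, (z - 1) ^ k * (e.choose k : ℤ) := by
  have h1 : z ^ e = ∑ k ∈ range (e + 1), (z - 1) ^ k * (e.choose k : ℤ) := by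
    have h2 := add_pow (z - 1) 1 e
    rw [sub_add_cancel] at h2
    rw [h2]
    exact sum_congr rfl fun k _ => by rw [one_pow, mul_one]
  rw [h1]
  refine sum_subset (range_subset_range.2 h) fun k _ hk => ?_
  rw [mem_range, not_lt] at hk
  rw [Nat.choose_eq_zero_of_lt (by omega)]
  simp

theorem choose_mul_pow (z : ℤ) (i m Λ : ℕ) (h : m < Λ) :
    (m.choose i : ℤ) * z ^ m =
      ∑ l ∈ range Λ, ((l.choose i : ℤ) * z ^ i * (z - 1) ^ (l - i)) * (m.choose l : ℤ) := by
  rcases lt_or_ge m i with hmi | him
  · rw [Nat.choose_eq_zero_of_lt hmi]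
    rw [sum_eq_zero]
    · simp
    · intro l _
      rcases lt_or_ge l i with hl | hl
      · rw [Nat.choose_eq_zero_of_lt hl]; simp
      · rw [Nat.choose_eq_zero_of_lt (by omega : m < l)]; simp
  · obtain ⟨d, rfl⟩ : ∃ d, m = i + d := ⟨m - i, by omega⟩
    have hsub : (Finset.range (d + 1)).map (addLeftEmbedding i) ⊆ range Λ := by
      intro l hl
      rw [mem_map] at hl
      obtain ⟨k, hk, rfl⟩ := hl
      rw [mem_range] at hk ⊢
      simp only [addLeftEmbedding_apply]
      omega
    rw [← sum_subset hsub]
    · rw [sum_map]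
      rw [pow_add, pow_eq_sum z d (d + 1) (by omega), mul_sum, mul_sum]
      refine sum_congr rfl fun k hk => ?_
      rw [mem_range] at hk
      simp only [addLeftEmbedding_apply, Nat.add_sub_cancel_left]
      have h3 : (i + d).choose (i + k) * (i + k).choose i = (i + d).choose i * d.choose k := by
        have := Nat.choose_mul (n := i + d) (k := i + k) (s := i) (by omega)
        simpa using this
      have h4 : ((i + d).choose (i + k) : ℤ) * ((i + k).choose i : ℤ) =
          ((i + d).choose i : ℤ) * (d.choose k : ℤ) := by exact_mod_cast h3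
      linear_combination (-(z ^ i * (z - 1) ^ k)) * h4
    · intro l _ hl
      rcases lt_or_ge l i with hl1 | hl1
      · rw [Nat.choose_eq_zero_of_lt hl1]; simp
      · rcases lt_or_ge (i + d) l with hl2 | hl2
        · rw [Nat.choose_eq_zero_of_lt hl2]; simp
        · exfalso
          apply hl
          rw [mem_map]
          exact ⟨l - i, mem_range.2 (by omega), by simp only [addLeftEmbedding_apply]; omega⟩

end Pool.Agent.NL
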