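import Pool.Agent.NL.Defs

/-!
The q-th root theta of 1 - x modulo t ^ N, and y * theta = 1 modulo t ^ n.

PLAN. phi(t^N) divides a power of t times phi(t) (Nat.totient_prime_pow / Nat.totient_super_multiplicative
.. e.g. phi(t^(N+1)) = t^N phi(t): Nat.totient_mul_of_prime..., or: every prime dividing phi(t^N)
divides t * phi(t)); so q is coprime to phi(t^N) = card of (ZMod (t^N))^x. Then u -> u^q is bijective on
the units (powCoprime). 1 - x is a unit mod t^N (t | x): theta = q-th root, lifted to an integer.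
theta = 1 mod t: theta^q = 1 - x = 1 mod t and injectivity modulo t (q coprime to phi(t); if t | theta-1
is proved in ZMod t). y theta = 1 mod t^n: (y theta)^q = y^q (1-x) = 1 - x^n (rep_mul_int) = 1 mod t^n
since t^n | x^n and n <= N; injectivity modulo t^n; y theta is a unit there.
base_modEq: y^q = rep x n = 1 mod t (n >= 1; rep x n = 1 + x (...)), injectivity modulo t.
-/

namespace Pool.Agent.NL

open Finset

private theorem totient_pow_succ' {t : ℕ} (ht : t ≠ 0) (N : ℕ) :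
    (t ^ (N + 1)).totient = t ^ N * t.totient := by
  induction N with
  | zero => simp
  | succ N ih =>
    have h := Nat.totient_gcd_mul_totient_mul (t ^ (N + 1)) t
    have hg : (t ^ (N + 1)).gcd t = t := Nat.gcd_eq_right (dvd_pow_self t (Nat.succ_ne_zero N))
    rw [hg, ← pow_succ, ih] at h
    have hpos : 0 < t.totient := Nat.totient_pos.2 (Nat.pos_of_ne_zero ht)
    apply Nat.eq_of_mul_eq_mul_left hpos
    rw [h]
    ring

theorem coprime_totient_pow {t q : ℕ} (hq : q.Coprime (t * t.totient)) (N : ℕ) :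
    q.Coprime (t ^ N).totient := by
  rcases Nat.eq_zero_or_pos t with rfl | ht
  · have hq1 : q = 1 := by simpa using hq
    subst hq1
    exact Nat.coprime_one_left _
  · cases N with
    | zero => simp
    | succ N =>
      rw [totient_pow_succ' ht.ne']
      have h1 : q.Coprime t := Nat.Coprime.coprime_mul_right_right hq
      have h2 : q.Coprime t.totient := Nat.Coprime.coprime_mul_left_right hq
      exact Nat.Coprime.mul_right (Nat.Coprime.pow_right N h1) h2

private theorem card_units (m : ℕ) [NeZero m] : Nat.card (ZMod m)ˣ = m.totient := by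
  rw [Nat.card_eq_fintype_card, ZMod.card_units_eq_totient]

private theorem dvd_sub_one {m q : ℕ} (hm : m ≠ 0) (hq0 : q ≠ 0) (hq : q.Coprime m.totient) {z : ℤ}
    (h : (m : ℤ) ∣ z ^ q - 1) : (m : ℤ) ∣ z - 1 := by
  have : NeZero m := ⟨hm⟩
  have h1 : ((z : ℤ) : ZMod m) ^ q = 1 := by
    have := (ZMod.intCast_zmod_eq_zero_iff_dvd (z ^ q - 1) m).2 h
    push_cast at this
    exact sub_eq_zero.1 this
  obtain ⟨u, hu⟩ : IsUnit ((z : ℤ) : ZMod m) := IsUnit.of_pow_eq_one h1 hq0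
  have h2 : u ^ q = 1 ^ q := by
    ext
    push_cast
    rw [hu, h1, one_pow]
  have hc : (Nat.card (ZMod m)ˣ).Coprime q := by
    rw [card_units]
    exact hq.symm
  have h3 : u = 1 := (powCoprime hc).injective h2
  rw [← ZMod.intCast_zmod_eq_zero_iff_dvd]
  push_cast
  rw [← hu, h3]
  simp

/-- In a group of units modulo `t ^ N` the `q`-th power map is bijective. -/
theorem exists_theta {t q N n x y : ℕ} (ht : 1 < t) (hq : q.Coprime (t * t.totient)) (hx : t ∣ x)
    (hn : n ≤ N) (hn0 : 1 ≤ n) (h : y ^ q = rep x n) :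
    ∃ θ : ℤ, (t : ℤ) ^ N ∣ θ ^ q - (1 - x) ∧ (t : ℤ) ∣ θ - 1 ∧ (t : ℤ) ^ n ∣ y * θ - 1 := by
  have hq0 : q ≠ 0 := by
    rintro rfl
    rw [Nat.coprime_zero_left] at hq
    have := Nat.eq_one_of_mul_eq_one_right hq
    omega
  have ht0 : t ≠ 0 := by omega
  have : NeZero (t ^ N) := ⟨pow_ne_zero _ ht0⟩
  have hxz : (t : ℤ) ∣ (x : ℤ) := by exact_mod_cast hx
  have hcop : IsCoprime ((t ^ N : ℕ) : ℤ) (1 - (x : ℤ)) := by
    push_cast
    apply IsCoprime.pow_left
    obtain ⟨k, hk⟩ := hxz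
    refine ⟨k, 1, ?_⟩
    rw [hk]
    ring
  obtain ⟨w, hw⟩ : IsUnit (((1 - (x : ℤ) : ℤ)) : ZMod (t ^ N)) :=
    (ZMod.coe_int_isUnit_iff_isCoprime (1 - (x : ℤ)) (t ^ N)).2 hcop
  have hc : (Nat.card (ZMod (t ^ N))ˣ).Coprime q := by
    rw [card_units]
    exact (coprime_totient_pow hq N).symm
  obtain ⟨u, hu⟩ := (powCoprime hc).surjective w
  obtain ⟨θ, hθ⟩ := ZMod.intCast_surjective ((u : (ZMod (t ^ N))ˣ) : ZMod (t ^ N))
  have h1 : (t : ℤ) ^ N ∣ θ ^ q - (1 - x) := by
    have : ((t ^ N : ℕ) : ℤ) ∣ θ ^ q - (1 - x) := by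
      rw [← ZMod.intCast_zmod_eq_zero_iff_dvd]
      push_cast
      push_cast at hw
      rw [hθ, ← hw, ← hu]
      simp [powCoprime]
    exact_mod_cast this
  have hN : 1 ≤ N := hn0.trans hn
  have h2 : (t : ℤ) ∣ θ - 1 := by
    apply dvd_sub_one ht0 hq0 (Nat.Coprime.coprime_mul_left_right hq)
    have h3 : (t : ℤ) ∣ θ ^ q - (1 - x) := (dvd_pow_self (t : ℤ) (by omega)).trans h1
    have h4 : θ ^ q - 1 = (θ ^ q - (1 - x)) - x := by ring
    rw [h4]
    exact dvd_sub h3 hxz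
  refine ⟨θ, h1, h2, ?_⟩
  have h5 : ((t ^ n : ℕ) : ℤ) ∣ ((y : ℤ) * θ) ^ q - 1 := by
    have h6 : ((y : ℤ)) ^ q = ((rep x n : ℕ) : ℤ) := by exact_mod_cast h
    have h7 := rep_mul_int x n
    have h8 : ((y : ℤ) * θ) ^ q - 1 = ((rep x n : ℕ) : ℤ) * (θ ^ q - (1 - x)) - (x : ℤ) ^ n := by
      rw [mul_pow, h6]
      linear_combination -h7
    rw [h8]
    push_cast
    apply dvd_sub
    · exact Dvd.dvd.mul_left ((pow_dvd_pow (t : ℤ) hn).trans h1) _
    · exact pow_dvd_pow_of_dvd hxz n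
  have h9 := dvd_sub_one (pow_ne_zero n ht0) hq0 (coprime_totient_pow hq n) h5
  exact_mod_cast h9

/-- `y = 1 mod t`. -/
theorem base_modEq {t q n x y : ℕ} (hq : q.Coprime (t * t.totient)) (hx : t ∣ x) (hn0 : 1 ≤ n)
    (h : y ^ q = rep x n) : (t : ℤ) ∣ y - 1 := by
  have hxz : (t : ℤ) ∣ (x : ℤ) := by exact_mod_cast hx
  have h6 : ((y : ℤ)) ^ q = ((rep x n : ℕ) : ℤ) := by exact_mod_cast h
  have h7 := rep_mul_int x n
  have h8 : (t : ℤ) ∣ (y : ℤ) ^ q - 1 := by
    have h9 : (y : ℤ) ^ q - 1 = ((rep x n : ℕ) : ℤ) * x - (x : ℤ) ^ n := by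
      rw [h6]
      linear_combination -h7
    rw [h9]
    exact dvd_sub (Dvd.dvd.mul_left hxz _) (hxz.trans (dvd_pow_self (x : ℤ) (by omega)))
  rcases Nat.eq_zero_or_pos t with rfl | ht
  · have hq1 : q = 1 := by simpa using hq
    subst hq1
    simpa using h8
  · by_cases hq0 : q = 0
    · subst hq0
      rw [Nat.coprime_zero_left] at hq
      have := Nat.eq_one_of_mul_eq_one_right hq
      subst this
      simp
    · exact dvd_sub_one ht.ne' hq0 (Nat.Coprime.coprime_mul_left_right hq) h8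

end Pool.Agent.NL
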