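import Pool.Agent.NL.Ent
import Pool.Agent.NL.Root
import Pool.Agent.NL.DetDvd
import Pool.Agent.NL.Expand

/-!
The interpolation determinant is divisible by a high power of t.

PLAN for det_dvd_mat. Let M = K L, g = L (L-1)/2, E = K^2 g. Take theta from exists_theta with
N = E + n. Put m_c = q (cs c) + cr c. Modulo t^N:
theta^(j(R-1)) * ent(i,j,r,s) = binom(m,i) * (theta^j)^m * ((y theta)^j)^(R-1-r)
because (1-x)^(s j) = theta^(q s j) and theta^(j(R-1)) = theta^(j r) theta^(j(R-1-r)) (r < R).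
So (prod of theta^(a.2 (R-1)) over the rows) * det mat = det M2 mod t^N (Matrix.det of congruent
matrices: e.g. map to ZMod (t^N)), with M2 = C * V, I = Fin Lam x Fin R (Lam > all m_c):
C (i,j) (l,k) = choose(l,i) (theta^j)^i (theta^j - 1)^(l-i) * ((y theta)^j - 1)^k,
V (l,k) c = choose(m_c, l) * choose(R-1-r_c, k)        (choose_mul_pow and pow_eq_sum).
w(l,k) = l + n k: t^(w - i) | C since t | theta^j - 1 and t^n | (y theta)^j - 1 (if l < i then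
choose(l,i) = 0). det_dvd and weight_sum (weights below M <= n are taken once: k = 0) with
B = M (M-1)/2; exponent_arith and sum_rows give t^E | det M2. Finally theta is prime to t
(t | theta - 1), so t^E | det mat.
-/

namespace Pool.Agent.NL

open Finset

theorem exponent_arith (K L : ℕ) (hK : 1 ≤ K) (hL : 1 ≤ L) :
    (K * L) * (K * L - 1) / 2 - L * (K * (K - 1) / 2) = K ^ 2 * (L * (L - 1) / 2) := by
  obtain ⟨k, rfl⟩ : ∃ k, K = k + 1 := ⟨K - 1, by omega⟩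
  obtain ⟨l, rfl⟩ : ∃ l, L = l + 1 := ⟨L - 1, by omega⟩
  rw [Nat.add_sub_cancel, Nat.add_sub_cancel]
  have h1 : 2 ∣ (k + 1) * k := (Nat.even_mul_pred_self (k + 1)).two_dvd
  have h2 : 2 ∣ (l + 1) * l := (Nat.even_mul_pred_self (l + 1)).two_dvd
  obtain ⟨a, ha⟩ := h1
  obtain ⟨b, hb⟩ := h2
  rw [ha, hb, Nat.mul_div_cancel_left a (by norm_num), Nat.mul_div_cancel_left b (by norm_num)]
  have h3 : (k + 1) * (l + 1) * ((k + 1) * (l + 1) - 1) = 2 * ((k + 1) ^ 2 * b + (l + 1) * a) := by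
    have h4 : (k + 1) * (l + 1) - 1 = (k + 1) * l + k := by
      have : (k + 1) * (l + 1) = (k + 1) * l + k + 1 := by ring
      omega
    rw [h4]
    calc (k + 1) * (l + 1) * ((k + 1) * l + k)
        = (k + 1) ^ 2 * ((l + 1) * l) + (l + 1) * ((k + 1) * k) := by ring
      _ = 2 * ((k + 1) ^ 2 * b + (l + 1) * a) := by rw [ha, hb]; ring
  rw [h3, Nat.mul_div_cancel_left _ (by norm_num), Nat.add_sub_cancel]

theorem sum_rows (K L : ℕ) : ∑ a : Fin K × Fin L, (a.1 : ℕ) = L * (K * (K - 1) / 2) := by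
  rw [Fintype.sum_prod_type]
  simp only [sum_const, card_univ, Fintype.card_fin, smul_eq_mul]
  rw [← mul_sum, Fin.sum_univ_eq_sum_range (fun i => i) K, sum_range_id]

/-- congruent matrices have congruent determinants -/
private theorem det_congr {ι : Type*} [Fintype ι] [DecidableEq ι] (m : ℕ) (A B : Matrix ι ι ℤ)
    (h : ∀ a c, (m : ℤ) ∣ A a c - B a c) : (m : ℤ) ∣ A.det - B.det := by
  rw [← ZMod.intCast_zmod_eq_zero_iff_dvd, Int.cast_sub]
  have h1 : ∀ M : Matrix ι ι ℤ, ((M.det : ℤ) : ZMod m) =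
      (M.map (Int.castRingHom (ZMod m))).det := fun M => by
    have h2 := RingHom.map_det (Int.castRingHom (ZMod m)) M
    exact h2
  rw [h1, h1, sub_eq_zero]
  congr 1
  ext a c
  rw [Matrix.map_apply, Matrix.map_apply]
  have h2 := (ZMod.intCast_zmod_eq_zero_iff_dvd (A a c - B a c) m).mpr (h a c)
  push_cast at h2
  exact sub_eq_zero.mp h2

private theorem pow_sub_one_dvd (t z : ℤ) (j : ℕ) (h : t ∣ z - 1) : t ∣ z ^ j - 1 := by
  have h1 := sub_dvd_pow_sub_pow z 1 j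
  rw [one_pow] at h1
  exact h.trans h1

/-- the identity behind the factorisation -/
private theorem row_id (θ y : ℤ) (i j m e : ℕ) (R Λ : ℕ) (hm : m < Λ) (he : e < R) :
    (m.choose i : ℤ) * (θ ^ j) ^ m * ((y * θ) ^ j) ^ e =
      ∑ σ : Fin Λ × Fin R, (((σ.1 : ℕ).choose i : ℤ) * (θ ^ j) ^ i * (θ ^ j - 1) ^ ((σ.1 : ℕ) - i) *
        ((y * θ) ^ j - 1) ^ (σ.2 : ℕ)) * ((m.choose (σ.1 : ℕ) : ℤ) * (e.choose (σ.2 : ℕ) : ℤ)) := by
  rw [choose_mul_pow (θ ^ j) i m Λ hm, pow_eq_sum ((y * θ) ^ j) e R he, sum_mul_sum,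
    Fintype.sum_prod_type,
    ← Fin.sum_univ_eq_sum_range (fun l => ∑ k ∈ range R, (l.choose i : ℤ) * (θ ^ j) ^ i *
      (θ ^ j - 1) ^ (l - i) * (m.choose l : ℤ) * (((y * θ) ^ j - 1) ^ k * (e.choose k : ℤ))) Λ]
  refine sum_congr rfl fun l _ => ?_
  rw [← Fin.sum_univ_eq_sum_range (fun k => ((l : ℕ).choose i : ℤ) * (θ ^ j) ^ i *
      (θ ^ j - 1) ^ ((l : ℕ) - i) * (m.choose (l : ℕ) : ℤ) *
      (((y * θ) ^ j - 1) ^ k * (e.choose k : ℤ))) R]
  refine sum_congr rfl fun k _ => ?_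
  ring

theorem det_dvd_mat {t q n x y K L R : ℕ} (ht : 1 < t) (hq : q.Coprime (t * t.totient))
    (hx : t ∣ x) (h : y ^ q = rep x n) (hM : K * L ≤ n) (hK : 1 ≤ K) (hL : 1 ≤ L)
    (cr cs : Fin K × Fin L → ℕ) (hcr : ∀ c, cr c < R) :
    (t : ℤ) ^ (K ^ 2 * (L * (L - 1) / 2)) ∣ (mat q K L R x y cr cs).det := by
  classical
  set E := K ^ 2 * (L * (L - 1) / 2) with hE
  have hn1 : 1 ≤ n := (Nat.one_le_iff_ne_zero.mpr (by positivity)).trans hM
  obtain ⟨θ, h1, h2, h3⟩ := exists_theta (N := E + n) ht hq hx (by omega) hn1 h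
  set Λ := ∑ c : Fin K × Fin L, (q * cs c + cr c) + 1 with hΛ
  have hΛ' : ∀ c, q * cs c + cr c < Λ := by
    intro c
    have := Finset.single_le_sum (f := fun c : Fin K × Fin L => q * cs c + cr c)
      (fun _ _ => Nat.zero_le _) (Finset.mem_univ c)
    omega
  let C : Matrix (Fin K × Fin L) (Fin Λ × Fin R) ℤ := Matrix.of fun a σ =>
    ((σ.1 : ℕ).choose (a.1 : ℕ) : ℤ) * (θ ^ (a.2 : ℕ)) ^ (a.1 : ℕ) *
      (θ ^ (a.2 : ℕ) - 1) ^ ((σ.1 : ℕ) - (a.1 : ℕ)) * ((y * θ) ^ (a.2 : ℕ) - 1) ^ (σ.2 : ℕ)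
  let V : Matrix (Fin Λ × Fin R) (Fin K × Fin L) ℤ := Matrix.of fun σ c =>
    ((q * cs c + cr c).choose (σ.1 : ℕ) : ℤ) * ((R - 1 - cr c).choose (σ.2 : ℕ) : ℤ)
  have hCV : ∀ a c, (C * V) a c = ((q * cs c + cr c).choose (a.1 : ℕ) : ℤ) *
      (θ ^ (a.2 : ℕ)) ^ (q * cs c + cr c) * ((y * θ) ^ (a.2 : ℕ)) ^ (R - 1 - cr c) := by
    intro a c
    rw [row_id θ y a.1 a.2 (q * cs c + cr c) (R - 1 - cr c) R Λ (hΛ' c)
      (by have := hcr c; omega), Matrix.mul_apply]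
    rfl
  -- divisibility of the product
  have hdvd : (t : ℤ) ^ E ∣ (C * V).det := by
    have h4 := det_dvd (t : ℤ) (fun σ : Fin Λ × Fin R => (σ.1 : ℕ) + n * (σ.2 : ℕ))
      (fun a : Fin K × Fin L => (a.1 : ℕ)) C V ?_ ((K * L) * (K * L - 1) / 2) ?_
    · rw [sum_rows, exponent_arith K L hK hL] at h4
      exact h4
    · intro a σ
      show (t : ℤ) ^ ((σ.1 : ℕ) + n * (σ.2 : ℕ) - (a.1 : ℕ)) ∣
        ((σ.1 : ℕ).choose (a.1 : ℕ) : ℤ) * (θ ^ (a.2 : ℕ)) ^ (a.1 : ℕ) *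
        (θ ^ (a.2 : ℕ) - 1) ^ ((σ.1 : ℕ) - (a.1 : ℕ)) * ((y * θ) ^ (a.2 : ℕ) - 1) ^ (σ.2 : ℕ)
      rcases lt_or_ge (σ.1 : ℕ) (a.1 : ℕ) with hlt | hge
      · rw [Nat.choose_eq_zero_of_lt hlt]
        simp
      · have e1 : (σ.1 : ℕ) + n * (σ.2 : ℕ) - (a.1 : ℕ) =
            ((σ.1 : ℕ) - (a.1 : ℕ)) + n * (σ.2 : ℕ) := by omega
        rw [e1, pow_add, pow_mul]
        refine mul_dvd_mul (Dvd.dvd.mul_left ?_ _) ?_
        · exact pow_dvd_pow_of_dvd (pow_sub_one_dvd _ _ _ h2) _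
        · exact pow_dvd_pow_of_dvd (pow_sub_one_dvd _ _ _ h3) _
    · intro f hf
      have h5 := weight_sum (ι := Fin K × Fin L)
        (fun σ : Fin Λ × Fin R => (σ.1 : ℕ) + n * (σ.2 : ℕ)) ?_ f hf
      · rw [Fintype.card_prod, Fintype.card_fin, Fintype.card_fin] at h5
        exact h5
      · intro σ τ hστ hlt
        rw [Fintype.card_prod, Fintype.card_fin, Fintype.card_fin] at hlt
        have hk : ∀ u v : ℕ, u + n * v < K * L → v = 0 := by
          intro u v huv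
          by_contra hv
          have : n * 1 ≤ n * v := Nat.mul_le_mul_left n (Nat.one_le_iff_ne_zero.mpr hv)
          omega
        have hs2 := hk _ _ hlt
        have ht2 := hk _ _ (hστ ▸ hlt)
        rw [hs2, ht2] at hστ
        ext
        · simpa using hστ
        · rw [hs2, ht2]
  -- the row scaling
  have hcong : ((t ^ E : ℕ) : ℤ) ∣
      (∏ a : Fin K × Fin L, θ ^ ((a.2 : ℕ) * (R - 1))) * (mat q K L R x y cr cs).det
        - (C * V).det := by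
    rw [← Matrix.det_mul_column]
    apply det_congr
    intro a c
    rw [hCV, Matrix.of_apply]
    show _ ∣ θ ^ ((a.2 : ℕ) * (R - 1)) * (((q * cs c + cr c).choose (a.1 : ℕ) : ℤ) *
      ((y : ℤ) ^ (R - 1 - cr c) * (1 - (x : ℤ)) ^ cs c) ^ (a.2 : ℕ)) - _
    have e1 : R - 1 = cr c + (R - 1 - cr c) := by have := hcr c; omega
    have e2 : θ ^ ((a.2 : ℕ) * (R - 1)) * (((q * cs c + cr c).choose (a.1 : ℕ) : ℤ) *
        ((y : ℤ) ^ (R - 1 - cr c) * (1 - (x : ℤ)) ^ cs c) ^ (a.2 : ℕ)) -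
        ((q * cs c + cr c).choose (a.1 : ℕ) : ℤ) *
          (θ ^ (a.2 : ℕ)) ^ (q * cs c + cr c) * ((y * θ) ^ (a.2 : ℕ)) ^ (R - 1 - cr c) =
        (((1 - (x : ℤ)) ^ (cs c * (a.2 : ℕ))) - (θ ^ q) ^ (cs c * (a.2 : ℕ))) *
          (((q * cs c + cr c).choose (a.1 : ℕ) : ℤ) * θ ^ ((a.2 : ℕ) * cr c) *
            (y * θ) ^ ((a.2 : ℕ) * (R - 1 - cr c))) := by
      set e := R - 1 - cr c with he
      rw [e1]
      rw [mul_pow ((y : ℤ) ^ e) _ (a.2 : ℕ), ← pow_mul, ← pow_mul, ← pow_mul, ← pow_mul,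
        ← pow_mul, mul_pow]
      ring
    rw [e2]
    refine Dvd.dvd.mul_right ?_ _
    have h6 : ((t ^ E : ℕ) : ℤ) ∣ (1 - (x : ℤ)) - θ ^ q := by
      have h7 : ((t ^ E : ℕ) : ℤ) ∣ (t : ℤ) ^ (E + n) := by
        push_cast
        exact pow_dvd_pow _ (by omega)
      have h8 := h7.trans h1
      rw [← dvd_neg, neg_sub] at h8
      exact h8
    exact h6.trans (sub_dvd_pow_sub_pow _ _ _)
  push_cast at hcong
  have h9 : (t : ℤ) ^ E ∣
      (∏ a : Fin K × Fin L, θ ^ ((a.2 : ℕ) * (R - 1))) * (mat q K L R x y cr cs).det := by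
    have h10 := dvd_add hcong hdvd
    rwa [sub_add_cancel] at h10
  refine IsCoprime.dvd_of_dvd_mul_left ?_ h9
  apply IsCoprime.pow_left
  apply IsCoprime.prod_right
  intro a _
  apply IsCoprime.pow_right
  obtain ⟨w, hw⟩ := h2
  exact ⟨-w, 1, by linarith⟩

end Pool.Agent.NL
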