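import Pool.Agent.NL.Defs

/-!
The entries of the interpolation determinant.
-/

namespace Pool.Agent.NL

open Finset

/-- Entry in row `(i, j)` and column `(r, s)`. -/
def ent (q R : ℕ) (x y : ℤ) (i j r s : ℕ) : ℤ :=
  ((q * s + r).choose i : ℤ) * (y ^ (R - 1 - r) * (1 - x) ^ s) ^ j

/-- The interpolation matrix for the columns `(cr c, cs c)`. -/
def mat (q K L R : ℕ) (x y : ℤ) (cr cs : Fin K × Fin L → ℕ) :
    Matrix (Fin K × Fin L) (Fin K × Fin L) ℤ :=
  Matrix.of fun a c => ent q R x y a.1 a.2 (cr c) (cs c)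

end Pool.Agent.NL
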