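import Pool.Agent.NL.PadeReal

/-!
Integer Pade approximations of (1 - 1/x)^(1/q).

PLAN. a N x = q^(2N) x^N PA(1/q, N)(1/x), b N x = q^(2N) x^N PA(-1/q, N)(1/x); integers by
PA_coeff_integral (coefficient k contributes q^(2N) c_k x^(N-k)): define a N x directly as
sum_(k <= N) m_k x^(N-k) with chosen integers m_k. |b| <= q^(2N) x^N 8^(N+1) sum 2^(-k) <=
C^(N+1) x^N; remainder_le with z = 1/x: q^(2N) x^N 2 (N+1) 8^(N+1) x^(-2N-1) <= C^(N+1)/x^(N+1) with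
C = 32 q^2 or so. Independence: pade_wronskian evaluated at z = 1/x is non-zero: choose(N + 1/q, N) and
choose(N - 1/q, N) are non-zero, nu = 1/q <> 0.
-/

namespace Pool.Agent.NL

open Finset

private theorem choose_ne_zero_NLPade (N : ℕ) (r : ℚ) (hr : -1 < r) :
    Ring.choose ((N : ℚ) + r) N ≠ 0 := by
  rw [Ring.choose_eq_smul, ← Polynomial.aeval_eq_smeval, ← Polynomial.eval_map_algebraMap,
    descPochhammer_map]
  have h : 0 < (descPochhammer ℚ N).eval ((N : ℚ) + r) := descPochhammer_pos (by linarith)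
  have hf : ((N.factorial : ℚ))⁻¹ ≠ 0 := inv_ne_zero (by exact_mod_cast N.factorial_ne_zero)
  exact smul_ne_zero hf h.ne'

private theorem PA_natDegree_NLPade (ν : ℚ) (N : ℕ) : (PA ν N).natDegree ≤ N := by
  unfold PA
  refine Polynomial.natDegree_sum_le_of_forall_le _ _ fun k hk => ?_
  exact (Polynomial.natDegree_monomial_le _).trans (Nat.le_of_lt_succ (mem_range.1 hk))

private theorem aeval_eq_NLPade (P : Polynomial ℚ) (N : ℕ) (hP : P.natDegree ≤ N) (z : ℝ) :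
    Polynomial.aeval z P = ∑ k ∈ range (N + 1), ((P.coeff k : ℚ) : ℝ) * z ^ k := by
  rw [Polynomial.aeval_eq_sum_range' (Nat.lt_succ_of_le hP)]
  refine sum_congr rfl fun k _ => ?_
  rw [Rat.smul_def]

private theorem exists_int_NLPade (q : ℕ) (hq : 2 ≤ q) (s : ℚ) (hs : s = 1 ∨ s = -1) :
    ∃ a : ℕ → ℕ → ℤ, (∀ N x : ℕ, 2 ≤ x →
      (a N x : ℝ) = (q : ℝ) ^ (2 * N) * (x : ℝ) ^ N *
        Polynomial.aeval (1 / (x : ℝ)) (PA (s / q) N)) ∧
      ∀ N x : ℕ, 2 ≤ x → |(a N x : ℝ)| ≤ (q : ℝ) ^ (2 * N) * 8 ^ (N + 1) * ((N : ℝ) + 1) *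
        (x : ℝ) ^ N := by
  choose m hm using fun N k => PA_coeff_integral q (by omega) s hs N k
  have hmR : ∀ N k, (m N k : ℝ) = (q : ℝ) ^ (2 * N) * (((PA (s / q) N).coeff k : ℚ) : ℝ) := by
    intro N k
    have := hm N k
    have h2 := congrArg (fun t : ℚ => (t : ℝ)) this
    push_cast at h2
    exact h2.symm
  refine ⟨fun N x => ∑ k ∈ range (N + 1), m N k * (x : ℤ) ^ (N - k), ?_, ?_⟩
  · intro N x hx
    have hx0 : (x : ℝ) ≠ 0 := by positivity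
    rw [aeval_eq_NLPade _ N (PA_natDegree_NLPade _ _)]
    push_cast
    rw [mul_sum]
    refine sum_congr rfl fun k hk => ?_
    have hk' : k ≤ N := Nat.le_of_lt_succ (mem_range.1 hk)
    rw [hmR]
    have : (x : ℝ) ^ N = (x : ℝ) ^ (N - k) * (x : ℝ) ^ k := by
      rw [← pow_add, Nat.sub_add_cancel hk']
    rw [this, one_div, inv_pow]
    field_simp
  · intro N x hx
    have hx1 : (1 : ℝ) ≤ x := by exact_mod_cast (by omega : 1 ≤ x)
    push_cast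
    refine (abs_sum_le_sum_abs _ _).trans ?_
    have hterm : ∀ k ∈ range (N + 1), |(m N k : ℝ) * (x : ℝ) ^ (N - k)| ≤
        (q : ℝ) ^ (2 * N) * 8 ^ (N + 1) * (x : ℝ) ^ N := by
      intro k hk
      rw [hmR, abs_mul, abs_mul, abs_of_nonneg (by positivity : (0 : ℝ) ≤ (q : ℝ) ^ (2 * N)),
        abs_of_nonneg (by positivity : (0 : ℝ) ≤ (x : ℝ) ^ (N - k))]
      have h1 : |(((PA (s / q) N).coeff k : ℚ) : ℝ)| ≤ 8 ^ (N + 1) := by
        exact_mod_cast PA_coeff_le q hq s hs N k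
      have h2 : (x : ℝ) ^ (N - k) ≤ (x : ℝ) ^ N := pow_le_pow_right₀ hx1 (Nat.sub_le _ _)
      gcongr
    refine (sum_le_sum hterm).trans ?_
    rw [sum_const, card_range, nsmul_eq_mul]
    push_cast
    apply le_of_eq
    ring

theorem pade_exists (q : ℕ) (hq : 2 ≤ q) : ∃ C : ℝ, 1 ≤ C ∧ ∃ a b : ℕ → ℕ → ℤ,
    (∀ N x : ℕ, 2 ≤ x → |(b N x : ℝ)| ≤ C ^ (N + 1) * (x : ℝ) ^ N ∧
      |(a N x : ℝ) - (1 - 1 / (x : ℝ)) ^ ((1 : ℝ) / q) * (b N x : ℝ)| ≤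
        C ^ (N + 1) / (x : ℝ) ^ (N + 1)) ∧
    ∀ N x : ℕ, 2 ≤ x → a N x * b (N + 1) x ≠ a (N + 1) x * b N x := by
  obtain ⟨a, ha, -⟩ := exists_int_NLPade q hq 1 (Or.inl rfl)
  obtain ⟨b, hb, hb'⟩ := exists_int_NLPade q hq (-1) (Or.inr rfl)
  have hneg : ((-1 : ℚ) / q) = -((1 : ℚ) / q) := by ring
  rw [hneg] at hb
  have hq1 : (1 : ℝ) ≤ q := by exact_mod_cast (by omega : 1 ≤ q)
  have hq2 : (1 : ℝ) ≤ (q : ℝ) ^ 2 := one_le_pow₀ hq1
  have hqpow : ∀ N : ℕ, (q : ℝ) ^ (2 * N) * 8 ^ (N + 1) * (2 : ℝ) ^ (N + 1) ≤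
      (16 * (q : ℝ) ^ 2) ^ (N + 1) := by
    intro N
    rw [mul_pow, ← pow_mul, show (16 : ℝ) = 8 * 2 by norm_num, mul_pow]
    have : (q : ℝ) ^ (2 * N) ≤ (q : ℝ) ^ (2 * (N + 1)) := pow_le_pow_right₀ hq1 (by omega)
    calc (q : ℝ) ^ (2 * N) * 8 ^ (N + 1) * (2 : ℝ) ^ (N + 1)
        ≤ (q : ℝ) ^ (2 * (N + 1)) * 8 ^ (N + 1) * (2 : ℝ) ^ (N + 1) := by gcongr
      _ = 8 ^ (N + 1) * 2 ^ (N + 1) * (q : ℝ) ^ (2 * (N + 1)) := by ring
  have hN2 : ∀ N : ℕ, ((N : ℝ) + 1) ≤ 2 ^ N := by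
    intro N
    exact_mod_cast Nat.lt_two_pow_self
  refine ⟨16 * (q : ℝ) ^ 2, by nlinarith, a, b, ?_, ?_⟩
  · intro N x hx
    have hx0 : (0 : ℝ) < x := by positivity
    constructor
    · refine (hb' N x hx).trans ?_
      have h1 : ((N : ℝ) + 1) ≤ 2 ^ (N + 1) :=
        (hN2 N).trans (pow_le_pow_right₀ (by norm_num) (Nat.le_succ _))
      calc (q : ℝ) ^ (2 * N) * 8 ^ (N + 1) * ((N : ℝ) + 1) * (x : ℝ) ^ N
          ≤ (q : ℝ) ^ (2 * N) * 8 ^ (N + 1) * (2 : ℝ) ^ (N + 1) * (x : ℝ) ^ N := by gcongr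
        _ ≤ (16 * (q : ℝ) ^ 2) ^ (N + 1) * (x : ℝ) ^ N := by
            gcongr
            exact hqpow N
    · rw [ha N x hx, hb N x hx]
      have hz : (0 : ℝ) < 1 / (x : ℝ) := by positivity
      have hz2 : (1 : ℝ) / x ≤ 1 / 2 := by
        apply one_div_le_one_div_of_le (by norm_num)
        exact_mod_cast hx
      have hrem := remainder_le q hq N (1 / (x : ℝ)) hz hz2
      have heq : (q : ℝ) ^ (2 * N) * (x : ℝ) ^ N *
            Polynomial.aeval (1 / (x : ℝ)) (PA ((1 : ℚ) / q) N) -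
          (1 - 1 / (x : ℝ)) ^ ((1 : ℝ) / q) * ((q : ℝ) ^ (2 * N) * (x : ℝ) ^ N *
            Polynomial.aeval (1 / (x : ℝ)) (PA (-((1 : ℚ) / q)) N)) =
          (q : ℝ) ^ (2 * N) * (x : ℝ) ^ N *
          (Polynomial.aeval (1 / (x : ℝ)) (PA ((1 : ℚ) / q) N) -
          (1 - 1 / (x : ℝ)) ^ ((1 : ℝ) / q) *
            Polynomial.aeval (1 / (x : ℝ)) (PA (-((1 : ℚ) / q)) N)) := by ring
      rw [heq, abs_mul, abs_of_nonneg (by positivity : (0 : ℝ) ≤ (q : ℝ) ^ (2 * N) * (x : ℝ) ^ N)]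
      have h1 : 2 * ((N : ℝ) + 1) ≤ 2 ^ (N + 1) := by
        have := hN2 N
        rw [pow_succ]
        linarith
      calc (q : ℝ) ^ (2 * N) * (x : ℝ) ^ N * |Polynomial.aeval (1 / (x : ℝ)) (PA ((1 : ℚ) / q) N) -
            (1 - 1 / (x : ℝ)) ^ ((1 : ℝ) / q) *
            Polynomial.aeval (1 / (x : ℝ)) (PA (-((1 : ℚ) / q)) N)|
          ≤ (q : ℝ) ^ (2 * N) * (x : ℝ) ^ N *
            (2 * (N + 1) * 8 ^ (N + 1) * (1 / (x : ℝ)) ^ (2 * N + 1)) := by gcongr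
        _ = (q : ℝ) ^ (2 * N) * 8 ^ (N + 1) * (2 * ((N : ℝ) + 1)) / (x : ℝ) ^ (N + 1) := by
            rw [one_div, inv_pow, show 2 * N + 1 = N + (N + 1) by ring, pow_add (x : ℝ) N (N + 1)]
            field_simp
        _ ≤ (q : ℝ) ^ (2 * N) * 8 ^ (N + 1) * 2 ^ (N + 1) / (x : ℝ) ^ (N + 1) := by gcongr
        _ ≤ (16 * (q : ℝ) ^ 2) ^ (N + 1) / (x : ℝ) ^ (N + 1) := by
            gcongr
            exact hqpow N
  · intro N x hx hcon
    have hx0 : (x : ℝ) ≠ 0 := by positivity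
    have hcR : (a N x : ℝ) * (b (N + 1) x : ℝ) = (a (N + 1) x : ℝ) * (b N x : ℝ) := by
      exact_mod_cast hcon
    rw [ha N x hx, hb (N + 1) x hx, ha (N + 1) x hx, hb N x hx] at hcR
    have hw := congrArg (Polynomial.aeval (1 / (x : ℝ))) (pade_wronskian ((1 : ℚ) / q) N)
    rw [map_sub, map_mul, map_mul, Polynomial.aeval_monomial] at hw
    have hq0 : (q : ℝ) ≠ 0 := by positivity
    have hpos : (q : ℝ) ^ (2 * N) * (x : ℝ) ^ N * ((q : ℝ) ^ (2 * (N + 1)) * (x : ℝ) ^ (N + 1)) ≠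
        0 := by positivity
    have hzero : Polynomial.aeval (1 / (x : ℝ)) (PA ((1 : ℚ) / q) N) *
          Polynomial.aeval (1 / (x : ℝ)) (PA (-((1 : ℚ) / q)) (N + 1)) -
        Polynomial.aeval (1 / (x : ℝ)) (PA ((1 : ℚ) / q) (N + 1)) *
          Polynomial.aeval (1 / (x : ℝ)) (PA (-((1 : ℚ) / q)) N) = 0 := by
      apply mul_left_cancel₀ hpos
      rw [mul_zero]
      linear_combination hcR
    rw [hzero] at hw
    have hq1' : (0 : ℚ) < (1 : ℚ) / q := by positivity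
    have hq2' : (1 : ℚ) / q < 1 := by
      rw [div_lt_one (by positivity)]
      exact_mod_cast (by omega : 1 < q)
    have hc1 := choose_ne_zero_NLPade N ((1 : ℚ) / q) (by linarith)
    have hc2 : Ring.choose ((N : ℚ) - (1 : ℚ) / q) N ≠ 0 := by
      rw [sub_eq_add_neg]
      exact choose_ne_zero_NLPade N (-((1 : ℚ) / q)) (by linarith)
    have hne : (-(Ring.choose ((N : ℚ) + (1 : ℚ) / q) N * Ring.choose ((N : ℚ) - (1 : ℚ) / q) N *
        (-2 * ((1 : ℚ) / q) / (N + 1)))) ≠ 0 := by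
      refine neg_ne_zero.2 (mul_ne_zero (mul_ne_zero hc1 hc2) ?_)
      refine div_ne_zero ?_ (by positivity)
      exact mul_ne_zero (by norm_num) hq1'.ne'
    have hne' : (algebraMap ℚ ℝ) (-(Ring.choose ((N : ℚ) + (1 : ℚ) / q) N *
        Ring.choose ((N : ℚ) - (1 : ℚ) / q) N * (-2 * ((1 : ℚ) / q) / (N + 1)))) ≠ 0 := by
      intro h
      exact hne ((map_eq_zero _).1 h)
    exact (mul_ne_zero hne' (pow_ne_zero _ (by positivity))) hw.symm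

end Pool.Agent.NL
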