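import Pool.Agent.NL.Defs
import Pool.Agent.NL.Pade

/-!
Fixed odd exponent q, n = 1 mod q: only finitely many bases (Pade approximants of (1 - z)^(1/q)).

PLAN. C from pade_exists, WLOG C >= 4; x0 with x0 >= C^20. Let x >= x0, n = q k + 1, k >= 1, y^q = rep x n.
g = (1 - 1/x)^(1/q): (y g)^q = y^q (x-1)/x = (x^n - 1)/x = x^(q k) (1 - x^(-n)), so
x^k (1 - x^(-n)) <= y g <= x^k, |y g - x^k| <= x^k/x^n, y <= 2 x^k. Let Delta_N = a_N y - b_N x^k =
y (a_N - g b_N) + b_N (y g - x^k): |Delta_N| <= 2 C^(N+1) x^k/x^(N+1) + C^(N+1) x^(N+k)/x^n. With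
j = k/4 (floor), N0 = k + j, both N = N0 and N = N0 + 1 give |Delta_N| < 1 (x^(j+1) > 4 C^(k+j+1) since
20 (j+1) > 1.25 k + 2, and x^(k-j) > 2 C^(k+j+2), n - k - N0 - 1 = (q-2) k - j >= k - j), so
Delta_(N0) = Delta_(N0+1) = 0 and a_N b_(N+1) = a_(N+1) b_N (x^k, y <> 0), contradiction.
-/

namespace Pool.Agent.NL

open Finset

/-- The real estimate for one index `N`. -/
private theorem delta_zero {q k N : ℕ} {C : ℝ} (hq : 3 ≤ q) (hk : 1 ≤ k) (hC : 4 ≤ C) {x y : ℕ}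
    (hx : 2 ≤ x) (hxC : C ^ 20 ≤ (x : ℝ)) (h : y ^ q = rep x (q * k + 1))
    (hN1 : N + 2 < 20 * (N + 1 - k)) (hkN : k ≤ N) (hN2 : N ≤ 2 * k + 1)
    (hN3 : N + 2 < 20 * (2 * k + 1 - N)) {a b : ℤ}
    (hb : |(b : ℝ)| ≤ C ^ (N + 1) * (x : ℝ) ^ N)
    (hab : |(a : ℝ) - (1 - 1 / (x : ℝ)) ^ ((1 : ℝ) / q) * (b : ℝ)| ≤
        C ^ (N + 1) / (x : ℝ) ^ (N + 1)) : a * y = b * (x : ℤ) ^ k := by
  have hX2 : (2 : ℝ) ≤ x := by exact_mod_cast hx
  have hX0 : (0 : ℝ) < x := by linarith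
  have hC0 : (0 : ℝ) < C := by linarith
  have hC1 : (1 : ℝ) < C := by linarith
  have hq0 : q ≠ 0 := by omega
  set n := q * k + 1 with hn
  set X : ℝ := (x : ℝ) with hXdef
  set g : ℝ := (1 - 1 / X) ^ ((1 : ℝ) / q) with hg
  have h1X : 1 / X ≤ 1 / 2 := one_div_le_one_div_of_le (by norm_num) hX2
  have hbase : 0 ≤ 1 - 1 / X := by linarith
  have hg0 : 0 ≤ g := Real.rpow_nonneg hbase _
  have hgq : g ^ q = 1 - 1 / X := by
    have h1 : (1 : ℝ) / q = (q : ℝ)⁻¹ := one_div _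
    rw [hg, h1, Real.rpow_inv_natCast_pow hbase hq0]
  have hY0 : (0 : ℝ) ≤ y := Nat.cast_nonneg y
  have hrep : (y : ℝ) ^ q * (X - 1) = X ^ n - 1 := by
    have h1 := rep_mul_int x n
    rw [← h] at h1
    have h2 : (((y ^ q : ℕ) : ℤ) : ℝ) * (((x : ℤ) : ℝ) - 1) = ((x : ℤ) : ℝ) ^ n - 1 := by
      exact_mod_cast h1
    push_cast at h2
    exact h2
  have hXn0 : 0 < X ^ n := by positivity
  have hXk0 : 0 < X ^ k := by positivity
  have hXn1 : 1 ≤ X ^ n := one_le_pow₀ (by linarith)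
  have hprod : ((y : ℝ) * g) ^ q = (X ^ k) ^ q * (1 - 1 / X ^ n) := by
    rw [mul_pow, hgq]
    have h1 : (X ^ k) ^ q * X = X ^ n := by
      rw [← pow_mul, hn, pow_succ, mul_comm k q]
    have h2 : (y : ℝ) ^ q * (1 - 1 / X) = (y : ℝ) ^ q * (X - 1) / X := by
      field_simp
    rw [h2, hrep, ← h1]
    have h3 : (X ^ k) ^ q ≠ 0 := by positivity
    field_simp
  have hinv0 : 0 < 1 / X ^ n := by positivity
  have hinv1 : 1 / X ^ n ≤ 1 := by
    rw [div_le_one hXn0]; exact hXn1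
  have hup : (y : ℝ) * g ≤ X ^ k := by
    have h1 : ((y : ℝ) * g) ^ q ≤ (X ^ k) ^ q := by
      rw [hprod]
      have : 0 ≤ (X ^ k) ^ q := by positivity
      nlinarith
    exact le_of_pow_le_pow_left₀ hq0 hXk0.le h1
  have hlow : X ^ k * (1 - 1 / X ^ n) ≤ (y : ℝ) * g := by
    have h1 : (X ^ k * (1 - 1 / X ^ n)) ^ q ≤ ((y : ℝ) * g) ^ q := by
      rw [hprod, mul_pow]
      have h2 : (1 - 1 / X ^ n) ^ q ≤ 1 - 1 / X ^ n :=
        pow_le_of_le_one (by linarith) (by linarith) hq0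
      exact mul_le_mul_of_nonneg_left h2 (by positivity)
    exact le_of_pow_le_pow_left₀ hq0 (mul_nonneg hY0 hg0) h1
  have hdiff : |(y : ℝ) * g - X ^ k| ≤ X ^ k / X ^ n := by
    rw [abs_le]
    have h1 : X ^ k * (1 - 1 / X ^ n) = X ^ k - X ^ k / X ^ n := by ring
    have h2 : 0 ≤ X ^ k / X ^ n := by positivity
    constructor <;> linarith
  have hghalf : 1 / 2 ≤ g := by
    have h1 : (1 / 2 : ℝ) ^ q ≤ g ^ q := by
      rw [hgq]
      have h2 : (1 / 2 : ℝ) ^ q ≤ 1 / 2 := pow_le_of_le_one (by norm_num) (by norm_num) hq0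
      linarith
    exact le_of_pow_le_pow_left₀ hq0 hg0 h1
  have hy2 : (y : ℝ) ≤ 2 * X ^ k := by nlinarith
  -- the two estimates
  have hA : 4 * C ^ (N + 1) * X ^ k < X ^ (N + 1) := by
    have h1 : X ^ (N + 1) = X ^ k * X ^ (N + 1 - k) := by
      rw [← pow_add]; congr 1; omega
    have h2 : (C ^ 20) ^ (N + 1 - k) ≤ X ^ (N + 1 - k) := pow_le_pow_left₀ (by positivity) hxC _
    have h3 : C ^ (N + 2) < (C ^ 20) ^ (N + 1 - k) := by
      rw [← pow_mul]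
      exact pow_lt_pow_right₀ hC1 hN1
    have h4 : 4 * C ^ (N + 1) ≤ C ^ (N + 2) := by
      rw [pow_succ C (N + 1), mul_comm]
      exact mul_le_mul_of_nonneg_left hC (by positivity)
    rw [h1, mul_comm (X ^ k)]
    exact mul_lt_mul_of_pos_right (by linarith) hXk0
  have hB : 2 * C ^ (N + 1) * X ^ (N + k) < X ^ n := by
    have h0 : N + k + (2 * k + 1 - N) ≤ n := by
      rw [hn]
      have : 3 * k ≤ q * k := Nat.mul_le_mul_right _ hq
      omega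
    have h1 : X ^ (N + k) * X ^ (2 * k + 1 - N) ≤ X ^ n := by
      rw [← pow_add]
      exact pow_le_pow_right₀ (by linarith) h0
    have h2 : (C ^ 20) ^ (2 * k + 1 - N) ≤ X ^ (2 * k + 1 - N) :=
      pow_le_pow_left₀ (by positivity) hxC _
    have h3 : C ^ (N + 2) < (C ^ 20) ^ (2 * k + 1 - N) := by
      rw [← pow_mul]
      exact pow_lt_pow_right₀ hC1 hN3
    have h4 : 2 * C ^ (N + 1) ≤ C ^ (N + 2) := by
      rw [pow_succ C (N + 1), mul_comm]
      exact mul_le_mul_of_nonneg_left (by linarith) (by positivity)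
    have h5 : (0 : ℝ) < X ^ (N + k) := by positivity
    calc 2 * C ^ (N + 1) * X ^ (N + k) < X ^ (2 * k + 1 - N) * X ^ (N + k) :=
          mul_lt_mul_of_pos_right (by linarith) h5
      _ = X ^ (N + k) * X ^ (2 * k + 1 - N) := mul_comm _ _
      _ ≤ X ^ n := h1
  have hT1 : |(y : ℝ) * ((a : ℝ) - g * b)| < 1 / 2 := by
    rw [abs_mul, abs_of_nonneg hY0]
    have h1 : (y : ℝ) * |(a : ℝ) - g * b| ≤ 2 * X ^ k * (C ^ (N + 1) / X ^ (N + 1)) :=
      mul_le_mul hy2 hab (abs_nonneg _) (by positivity)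
    have h2 : 2 * X ^ k * (C ^ (N + 1) / X ^ (N + 1)) = (2 * C ^ (N + 1) * X ^ k) / X ^ (N + 1) := by
      ring
    have h3 : (2 * C ^ (N + 1) * X ^ k) / X ^ (N + 1) < 1 / 2 := by
      rw [div_lt_iff₀ (by positivity)]
      linarith
    linarith
  have hT2 : |(b : ℝ) * ((y : ℝ) * g - X ^ k)| < 1 / 2 := by
    rw [abs_mul]
    have h1 : |(b : ℝ)| * |(y : ℝ) * g - X ^ k| ≤ (C ^ (N + 1) * X ^ N) * (X ^ k / X ^ n) :=
      mul_le_mul hb hdiff (abs_nonneg _) (by positivity)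
    have h2 : (C ^ (N + 1) * X ^ N) * (X ^ k / X ^ n) = (C ^ (N + 1) * X ^ (N + k)) / X ^ n := by
      rw [pow_add]; ring
    have h3 : (C ^ (N + 1) * X ^ (N + k)) / X ^ n < 1 / 2 := by
      rw [div_lt_iff₀ (by positivity)]
      linarith
    linarith
  have hD : |((a * y - b * (x : ℤ) ^ k : ℤ) : ℝ)| < 1 := by
    push_cast
    have h1 : (a : ℝ) * y - b * (x : ℝ) ^ k =
        (y : ℝ) * ((a : ℝ) - g * b) + (b : ℝ) * ((y : ℝ) * g - X ^ k) := by
      rw [hXdef]; ring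
    rw [h1]
    have h2 := abs_add_le ((y : ℝ) * ((a : ℝ) - g * b)) ((b : ℝ) * ((y : ℝ) * g - X ^ k))
    linarith
  have hD2 : |a * y - b * (x : ℤ) ^ k| < 1 := by exact_mod_cast hD
  have hD3 := Int.abs_lt_one_iff.1 hD2
  linarith

theorem fixed_one {q : ℕ} (hq : 3 ≤ q) : ∃ x₀ : ℕ, ∀ x y n : ℕ, x₀ ≤ x → 1 < n → n % q = 1 →
    y ^ q ≠ rep x n := by
  obtain ⟨C, hC1, a, b, hab, hind⟩ := pade_exists q (by omega)
  set D : ℝ := max C 4 with hD
  have hCD : C ≤ D := le_max_left _ _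
  have hD4 : 4 ≤ D := le_max_right _ _
  refine ⟨max 2 ⌈D ^ 20⌉₊, fun x y n hx hn hnq h => ?_⟩
  have hx2 : 2 ≤ x := (le_max_left _ _).trans hx
  have hxD : D ^ 20 ≤ (x : ℝ) := by
    have h1 : ⌈D ^ 20⌉₊ ≤ x := (le_max_right _ _).trans hx
    exact (Nat.le_ceil _).trans (by exact_mod_cast h1)
  obtain ⟨k, rfl⟩ : ∃ k, n = q * k + 1 := ⟨n / q, by
    have := Nat.div_add_mod n q
    rw [hnq] at this
    exact this.symm⟩
  have hk : 1 ≤ k := by
    rcases Nat.eq_zero_or_pos k with h0 | h0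
    · rw [h0] at hn; simp at hn
    · exact h0
  have hpow : ∀ N : ℕ, C ^ (N + 1) ≤ D ^ (N + 1) := fun N =>
    pow_le_pow_left₀ (by linarith) hCD _
  have hb : ∀ N : ℕ, |(b N x : ℝ)| ≤ D ^ (N + 1) * (x : ℝ) ^ N := fun N =>
    ((hab N x hx2).1).trans (mul_le_mul_of_nonneg_right (hpow N) (by positivity))
  have ha : ∀ N : ℕ, |(a N x : ℝ) - (1 - 1 / (x : ℝ)) ^ ((1 : ℝ) / q) * (b N x : ℝ)| ≤
      D ^ (N + 1) / (x : ℝ) ^ (N + 1) := fun N =>
    ((hab N x hx2).2).trans (div_le_div_of_nonneg_right (hpow N) (by positivity))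
  have hj : 4 * (k / 4) ≤ k ∧ k < 4 * (k / 4) + 4 := by omega
  have e0 := delta_zero (N := k + k / 4) hq hk hD4 hx2 hxD h (by omega) (by omega) (by omega)
    (by omega) (hb _) (ha _)
  have e1 := delta_zero (N := k + k / 4 + 1) hq hk hD4 hx2 hxD h (by omega) (by omega) (by omega)
    (by omega) (hb _) (ha _)
  have hy : (y : ℤ) ≠ 0 := by
    intro h0
    have h1 : y = 0 := by exact_mod_cast h0
    have h2 := rep_pos (x := x) (n := q * k + 1) (by omega)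
    rw [← h, h1, zero_pow (by omega)] at h2
    exact lt_irrefl _ h2
  apply hind (k + k / 4) x hx2
  have h3 : (y : ℤ) * (a (k + k / 4) x * b (k + k / 4 + 1) x) =
      y * (a (k + k / 4 + 1) x * b (k + k / 4) x) := by
    linear_combination (b (k + k / 4 + 1) x) * e0 - (b (k + k / 4) x) * e1
  exact mul_left_cancel₀ hy h3

end Pool.Agent.NL
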