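import Pool.Agent.NL.Defs

/-!
Reduction of the case q | n.

PLAN. If q does not divide n: second alternative. Let q | n, n >= 3, P = largest prime factor of n (P >= q).
(1) P = q. For a prime l <> q dividing rep x q: l | x^q - 1, x <> 1 mod l (else rep x q = q mod l), so x
has order q mod l, l = 1 mod q, l > q >= all prime factors of n. rep x n = rep x q * rep (x^q) (n/q)
(rep_mul_eq) and rep (x^q) (n/q) = n/q mod l is not 0 mod l, so v_l(rep x q) = v_l(rep x n) = 0 mod q.
v_q(rep x q) <= 1 for q odd (if q | x - 1: rep x q = q mod q^2 (q odd); else q does not divide it).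
q = 2: v_2(x+1) is arbitrary, put e = v_2 mod 2. In general: v_l = 0 mod q for all l <> q, so
rep x q = q^(v mod q) * w^q; e = v_q mod q and for q odd v_q <= 1.
(2) P > q (P odd, P >= 3). If P does not divide x - 1, n' = P: a prime l | rep x P is <> P, = 1 mod P, so
l > P, v_l(rep x P) = v_l(rep x n) = 0 mod q as before: rep x P is a q-th power. If P | x - 1:
v_P(rep x n) = v_P(n) (lifting the exponent, padicValNat.pow_sub_pow), so q | v_P(n), P^q | n; n' = P^q:
the primes l <> P dividing rep x (P^q) are = 1 mod P, > P, so v_l(rep x (P^q)) = v_l(rep x n) = 0 mod q,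
and v_P(rep x (P^q)) = q. So rep x (P^q) is a q-th power. n' > 2, n' % q <> 0 and the root is > 1.
A natural number m > 0 with q | m.factorization l for all l is a q-th power (Nat.eq_pow_of_... or
product formula).
-/

namespace Pool.Agent.NL

open Finset

private theorem rd_isPow {m q : ℕ} (hm : m ≠ 0) (h : ∀ p, q ∣ m.factorization p) :
    ∃ w, m = w ^ q := by
  refine ⟨m.factorization.prod fun p k => p ^ (k / q), ?_⟩
  conv_lhs => rw [← Nat.prod_factorization_pow_eq_self hm]
  unfold Finsupp.prod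
  rw [← Finset.prod_pow]
  refine Finset.prod_congr rfl fun p _ => ?_
  rw [← pow_mul, Nat.div_mul_cancel (h p)]

private theorem rd_cast_one {l x : ℕ} (h : (x : ZMod l) = 1) (n : ℕ) :
    ((rep x n : ℕ) : ZMod l) = n := by
  unfold rep
  push_cast
  rw [h]
  simp

private theorem rd_not_dvd_rep {P x : ℕ} (hP : P.Prime) (hx : 1 < x) (h : ¬ P ∣ x - 1) (k : ℕ) :
    ¬ P ∣ rep x (P ^ k) := by
  have : Fact P.Prime := ⟨hP⟩
  intro hd
  have h1 : ((rep x (P ^ k) : ℕ) : ZMod P) = 0 := (ZMod.natCast_eq_zero_iff _ _).2 hd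
  have h2 := rep_mul (by omega : 1 ≤ x) (P ^ k)
  have h3 := congrArg (Nat.cast (R := ZMod P)) h2
  push_cast at h3
  rw [h1, ZMod.pow_card_pow, Nat.cast_sub (by omega : 1 ≤ x)] at h3
  apply h
  rw [← ZMod.natCast_eq_zero_iff, Nat.cast_sub (by omega : 1 ≤ x)]
  push_cast at h3 ⊢
  rw [← h3]
  ring

/-- a prime `l <> P` dividing `rep x (P^k)` is larger than `P`, and has the same valuation in
`rep x n` -/
private theorem rd_val {P x k m l : ℕ} (hP : P.Prime) (hx : 1 < x) (hm : m ≠ 0)
    (hmax : ∀ r, r.Prime → r ∣ P ^ k * m → r ≤ P) (hl : l.Prime) (hlP : l ≠ P)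
    (hd : l ∣ rep x (P ^ k)) :
    (rep x (P ^ k * m)).factorization l = (rep x (P ^ k)).factorization l := by
  have : Fact l.Prime := ⟨hl⟩
  have hN : 1 ≤ P ^ k := Nat.one_le_iff_ne_zero.2 (pow_ne_zero _ hP.ne_zero)
  have h1 : ((rep x (P ^ k) : ℕ) : ZMod l) = 0 := (ZMod.natCast_eq_zero_iff _ _).2 hd
  have h2 := rep_mul (by omega : 1 ≤ x) (P ^ k)
  have h3 := congrArg (Nat.cast (R := ZMod l)) h2
  push_cast at h3
  rw [h1, zero_mul, zero_add] at h3
  have hx1 : (x : ZMod l) ≠ 1 := by
    intro h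
    rw [rd_cast_one h, ZMod.natCast_eq_zero_iff] at h1
    exact hlP ((Nat.prime_dvd_prime_iff_eq hl hP).1 (hl.dvd_of_dvd_pow h1))
  have hx0 : (x : ZMod l) ≠ 0 := by
    intro h
    rw [h, zero_pow (by omega)] at h3
    exact one_ne_zero h3
  have ho : orderOf (x : ZMod l) ∣ P ^ k := orderOf_dvd_of_pow_eq_one h3.symm
  obtain ⟨j, hj, hoj⟩ := (Nat.dvd_prime_pow hP).1 ho
  have hj0 : j ≠ 0 := by
    intro h
    rw [h, pow_zero, orderOf_eq_one_iff] at hoj
    exact hx1 hoj
  have hPo : P ∣ orderOf (x : ZMod l) := by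
    rw [hoj]
    exact dvd_pow_self P hj0
  have hPl : P ∣ l - 1 := hPo.trans (ZMod.orderOf_dvd_card_sub_one hx0)
  have hlt : P < l := by
    have h4 := Nat.le_of_dvd (by have := hl.two_le; omega) hPl
    have := hl.two_le
    omega
  have hlm : ¬ l ∣ m := by
    intro h
    have := hmax l hl (h.mul_left _)
    omega
  have hr : ¬ l ∣ rep (x ^ P ^ k) m := by
    intro h
    have h5 : ((x ^ P ^ k : ℕ) : ZMod l) = 1 := by
      push_cast
      exact h3.symm
    have h6 := (ZMod.natCast_eq_zero_iff _ _).2 h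
    rw [rd_cast_one h5, ZMod.natCast_eq_zero_iff] at h6
    exact hlm h6
  rw [rep_mul_eq, Nat.factorization_mul (rep_pos hN).ne'
    (rep_pos (Nat.one_le_iff_ne_zero.2 hm)).ne', Finsupp.add_apply,
    Nat.factorization_eq_zero_of_not_dvd hr, add_zero]

/-- lifting the exponent -/
private theorem rd_lte {P x n : ℕ} (hP : P.Prime) (hP2 : P ≠ 2) (hx : 1 < x) (h : P ∣ x - 1)
    (hn : n ≠ 0) : (rep x n).factorization P = n.factorization P := by
  have : Fact P.Prime := ⟨hP⟩
  have hxP : ¬ P ∣ x := by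
    intro hd
    have h1 : P ∣ x - (x - 1) := Nat.dvd_sub hd h
    have h2 : x - (x - 1) = 1 := by omega
    rw [h2] at h1
    exact hP.one_lt.ne' (Nat.dvd_one.1 h1)
  have h1 := padicValNat.pow_sub_pow (p := P) (hP.odd_of_ne_two hP2) hx h hxP hn
  rw [one_pow] at h1
  have h2 := rep_mul (by omega : 1 ≤ x) n
  have h3 : x ^ n - 1 = rep x n * (x - 1) := by omega
  rw [h3, padicValNat.mul (rep_pos (Nat.one_le_iff_ne_zero.2 hn)).ne' (by omega)] at h1
  rw [Nat.factorization_def _ hP, Nat.factorization_def _ hP]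
  omega

private theorem rd_one_lt {x N : ℕ} (hx : 1 < x) (hN : 1 < N) : 1 < rep x N := by
  have h2 := rep_mul (by omega : 1 ≤ x) N
  by_contra h
  have h1 : 0 < rep x N := rep_pos (by omega)
  have h3 : rep x N = 1 := by omega
  rw [h3, one_mul] at h2
  have h4 : x ^ 1 < x ^ N := Nat.pow_lt_pow_right hx hN
  rw [pow_one] at h4
  omega

/-- A solution with prime exponent `q` gives either `rep x q = q ^ e * w ^ q`, or a solution with
`n` prime to `q`. -/
theorem reduce {q x : ℕ} (hq : q.Prime) (h : Base q x) :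
    (1 < x ∧ ∃ e w : ℕ, e ≤ 1 ∧ rep x q = q ^ e * w ^ q) ∨
    (∃ y n : ℕ, 1 < x ∧ 1 < y ∧ 2 < n ∧ n % q ≠ 0 ∧ y ^ q = rep x n) := by
  obtain ⟨y, n, hx, hy, hn, hyn⟩ := h
  by_cases hqn : n % q ≠ 0
  · exact Or.inr ⟨y, n, hx, hy, hn, hqn, hyn⟩
  have hqd : q ∣ n := Nat.dvd_of_mod_eq_zero (not_not.1 hqn)
  have hn0 : n ≠ 0 := by omega
  -- the valuations of `rep x n`
  have hv : ∀ l, q ∣ (rep x n).factorization l := by
    intro l
    rw [← hyn, Nat.factorization_pow, Finsupp.smul_apply, smul_eq_mul]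
    exact dvd_mul_right _ _
  -- the largest prime factor
  obtain ⟨P, hPm, hPmax⟩ := Finset.exists_max_image n.primeFactors id
    ⟨q, Nat.mem_primeFactors.2 ⟨hq, hqd, hn0⟩⟩
  have hP : P.Prime := Nat.prime_of_mem_primeFactors hPm
  have hPn : P ∣ n := Nat.dvd_of_mem_primeFactors hPm
  have hmax : ∀ r, r.Prime → r ∣ n → r ≤ P := fun r hr hrn =>
    hPmax r (Nat.mem_primeFactors.2 ⟨hr, hrn, hn0⟩)
  -- the valuations of `rep x (P^k)` away from `P`
  have key : ∀ k, P ^ k ∣ n → ∀ l, l ≠ P → q ∣ (rep x (P ^ k)).factorization l := by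
    intro k hk l hlP
    by_cases hl : l.Prime
    · by_cases hd : l ∣ rep x (P ^ k)
      · obtain ⟨m, hm⟩ := hk
        have hm0 : m ≠ 0 := by
          rintro rfl
          omega
        have h1 := rd_val hP hx hm0 (by rw [← hm]; exact hmax) hl hlP hd
        rw [← h1, ← hm]
        exact hv l
      · rw [Nat.factorization_eq_zero_of_not_dvd hd]
        exact dvd_zero _
    · rw [Nat.factorization_eq_zero_of_not_prime _ hl]
      exact dvd_zero _
  by_cases hPq : P = q
  · -- first alternative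
    left
    refine ⟨hx, ?_⟩
    subst hPq
    have k1 := key 1 (by rw [pow_one]; exact hPn)
    rw [pow_one] at k1
    have hr0 : rep x P ≠ 0 := (rep_pos hP.one_le).ne'
    set v := (rep x P).factorization P with hvd
    have hv1 : v % P ≤ 1 := by
      by_cases h2 : P = 2
      · rw [h2]; omega
      · have hv2 : v ≤ 1 := by
          by_cases h3 : P ∣ x - 1
          · rw [hvd, rd_lte hP h2 hx h3 hP.ne_zero, hP.factorization_self]
          · have h4 := rd_not_dvd_rep hP hx h3 1
            rw [pow_one] at h4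
            rw [hvd, Nat.factorization_eq_zero_of_not_dvd h4]
            omega
        exact (Nat.mod_le _ _).trans hv2
    have hdv : P ^ (v % P) ∣ rep x P :=
      (pow_dvd_pow P (Nat.mod_le _ _)).trans (Nat.ordProj_dvd _ _)
    obtain ⟨c, hc⟩ := hdv
    have hc0 : c ≠ 0 := by
      rintro rfl
      exact hr0 (by rw [hc, mul_zero])
    have hp0 : P ^ (v % P) ≠ 0 := pow_ne_zero _ hP.ne_zero
    have hfc : ∀ l, (rep x P).factorization l =
        (P ^ (v % P)).factorization l + c.factorization l := by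
      intro l
      rw [hc, Nat.factorization_mul hp0 hc0, Finsupp.add_apply]
    have hw : ∀ l, P ∣ c.factorization l := by
      intro l
      have h5 := hfc l
      rw [hP.factorization_pow] at h5
      by_cases hl : l = P
      · rw [hl, Finsupp.single_eq_same, ← hvd] at h5
        rw [hl]
        have h6 : c.factorization P = v - v % P := by omega
        rw [h6]
        exact Nat.dvd_sub_mod v
      · rw [Finsupp.single_apply, if_neg (fun h => hl h.symm), zero_add] at h5
        rw [← h5]
        exact k1 l hl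
    obtain ⟨w, hw⟩ := rd_isPow hc0 hw
    exact ⟨v % P, w, hv1, by rw [← hw]; exact hc⟩
  · -- second alternative
    right
    have hqP : q < P := lt_of_le_of_ne (hmax q hq hqd) (fun h => hPq h.symm)
    have hP2 : P ≠ 2 := by
      have := hq.two_le
      omega
    have fin : ∀ k, k ≠ 0 → P ^ k ∣ n → q ∣ (rep x (P ^ k)).factorization P →
        ∃ y n : ℕ, 1 < x ∧ 1 < y ∧ 2 < n ∧ n % q ≠ 0 ∧ y ^ q = rep x n := by
      intro k hk0 hk hPk
      have hN : 2 < P ^ k := by
        have h1 : P ^ 1 ≤ P ^ k := Nat.pow_le_pow_right hP.pos (by omega)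
        rw [pow_one] at h1
        have := hq.two_le
        omega
      have hr0 : rep x (P ^ k) ≠ 0 := (rep_pos (by omega)).ne'
      obtain ⟨w, hw⟩ := rd_isPow hr0 (q := q) (by
        intro l
        by_cases hl : l = P
        · rw [hl]; exact hPk
        · exact key k hk l hl)
      refine ⟨w, P ^ k, hx, ?_, hN, ?_, hw.symm⟩
      · have h1 : 1 < rep x (P ^ k) := rd_one_lt hx (by omega)
        by_contra hw1
        have hw2 : w = 0 ∨ w = 1 := by omega
        rcases hw2 with h2 | h2
        · rw [h2, zero_pow hq.ne_zero] at hw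
          omega
        · rw [h2, one_pow] at hw
          omega
      · intro h1
        have h2 : q ∣ P := hq.dvd_of_dvd_pow (Nat.dvd_of_mod_eq_zero h1)
        exact hPq ((Nat.prime_dvd_prime_iff_eq hq hP).1 h2).symm
    by_cases hPx : P ∣ x - 1
    · have h1 : q ∣ n.factorization P := by
        rw [← rd_lte hP hP2 hx hPx hn0]
        exact hv P
      have h2 : 0 < n.factorization P := hP.factorization_pos_of_dvd hn0 hPn
      have h3 : q ≤ n.factorization P := Nat.le_of_dvd h2 h1
      have h4 : P ^ q ∣ n := (pow_dvd_pow P h3).trans (Nat.ordProj_dvd _ _)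
      refine fin q hq.ne_zero h4 ?_
      rw [rd_lte hP hP2 hx hPx (pow_ne_zero _ hP.ne_zero), hP.factorization_pow,
        Finsupp.single_eq_same]
    · refine fin 1 one_ne_zero (by rw [pow_one]; exact hPn) ?_
      rw [Nat.factorization_eq_zero_of_not_dvd (rd_not_dvd_rep hP hx hPx 1)]
      exact dvd_zero _

end Pool.Agent.NL
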