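import Pool.Agent.NL.Two

/-!
The integers without prime factor >= 5 have density zero.

PLAN. Such an x >= 1 is 2^a 3^b; at most (log2 N + 1)^2 of them up to N; or: any sieve argument. (Also fine:
x is {2,3}-smooth, Nat.smoothNumbers 4 / smoothNumbersUpTo card bound
Nat.smoothNumbersUpTo_card_le: at most 2^(pi(4)) sqrt N.)
-/

namespace Pool.Agent.NL

open Finset

theorem no_large_prime_DZ : DZ {x | ∀ p : ℕ, p.Prime → p ∣ x → p < 5} := by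
  intro ε hε
  set K : ℕ := 2 ^ (Nat.primesBelow 5).card with hK
  obtain ⟨M, hM⟩ := exists_nat_ge ((K : ℝ) / ε)
  refine ⟨M ^ 2, fun N hN => ?_⟩
  have h1 : cnt {x | ∀ p : ℕ, p.Prime → p ∣ x → p < 5} N ≤ (Nat.smoothNumbersUpTo N 5).card := by
    refine cnt_le_card _ fun x hx _ hxN => ?_
    rw [Nat.mem_smoothNumbersUpTo]
    exact ⟨hxN, Nat.mem_smoothNumbers'.2 hx⟩
  have h2 : (Nat.smoothNumbersUpTo N 5).card ≤ K * N.sqrt := Nat.smoothNumbersUpTo_card_le N 5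
  have h3 : M ≤ N.sqrt := by
    rw [Nat.le_sqrt']
    exact hN
  have h4 : N.sqrt * N.sqrt ≤ N := Nat.sqrt_le N
  have h1' : (cnt {x | ∀ p : ℕ, p.Prime → p ∣ x → p < 5} N : ℝ) ≤ (K : ℝ) * (N.sqrt : ℝ) := by
    exact_mod_cast h1.trans h2
  have h3' : (M : ℝ) ≤ (N.sqrt : ℝ) := by exact_mod_cast h3
  have h4' : (N.sqrt : ℝ) * (N.sqrt : ℝ) ≤ (N : ℝ) := by exact_mod_cast h4
  have h5 : (K : ℝ) ≤ ε * (N.sqrt : ℝ) := by
    rw [div_le_iff₀ hε] at hM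
    nlinarith
  have h6 : (0 : ℝ) ≤ (N.sqrt : ℝ) := by positivity
  nlinarith [mul_le_mul_of_nonneg_right h5 h6, mul_le_mul_of_nonneg_left h4' hε.le]

theorem two_odd_DZ : DZ {x | ∃ y n : ℕ, 1 < x ∧ n % 2 = 1 ∧ 1 < n ∧ y ^ 2 = rep x n} :=
  no_large_prime_DZ.mono (by
    rintro x ⟨y, n, hx, hn, hn1, h⟩ p hp hpx
    exact two_odd hx hn hn1 h hp hpx)

end Pool.Agent.NL
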