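import Pool.Agent.NL.FixedLocalDZ
import Pool.Agent.NL.FixedOne
import Pool.Agent.NL.TwoDZ
import Pool.Agent.NL.Reduce
import Pool.Agent.NL.Diag

/-!
For every fixed prime exponent the set of bases has density zero.
-/

namespace Pool.Agent.NL

open Finset

theorem coprime_DZ {q : ℕ} (hq : q.Prime) :
    DZ {x | ∃ y n : ℕ, 1 < x ∧ 1 < y ∧ 2 < n ∧ n % q ≠ 0 ∧ y ^ q = rep x n} := by
  rcases eq_or_ne q 2 with rfl | hq2
  · refine two_odd_DZ.mono ?_
    rintro x ⟨y, n, hx, _, hn, hn2, h⟩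
    exact ⟨y, n, hx, by omega, by omega, h⟩
  · have h3 : 3 ≤ q := by have := hq.two_le; omega
    obtain ⟨x₀, hx₀⟩ := fixed_one h3
    have hb : DZ {x | ∃ y n : ℕ, 1 < n ∧ n % q = 1 ∧ y ^ q = rep x n} := by
      refine DZ_of_bounded (B := x₀) ?_
      rintro x ⟨y, n, hn, hnq, h⟩
      by_contra hc
      exact hx₀ x y n (by omega) hn hnq h
    refine ((fixed_local_DZ hq hq2).union hb).mono ?_
    rintro x ⟨y, n, hx, hy, hn, hn0, h⟩
    by_cases h1 : n % q = 1
    · exact Or.inr ⟨y, n, by omega, h1, h⟩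
    · exact Or.inl ⟨y, n, hn0, h1, h⟩

theorem base_DZ {q : ℕ} (hq : q.Prime) : DZ {x | Base q x} := by
  refine ((diag_DZ hq).union (coprime_DZ hq)).mono ?_
  intro x hx
  exact reduce hq hx

end Pool.Agent.NL
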