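import Pool.Agent.NL.Large
import Pool.Agent.NL.Fixed

/-!
Almost all bases.
-/

namespace Pool.Agent.NL

open Finset

theorem almost_all : DZ {x | ∃ y m n : ℕ, 1 < x ∧ 1 < y ∧ 1 < m ∧ 2 < n ∧ y ^ m = rep x n} := by
  classical
  apply DZ_of_forall
  intro ε hε
  obtain ⟨Q, N₀, hN⟩ := large_q_density ε hε
  refine ⟨{x | ∃ q ∈ (range Q).filter Nat.Prime, x ∈ {x | Base q x}}, ?_, N₀, fun N h => ?_⟩
  · refine DZ.biUnion _ (fun q => {x | Base q x}) fun q hq => ?_
    rw [mem_filter] at hq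
    exact base_DZ hq.2
  · refine le_trans ?_ (hN N h)
    norm_cast
    refine cnt_mono ?_ N
    rintro x ⟨⟨y, m, n, hx, hy, hm, hn, h⟩, hx2⟩
    set q := m.minFac with hq
    have hqp : q.Prime := Nat.minFac_prime (by omega)
    obtain ⟨k, hk⟩ := Nat.minFac_dvd m
    have hk1 : 1 ≤ k := by
      rcases Nat.eq_zero_or_pos k with rfl | h'
      · omega
      · exact h'
    have hB : Base q x := by
      refine ⟨y ^ k, n, hx, Nat.one_lt_pow (by omega) hy, hn, ?_⟩
      rw [← pow_mul, mul_comm, ← hk, h]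
    refine ⟨q, hqp, ?_, hB⟩
    by_contra hc
    exact hx2 ⟨q, by rw [mem_filter, mem_range]; exact ⟨by omega, hqp⟩, hB⟩

end Pool.Agent.NL
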