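import Pool.Agent.NL.Defs

/-!
Fixed odd exponent q, n <> 0, 1 mod q: local obstructions at the primes l = 1 mod q, l <> 1 mod q^2.

PLAN. F = ZMod l, Z = set of elements of order q in F^x: q - 1 elements. For z in Z put
u(z) = sum_(i < r % q) z^i = (z^r - 1)/(z - 1), non-zero (r % q <> 0). Omega = (values < l of) those z in
Z for which u(z) is not a q-th power. Claim: for every z in Z not both u(z) and u(z^(-1)) are q-th
powers: u(z^(-1)) = z^(1-r) u(z), so z^(r-1) would be a q-th power v^q, but z^(r-1) has order q (r <> 1 mod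
q), so v has order q^2 (order of v: v^(q^2) = 1, v^q <> 1), q^2 | l - 1, contradiction. z -> z^(-1) is an
involution of Z without fixed points (q odd), so at least half of Z is in Omega: q - 1 <= 2 card Omega
(map z -> z if in Omega else z^(-1): or card Z <= card (Z cap Omega) + card (Z minus Omega) and
inversion maps Z minus Omega injectively into Omega).
If x % l in Omega, then z = (x : ZMod l) has order q and rep x n = sum_(i<n) z^i = u(z) (geometric sum,
z^n = z^(r)), but y^q = rep x n makes u(z) a q-th power, contradiction.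
-/

namespace Pool.Agent.NL

open Finset

private lemma geom_mod {ℓ : ℕ} [Fact ℓ.Prime] {q n m : ℕ} {z : ZMod ℓ} (hz : z ^ q = 1) (hz1 : z ≠ 1)
    (h : n % q = m % q) : ∑ i ∈ range n, z ^ i = ∑ i ∈ range (m % q), z ^ i := by
  have h1 : (z - 1) ≠ 0 := sub_ne_zero.2 hz1
  apply mul_right_cancel₀ h1
  rw [geom_sum_mul, geom_sum_mul]
  congr 1
  rw [← h]
  conv_lhs => rw [← Nat.div_add_mod n q]
  rw [pow_add, pow_mul, hz, one_pow, one_mul]

private lemma geom_inv {ℓ : ℕ} [Fact ℓ.Prime] (z w : ZMod ℓ) (hzw : z * w = 1) (k : ℕ) :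
    z ^ k * ∑ i ∈ range (k + 1), w ^ i = ∑ i ∈ range (k + 1), z ^ i := by
  induction k with
  | zero => simp
  | succ k ih =>
    rw [Finset.sum_range_succ' (fun i => w ^ i), Finset.sum_range_succ (fun i => z ^ i)]
    rw [mul_add, pow_zero, mul_one]
    congr 1
    rw [← ih, Finset.mul_sum, Finset.mul_sum]
    refine Finset.sum_congr rfl fun i _ => ?_
    calc z ^ (k + 1) * w ^ (i + 1) = z ^ k * w ^ i * (z * w) := by ring
      _ = z ^ k * w ^ i := by rw [hzw, mul_one]

private lemma not_both {q ℓ r : ℕ} [Fact ℓ.Prime] (hq : q.Prime)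
    (h2 : ¬ q ^ 2 ∣ ℓ - 1) (hr0 : r ≠ 0) (hr1 : r ≠ 1) (hrq : r < q) {z w v t : ZMod ℓ}
    (hz : orderOf z = q) (hzw : z * w = 1) (hv : v ^ q = ∑ i ∈ range r, z ^ i)
    (ht : t ^ q = ∑ i ∈ range r, w ^ i) : False := by
  have : Fact q.Prime := ⟨hq⟩
  obtain ⟨k, rfl⟩ : ∃ k, r = k + 1 := ⟨r - 1, by omega⟩
  have hzq : z ^ q = 1 := by rw [← hz]; exact pow_orderOf_eq_one z
  have hwq : w ^ q = 1 := by
    have := congrArg (fun a => a ^ q) hzw
    simpa [mul_pow, hzq] using this
  have hz0 : z ≠ 0 := by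
    rintro rfl
    simp at hzw
  have hne : ∀ j, 0 < j → j < q → z ^ j ≠ 1 := by
    intro j hj hjq h
    have := Nat.le_of_dvd hj (hz ▸ orderOf_dvd_of_pow_eq_one h)
    omega
  have hS : (∑ i ∈ range (k + 1), z ^ i) ≠ 0 := by
    intro h0
    have := geom_sum_mul z (k + 1)
    rw [h0, zero_mul] at this
    exact hne (k + 1) (by omega) hrq (sub_eq_zero.1 this.symm)
  have e1 := geom_inv z w hzw k
  rw [← hv, ← ht] at e1
  have ht0 : t ≠ 0 := by
    rintro rfl
    rw [← hv, ← e1, zero_pow hq.ne_zero, mul_zero] at hS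
    exact hS rfl
  have e2 : (v / t) ^ q = z ^ k := by
    rw [div_pow, ← e1, mul_div_assoc, div_self (pow_ne_zero _ ht0), mul_one]
  have h3 : ¬ (v / t) ^ q ^ 1 = 1 := by
    rw [pow_one, e2]
    exact hne k (by omega) (by omega)
  have h4 : (v / t) ^ q ^ (1 + 1) = 1 := by
    rw [show q ^ (1 + 1) = q * q by ring, pow_mul, e2, ← pow_mul, mul_comm, pow_mul, hzq, one_pow]
  have h5 := orderOf_eq_prime_pow h3 h4
  have h6 : v / t ≠ 0 := by
    intro h0
    rw [h0, zero_pow (pow_ne_zero _ hq.ne_zero)] at h4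
    exact zero_ne_one h4
  have h7 := orderOf_dvd_of_pow_eq_one (ZMod.pow_card_sub_one_eq_one h6)
  rw [h5] at h7
  exact h2 h7

/-- At least `(q - 1) / 2` residue classes modulo `ℓ` are impossible. -/
theorem local_bad {q ℓ r : ℕ} (hq : q.Prime) (hq2 : q ≠ 2) (hℓ : ℓ.Prime) (h1 : q ∣ ℓ - 1)
    (h2 : ¬ q ^ 2 ∣ ℓ - 1) (hr0 : r % q ≠ 0) (hr1 : r % q ≠ 1) :
    ∃ Ω ⊆ range ℓ, q - 1 ≤ 2 * Ω.card ∧
      ∀ x y n : ℕ, n % q = r % q → y ^ q = rep x n → x % ℓ ∉ Ω := by
  classical
  have : Fact ℓ.Prime := ⟨hℓ⟩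
  have : NeZero ℓ := ⟨hℓ.ne_zero⟩
  have _ := hq2
  let U : Finset (ZMod ℓ)ˣ := univ.filter (fun u => orderOf u = q)
  have hU : U.card = q - 1 := by
    have h3 := IsCyclic.card_orderOf_eq_totient (α := (ZMod ℓ)ˣ) (d := q) (by
      rw [ZMod.card_units]
      exact h1)
    rw [Nat.totient_prime hq] at h3
    exact h3
  let B : Finset (ZMod ℓ)ˣ := U.filter
    (fun u => ¬ ∃ v : ZMod ℓ, v ^ q = ∑ i ∈ range (r % q), (u : ZMod ℓ) ^ i)
  have hB : (U \ B).card ≤ B.card := by
    refine Finset.card_le_card_of_injOn (fun u => u⁻¹) ?_ ?_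
    · intro u hu
      rw [mem_coe, mem_sdiff] at hu
      have huU : orderOf u = q := (mem_filter.1 hu.1).2
      have hex : ∃ v : ZMod ℓ, v ^ q = ∑ i ∈ range (r % q), (u : ZMod ℓ) ^ i := by
        by_contra hc
        exact hu.2 (mem_filter.2 ⟨hu.1, hc⟩)
      obtain ⟨v, hv⟩ := hex
      rw [mem_coe, mem_filter]
      refine ⟨?_, ?_⟩
      · rw [mem_filter]
        exact ⟨mem_univ _, by rw [orderOf_inv]; exact huU⟩
      · rintro ⟨t, ht⟩
        exact not_both hq h2 hr0 hr1 (Nat.mod_lt _ hq.pos) (by rw [orderOf_units]; exact huU)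
          (Units.mul_inv u) hv ht
    · intro a _ b _ hab
      exact inv_injective hab
  have hcard : q - 1 ≤ 2 * B.card := by
    have h3 := Finset.card_sdiff_add_card_eq_card (s := B) (t := U) (filter_subset _ _)
    omega
  refine ⟨B.image (fun u : (ZMod ℓ)ˣ => (u : ZMod ℓ).val), ?_, ?_, ?_⟩
  · intro m hm
    obtain ⟨u, _, rfl⟩ := mem_image.1 hm
    exact mem_range.2 (ZMod.val_lt _)
  · rw [card_image_of_injective]
    · exact hcard
    · intro a b hab
      exact Units.ext (ZMod.val_injective ℓ hab)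
  · intro x y n hn hy hx
    obtain ⟨u, hu, hux⟩ := mem_image.1 hx
    have hxu : (x : ZMod ℓ) = u := by
      rw [← ZMod.natCast_mod, ← hux, ZMod.natCast_val, ZMod.cast_id]
    have huU : orderOf u = q := (mem_filter.1 (mem_filter.1 hu).1).2
    have hno := (mem_filter.1 hu).2
    apply hno
    refine ⟨(y : ZMod ℓ), ?_⟩
    have huq : (u : ZMod ℓ) ^ q = 1 := by
      rw [← orderOf_dvd_iff_pow_eq_one, orderOf_units, huU]
    have hu1 : (u : ZMod ℓ) ≠ 1 := by
      intro h
      have : orderOf (u : ZMod ℓ) = 1 := by rw [h, orderOf_one]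
      rw [orderOf_units, huU] at this
      exact hq.one_lt.ne' this
    have e := congrArg (fun a : ℕ => (a : ZMod ℓ)) hy
    simp only [rep, Nat.cast_pow, Nat.cast_sum, hxu] at e
    rw [e]
    exact geom_mod huq hu1 hn

end Pool.Agent.NL
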