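import Pool.Agent.NL.FixedLocal
import Pool.Agent.NL.APSum
import Pool.Agent.Helper24.ResidueSieve

/-!
Fixed odd exponent q, n <> 0, 1 mod q: density zero.

The set is contained in the union over r = 2, .., q - 1 of S_r = {x | exists y n, n % q = r,
y^q = rep x n}. The primes l = 1 + q mod q^2 satisfy q | l - 1 and not q^2 | l - 1, and the sums of
their reciprocals are unbounded. For a finite set of such primes, local_bad gives at least (q-1)/2
forbidden classes modulo each l, and the Chinese remainder theorem bounds the density by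
prod (1 - (q-1)/(2l)) <= exp(-(q-1)/2 sum 1/l).
-/

namespace Pool.Agent.NL

open Finset

private theorem class_props {q ℓ : ℕ} (hq : q.Prime) (hℓ : ℓ.Prime)
    (h : (ℓ : ZMod (q ^ 2)) = ((1 + q : ℕ) : ZMod (q ^ 2))) : q ∣ ℓ - 1 ∧ ¬ q ^ 2 ∣ ℓ - 1 := by
  have hq1 := hq.one_lt
  have hℓ1 := hℓ.one_lt
  rw [ZMod.natCast_eq_natCast_iff] at h
  have hlt : 1 + q < q ^ 2 ∨ q = 2 ∨ q = 1 := by
    rcases lt_or_ge q 3 with h3 | h3
    · omega
    · left; nlinarith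
  constructor
  · have h1 : ℓ ≡ 1 + q [MOD q] := h.of_dvd (Dvd.intro _ (sq q).symm)
    have h2 : 1 ≡ ℓ [MOD q] := by
      refine (h1.trans ?_).symm
      have : (1 + q) % q = 1 % q := Nat.add_mod_right 1 q
      exact this
    exact (Nat.modEq_iff_dvd' (by omega)).1 h2
  · intro h2
    have h3 : 1 ≡ ℓ [MOD q ^ 2] := (Nat.modEq_iff_dvd' (by omega)).2 h2
    have h4 : 1 ≡ 1 + q [MOD q ^ 2] := h3.trans h
    have h5 := (Nat.modEq_iff_dvd' (by omega)).1 h4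
    rw [Nat.add_sub_cancel_left] at h5
    have h6 := Nat.le_of_dvd hq.pos h5
    nlinarith

private theorem class_DZ {q : ℕ} (hq : q.Prime) (hq2 : q ≠ 2) {r : ℕ} (hr0 : r % q ≠ 0)
    (hr1 : r % q ≠ 1) : DZ {x | ∃ y n : ℕ, n % q = r % q ∧ y ^ q = rep x n} := by
  classical
  intro ε hε
  have hq1 := hq.one_lt
  have : NeZero (q ^ 2) := ⟨by positivity⟩
  have hunit : IsUnit (((1 + q : ℕ) : ZMod (q ^ 2))) := by
    rw [ZMod.isUnit_iff_coprime]
    refine Nat.Coprime.pow_right 2 ?_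
    simp
  have hq1r : (0 : ℝ) < ((q : ℝ) - 1) / 2 := by
    have : (1 : ℝ) < q := by exact_mod_cast hq1
    linarith
  obtain ⟨F, hF, hB⟩ := exists_ap_sum (q ^ 2) _ hunit (-Real.log (ε / 2) / (((q : ℝ) - 1) / 2))
  have hbad : ∀ ℓ : ℕ, ∃ Ω : Finset ℕ, ℓ ∈ F → (Ω ⊆ range ℓ ∧ q - 1 ≤ 2 * Ω.card ∧
      ∀ x y n : ℕ, n % q = r % q → y ^ q = rep x n → x % ℓ ∉ Ω) := by
    intro ℓ
    by_cases hℓ : ℓ ∈ F
    · obtain ⟨h1, h2⟩ := hF ℓ hℓ
      obtain ⟨h3, h4⟩ := class_props hq h1 h2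
      obtain ⟨Ω, hΩ⟩ := local_bad hq hq2 h1 h3 h4 hr0 hr1
      exact ⟨Ω, fun _ => hΩ⟩
    · exact ⟨∅, fun h => absurd h hℓ⟩
  choose Ω hΩ using hbad
  set Ω' : ℕ → Finset ℕ := fun ℓ => range ℓ \ Ω ℓ with hΩ'
  set C : ℝ := ∏ p ∈ F, ((Ω' p).card : ℝ) with hC
  have hC0 : 0 ≤ C := prod_nonneg fun p _ => Nat.cast_nonneg _
  have hcrt : ∀ N : ℕ, (cnt {x | ∃ y n : ℕ, n % q = r % q ∧ y ^ q = rep x n} N : ℝ) ≤
      N * ∏ p ∈ F, ((Ω' p).card : ℝ) / p + C := by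
    intro N
    have h1 := Pool.Agent.Helper24.abs_card_residues_sub_le 0 N F (fun p hp => (hF p hp).1) Ω'
      (fun p _ c hc => by
        rw [hΩ', mem_sdiff, mem_range] at hc
        exact hc.1)
    have h2 : cnt {x | ∃ y n : ℕ, n % q = r % q ∧ y ^ q = rep x n} N ≤
        ((Ioc 0 (0 + N)).filter (fun m => ∀ p ∈ F, m % p ∈ Ω' p)).card := by
      refine cnt_le_card _ ?_
      rintro x ⟨y, n, hn, hy⟩ hx1 hxN
      rw [mem_filter, mem_Ioc]
      refine ⟨⟨by omega, by omega⟩, fun p hp => ?_⟩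
      rw [hΩ', mem_sdiff, mem_range]
      exact ⟨Nat.mod_lt _ (hF p hp).1.pos, (hΩ p hp).2.2 x y n hn hy⟩
    have h3 : (cnt {x | ∃ y n : ℕ, n % q = r % q ∧ y ^ q = rep x n} N : ℝ) ≤
        ((Ioc 0 (0 + N)).filter (fun m => ∀ p ∈ F, m % p ∈ Ω' p)).card := by exact_mod_cast h2
    have h4 := (abs_le.1 h1).2
    linarith
  have hprod : ∏ p ∈ F, ((Ω' p).card : ℝ) / p ≤ ε / 2 := by
    have h1 : ∀ p ∈ F, ((Ω' p).card : ℝ) / p ≤ Real.exp (-((((q : ℝ) - 1) / 2) * (1 / p))) := by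
      intro p hp
      have hpp := (hF p hp).1
      obtain ⟨h2, h3, _⟩ := hΩ p hp
      have hp0 : (0 : ℝ) < p := by exact_mod_cast hpp.pos
      have h4 : (Ω' p).card = p - (Ω p).card := by
        rw [hΩ', card_sdiff_of_subset h2, card_range]
      have h5 : (Ω p).card ≤ p := by
        have := card_le_card h2
        rwa [card_range] at this
      have h6 : ((Ω' p).card : ℝ) = p - (Ω p).card := by
        rw [h4, Nat.cast_sub h5]
      have h7 : (q : ℝ) - 1 ≤ 2 * (Ω p).card := by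
        have : ((q - 1 : ℕ) : ℝ) ≤ ((2 * (Ω p).card : ℕ) : ℝ) := by exact_mod_cast h3
        rw [Nat.cast_sub hq1.le] at this
        push_cast at this
        exact this
      have h8 : ((Ω' p).card : ℝ) / p ≤ -((((q : ℝ) - 1) / 2) * (1 / p)) + 1 := by
        rw [h6, div_le_iff₀ hp0]
        have : (-((((q : ℝ) - 1) / 2) * (1 / p)) + 1) * p = p - ((q : ℝ) - 1) / 2 := by
          field_simp
          ring
        rw [this]
        linarith
      exact h8.trans (Real.add_one_le_exp _)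
    have h2 : ∏ p ∈ F, ((Ω' p).card : ℝ) / p ≤
        ∏ p ∈ F, Real.exp (-((((q : ℝ) - 1) / 2) * (1 / p))) :=
      prod_le_prod (fun p _ => by positivity) h1
    refine h2.trans ?_
    rw [← Real.exp_sum, sum_neg_distrib, ← mul_sum]
    rw [div_le_iff₀ hq1r] at hB
    have h3 : -(((q : ℝ) - 1) / 2 * ∑ p ∈ F, 1 / (p : ℝ)) ≤ Real.log (ε / 2) := by linarith
    calc Real.exp (-(((q : ℝ) - 1) / 2 * ∑ p ∈ F, 1 / (p : ℝ))) ≤ Real.exp (Real.log (ε / 2)) :=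
          Real.exp_le_exp.2 h3
      _ = ε / 2 := Real.exp_log (by positivity)
  obtain ⟨N₀, hN₀⟩ := exists_nat_ge (2 * C / ε)
  refine ⟨N₀, fun N hN => ?_⟩
  have h1 := hcrt N
  have h2 : (N₀ : ℝ) ≤ N := by exact_mod_cast hN
  have h3 : C ≤ ε / 2 * N := by
    rw [div_le_iff₀ hε] at hN₀
    nlinarith
  have h4 : (N : ℝ) * ∏ p ∈ F, ((Ω' p).card : ℝ) / p ≤ N * (ε / 2) :=
    mul_le_mul_of_nonneg_left hprod (Nat.cast_nonneg N)
  linarith

theorem fixed_local_DZ {q : ℕ} (hq : q.Prime) (hq2 : q ≠ 2) :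
    DZ {x | ∃ y n : ℕ, n % q ≠ 0 ∧ n % q ≠ 1 ∧ y ^ q = rep x n} := by
  have h := DZ.biUnion ((range q).filter (fun r => r ≠ 0 ∧ r ≠ 1))
    (fun r => {x | ∃ y n : ℕ, n % q = r % q ∧ y ^ q = rep x n}) (fun r hr => by
      rw [mem_filter, mem_range] at hr
      have : r % q = r := Nat.mod_eq_of_lt hr.1
      exact class_DZ hq hq2 (by rw [this]; exact hr.2.1) (by rw [this]; exact hr.2.2))
  refine h.mono ?_
  rintro x ⟨y, n, h0, h1, hy⟩
  refine ⟨n % q, ?_, y, n, ?_, hy⟩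
  · rw [mem_filter, mem_range]
    exact ⟨Nat.mod_lt _ hq.pos, h0, h1⟩
  · rw [Nat.mod_mod]

end Pool.Agent.NL
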