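import Pool.Agent.NL.Ent

/-!
The size of the interpolation determinant.

PLAN. abs_det_le_prod: Matrix.det_apply, triangle inequality, prod_a |A (sigma a) a| <= prod_a b a, number of
permutations = card!.
abs_det_mat_le: for the row (i,j) take b = choose(q S, i) * (y^R x^S)^j: q s + r <= q S (r < R <= q, s < S),
|1 - x| = x - 1 <= x, y^(R-1-r) <= y^R, (x-1)^s <= x^S. prod over the rows: Finset.prod over Fin K x Fin L,
sum_(j<L) j = L (L-1)/2 (Finset.sum_range_id).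
choose_bound: choose(N,i) <= N^i/i! (Nat.choose_le_pow_div), N = q S <= q K, K^i/i! <= exp K
(Real.pow_div_factorial_le_exp).
-/

namespace Pool.Agent.NL

open Finset

theorem abs_det_le_prod {ι : Type*} [Fintype ι] [DecidableEq ι] (A : Matrix ι ι ℤ) (b : ι → ℤ)
    (hb : ∀ a c, |A a c| ≤ b a) : |A.det| ≤ (Fintype.card ι).factorial * ∏ a, b a := by
  rw [Matrix.det_apply']
  have h1 : ∀ σ : Equiv.Perm ι, |((Equiv.Perm.sign σ : ℤˣ) : ℤ) * ∏ i, A (σ i) i| ≤ ∏ a, b a := by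
    intro σ
    have hs : |((Equiv.Perm.sign σ : ℤˣ) : ℤ)| = 1 := by
      rcases Int.units_eq_one_or (Equiv.Perm.sign σ) with h | h <;> rw [h] <;> simp
    rw [abs_mul, hs, one_mul, Finset.abs_prod]
    calc ∏ i, |A (σ i) i| ≤ ∏ i, b (σ i) :=
          Finset.prod_le_prod (fun _ _ => abs_nonneg _) fun i _ => hb _ _
      _ = ∏ a, b a := Equiv.prod_comp σ b
  calc |∑ σ : Equiv.Perm ι, ((Equiv.Perm.sign σ : ℤˣ) : ℤ) * ∏ i, A (σ i) i|
      ≤ ∑ σ : Equiv.Perm ι, |((Equiv.Perm.sign σ : ℤˣ) : ℤ) * ∏ i, A (σ i) i| :=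
        Finset.abs_sum_le_sum_abs _ _
    _ ≤ ∑ _σ : Equiv.Perm ι, ∏ a, b a := Finset.sum_le_sum fun σ _ => h1 σ
    _ = (Fintype.card ι).factorial * ∏ a, b a := by
        rw [Finset.sum_const, Finset.card_univ, Fintype.card_perm, nsmul_eq_mul]

theorem abs_det_mat_le {q K L R S x y : ℕ} (hx : 2 ≤ x) (hy : 1 ≤ y) (hRq : R ≤ q)
    (cr cs : Fin K × Fin L → ℕ) (hcr : ∀ c, cr c < R) (hcs : ∀ c, cs c < S) :
    |(mat q K L R x y cr cs).det| ≤
      ((K * L).factorial : ℤ) * ((∏ i ∈ range K, ((q * S).choose i : ℤ)) ^ L) *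
        ((y : ℤ) ^ R * (x : ℤ) ^ S) ^ (K * (L * (L - 1) / 2)) := by
  have hb : ∀ a c, |(mat q K L R x y cr cs) a c| ≤
      ((q * S).choose a.1 : ℤ) * ((y : ℤ) ^ R * (x : ℤ) ^ S) ^ (a.2 : ℕ) := by
    intro a c
    simp only [mat, Matrix.of_apply, ent]
    have hr := hcr c
    have hs := hcs c
    have h1 : ((q * cs c + cr c).choose a.1 : ℤ) ≤ ((q * S).choose a.1 : ℤ) := by
      have h2 : q * cs c + cr c ≤ q * S := by
        calc q * cs c + cr c ≤ q * cs c + q := by omega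
          _ = q * (cs c + 1) := by ring
          _ ≤ q * S := Nat.mul_le_mul_left _ hs
      exact_mod_cast Nat.choose_le_choose _ h2
    rw [abs_mul, abs_pow, abs_mul, abs_pow, abs_pow, Nat.abs_cast, Nat.abs_cast]
    have h3 : |(1 : ℤ) - (x : ℤ)| ≤ x := by
      rw [abs_le]; constructor <;> omega
    have h4 : (y : ℤ) ^ (R - 1 - cr c) ≤ (y : ℤ) ^ R := by
      apply pow_le_pow_right₀ (by exact_mod_cast hy) (by omega)
    have h5 : |(1 : ℤ) - (x : ℤ)| ^ (cs c) ≤ (x : ℤ) ^ S := by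
      calc |(1 : ℤ) - (x : ℤ)| ^ (cs c) ≤ (x : ℤ) ^ (cs c) := pow_le_pow_left₀ (abs_nonneg _) h3 _
        _ ≤ (x : ℤ) ^ S := pow_le_pow_right₀ (by omega) hs.le
    have h6 : (y : ℤ) ^ (R - 1 - cr c) * |(1 : ℤ) - (x : ℤ)| ^ (cs c) ≤ (y : ℤ) ^ R * (x : ℤ) ^ S :=
      mul_le_mul h4 h5 (by positivity) (by positivity)
    exact mul_le_mul h1 (pow_le_pow_left₀ (by positivity) h6 _) (by positivity) (by positivity)
  refine (abs_det_le_prod _ _ hb).trans (le_of_eq ?_)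
  rw [Fintype.card_prod, Fintype.card_fin, Fintype.card_fin, mul_assoc]
  congr 1
  rw [Fintype.prod_prod_type]
  have h7 : ∀ i : Fin K, ∏ j : Fin L, (((q * S).choose i : ℤ) * ((y : ℤ) ^ R * (x : ℤ) ^ S) ^ (j : ℕ)) =
      ((q * S).choose i : ℤ) ^ L * ((y : ℤ) ^ R * (x : ℤ) ^ S) ^ (L * (L - 1) / 2) := by
    intro i
    rw [Finset.prod_mul_distrib, Finset.prod_const, Finset.card_univ, Fintype.card_fin]
    congr 1
    rw [Finset.prod_pow_eq_pow_sum]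
    congr 1
    rw [Fin.sum_univ_eq_sum_range (fun j => j) L, Finset.sum_range_id]
  rw [Finset.prod_congr rfl fun i _ => h7 i, Finset.prod_mul_distrib, Finset.prod_const,
    Finset.card_univ, Fintype.card_fin, ← pow_mul, mul_comm (L * (L - 1) / 2) K, Finset.prod_pow]
  congr 2
  rw [Fin.prod_univ_eq_prod_range (fun i => ((q * S).choose i : ℤ)) K]

theorem choose_bound {q S K i : ℕ} (hK : 1 ≤ K) (hS : S ≤ K) (hi : i ≤ K) :
    ((q * S).choose i : ℝ) ≤ (q : ℝ) ^ i * Real.exp K := by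
  have h1 : ((q * S).choose i : ℝ) ≤ ((q * S : ℕ) : ℝ) ^ i / (i.factorial : ℝ) :=
    Nat.choose_le_pow_div i (q * S)
  have h2 : (K : ℝ) ^ i / (i.factorial : ℝ) ≤ Real.exp K :=
    Real.pow_div_factorial_le_exp (K : ℝ) (Nat.cast_nonneg K) i
  have h3 : ((q * S : ℕ) : ℝ) ^ i / (i.factorial : ℝ) ≤ (q : ℝ) ^ i * ((K : ℝ) ^ i / (i.factorial : ℝ)) := by
    push_cast
    rw [mul_pow, mul_div_assoc]
    have h4 : (S : ℝ) ^ i ≤ (K : ℝ) ^ i := pow_le_pow_left₀ (Nat.cast_nonneg S) (by exact_mod_cast hS) i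
    have h5 : (0 : ℝ) ≤ (q : ℝ) ^ i := by positivity
    gcongr
  have h6 : (0 : ℝ) ≤ (q : ℝ) ^ i := by positivity
  calc ((q * S).choose i : ℝ) ≤ _ := h1
    _ ≤ _ := h3
    _ ≤ _ := mul_le_mul_of_nonneg_left h2 h6

end Pool.Agent.NL
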