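import Mathlib

/-!
A matrix with linearly independent rows has a non-zero maximal minor.

PLAN. The columns (fun a => A a c), c : kappa, span iota -> Q: otherwise there is a non-zero linear
functional vanishing on the span (Submodule.exists_dual_map_eq_bot.. / Submodule.exists_le_ker_of_lt_top),
i.e. a non-zero v with sum_a v a * A a c = 0 for all c. Choose from the spanning family of columns a
basis (exists_linearIndependent / Basis.ofSpan, Module.Basis.extend ...) of size card iota, reindex by
iota; the square matrix with linearly independent columns has non-zero determinant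
(Matrix.linearIndependent_cols_iff_isUnit / Matrix.linearIndependent_rows_iff_isUnit).
-/

namespace Pool.Agent.NL

open Finset

theorem exists_minor {ι κ : Type*} [Fintype ι] [DecidableEq ι] [Fintype κ] (A : Matrix ι κ ℚ)
    (hA : ∀ v : ι → ℚ, (∀ c, ∑ a, v a * A a c = 0) → v = 0) :
    ∃ f : ι → κ, (A.submatrix id f).det ≠ 0 := by
  classical
  -- the columns span
  have hspan : Submodule.span ℚ (Set.range (fun c : κ => (fun a : ι => A a c))) = ⊤ := by
    by_contra hne
    obtain ⟨φ, hφ0, hφ⟩ := Submodule.exists_le_ker_of_lt_top _ (lt_top_iff_ne_top.2 hne)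
    apply hφ0
    have hv : (fun a : ι => φ (Pi.single a 1)) = 0 := by
      apply hA
      intro c
      have h1 : φ (fun a => A a c) = 0 :=
        LinearMap.mem_ker.1 (hφ (Submodule.subset_span ⟨c, rfl⟩))
      have h2 : (fun a => A a c) = ∑ a, A a c • (Pi.single a (1 : ℚ) : ι → ℚ) := by
        ext b
        simp [Finset.sum_apply, Pi.single_apply]
      rw [h2, map_sum] at h1
      simp only [map_smul, smul_eq_mul] at h1
      rw [← h1]
      exact Finset.sum_congr rfl fun a _ => mul_comm _ _
    refine LinearMap.pi_ext' fun a => ?_
    ext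
    simpa using congrFun hv a
  obtain ⟨b, hb, hbs, hbl⟩ := exists_linearIndependent ℚ
    (Set.range (fun c : κ => (fun a : ι => A a c)))
  rw [hspan] at hbs
  have hfin : b.Finite := (Set.finite_range _).subset hb
  have : Fintype b := hfin.fintype
  let B : Module.Basis b ℚ (ι → ℚ) := Module.Basis.mk hbl (by rw [Subtype.range_coe, hbs])
  have hcard : Fintype.card ι = Fintype.card b := by
    have h1 := Module.finrank_eq_card_basis B
    rw [Module.finrank_fintype_fun_eq_card] at h1
    exact h1
  let e : ι ≃ b := Fintype.equivOfCardEq hcard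
  have hch : ∀ i : ι, ∃ c : κ, (fun a => A a c) = ((e i : b) : ι → ℚ) := fun i => by
    obtain ⟨c, hc⟩ := hb (e i).2
    exact ⟨c, hc⟩
  choose f hf using hch
  refine ⟨f, ?_⟩
  have hli : LinearIndependent ℚ (A.submatrix id f).col := by
    have h1 : (A.submatrix id f).col = (fun x : b => (x : ι → ℚ)) ∘ e := by
      funext i
      simp only [Function.comp_apply]
      rw [← hf i]
      rfl
    rw [h1]
    exact hbl.comp _ e.injective
  have h2 := Matrix.linearIndependent_cols_iff_isUnit.1 hli
  exact ((Matrix.isUnit_iff_isUnit_det _).1 h2).ne_zero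

end Pool.Agent.NL
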