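import Mathlib

/-!
The zero estimate: L translates and a Vandermonde determinant.

PLAN. Suppose J = {j | P j <> 0} is non-empty, let k = card J. For m in Z the vector (w m ^ j)_(j in J) is
non-zero and in the kernel of the k x k matrix (P_j(m + h mu) c^(mu j))_(mu < k, j in J), so its
determinant is 0 (Matrix.exists_mulVec_eq_zero_iff). Consider the polynomial matrix
D_(mu, j) = (P_j.comp (X + C (h mu))) * C (c^(mu j)) * X^(K - 1 - natDegree P_j): all entries have degree
<= K - 1, the coefficient of X^(K-1) is leadingCoeff(P_j) * c^(mu j). det D has degree <= k (K-1)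
<= L (K-1) < card Z and vanishes at all m in Z (evaluate: the matrix above with columns scaled), so
det D = 0. But the coefficient of X^(k (K-1)) in det D = sum_sigma sign prod (..) is
prod_j leadingCoeff(P_j) * det (c^(mu j)) (Polynomial.coeff_prod_of_natDegree_le), a Vandermonde
determinant with the distinct nodes c^j, j in J (|c| > 1): Matrix.det_vandermonde_ne_zero_iff.
Contradiction.
-/

namespace Pool.Agent.NL

open Finset Polynomial

theorem zero_core {K L : ℕ} (c h : ℚ) (hc : 1 < |c|) (P : Fin L → ℚ[X])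
    (hdeg : ∀ j, (P j).natDegree ≤ K - 1) (Z : Finset ℚ) (hZ : L * (K - 1) < Z.card) (w : ℚ → ℚ)
    (hw : ∀ m ∈ Z, w m ≠ 0)
    (h0 : ∀ m ∈ Z, ∀ μ : ℕ, μ < L →
      ∑ j : Fin L, (P j).eval (m + h * μ) * (c ^ (μ * (j : ℕ)) * (w m) ^ (j : ℕ)) = 0) :
    ∀ j, P j = 0 := by
  classical
  by_contra hcon
  push Not at hcon
  obtain ⟨j₀, hj₀⟩ := hcon
  let k : ℕ := Fintype.card {j : Fin L // P j ≠ 0}
  let e : Fin k ≃ {j : Fin L // P j ≠ 0} := (Fintype.equivFin _).symm
  have hkL : k ≤ L := by
    have := Fintype.card_subtype_le (fun j : Fin L => P j ≠ 0)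
    exact this.trans_eq (Fintype.card_fin L)
  let D : Matrix (Fin k) (Fin k) ℚ[X] := fun μ i =>
    (P (e i).1).comp (X + C (h * ((μ : ℕ) : ℚ))) * C (c ^ ((μ : ℕ) * ((e i).1 : ℕ))) *
      X ^ (K - 1 - (P (e i).1).natDegree)
  have hnd : ∀ μ i, (D μ i).natDegree ≤ K - 1 := by
    intro μ i
    have h1 : ((P (e i).1).comp (X + C (h * ((μ : ℕ) : ℚ)))).natDegree ≤
        (P (e i).1).natDegree := by
      rw [natDegree_comp, natDegree_X_add_C, mul_one]
    have h2 : ((P (e i).1).comp (X + C (h * ((μ : ℕ) : ℚ))) *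
        C (c ^ ((μ : ℕ) * ((e i).1 : ℕ)))).natDegree ≤ (P (e i).1).natDegree :=
      (natDegree_mul_C_le _ _).trans h1
    have h3 : (D μ i).natDegree ≤ (P (e i).1).natDegree +
        (K - 1 - (P (e i).1).natDegree) := by
      refine natDegree_mul_le.trans ?_
      have h4 : (X ^ (K - 1 - (P (e i).1).natDegree) : ℚ[X]).natDegree ≤
          K - 1 - (P (e i).1).natDegree := natDegree_X_pow_le _
      exact Nat.add_le_add h2 h4
    have h5 := hdeg (e i).1
    omega
  have hcf : ∀ μ i, (D μ i).coeff (K - 1) =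
      (P (e i).1).leadingCoeff * (c ^ ((e i).1 : ℕ)) ^ (μ : ℕ) := by
    intro μ i
    have h5 := hdeg (e i).1
    have h6 : K - 1 = (P (e i).1).natDegree + (K - 1 - (P (e i).1).natDegree) := by omega
    change (((P (e i).1).comp (X + C (h * ((μ : ℕ) : ℚ))) * C (c ^ ((μ : ℕ) * ((e i).1 : ℕ)))) *
      X ^ (K - 1 - (P (e i).1).natDegree)).coeff (K - 1) = _
    have h7 : (((P (e i).1).comp (X + C (h * ((μ : ℕ) : ℚ))) *
        C (c ^ ((μ : ℕ) * ((e i).1 : ℕ)))) *
      X ^ (K - 1 - (P (e i).1).natDegree)).coeff (K - 1) =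
        ((P (e i).1).comp (X + C (h * ((μ : ℕ) : ℚ))) *
        C (c ^ ((μ : ℕ) * ((e i).1 : ℕ)))).coeff (P (e i).1).natDegree := by
      conv_lhs => rw [h6]
      have h8 : (P (e i).1).natDegree + (K - 1 - (P (e i).1).natDegree) -
          (P (e i).1).natDegree = K - 1 - (P (e i).1).natDegree := by omega
      rw [h8, coeff_mul_X_pow]
    rw [h7, coeff_mul_C]
    have h9 : ((P (e i).1).comp (X + C (h * ((μ : ℕ) : ℚ)))).coeff (P (e i).1).natDegree =
        (P (e i).1).leadingCoeff := by
      rw [← taylor_apply, coeff_taylor_natDegree]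
    rw [h9, mul_comm (μ : ℕ) _, pow_mul]
  -- the top coefficient of the determinant
  have htop : D.det.coeff (k * (K - 1)) ≠ 0 := by
    have h1 : D.det.coeff (k * (K - 1)) =
        Matrix.det (Matrix.of fun μ i : Fin k => (P (e i).1).leadingCoeff *
          (Matrix.transpose (Matrix.vandermonde (fun i : Fin k => c ^ ((e i).1 : ℕ)))) μ i) := by
      rw [Matrix.det_apply, Matrix.det_apply, finsetSum_coeff]
      refine Finset.sum_congr rfl fun σ _ => ?_
      have h2 : (∏ i, D (σ i) i).coeff (k * (K - 1)) = ∏ i, (D (σ i) i).coeff (K - 1) := by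
        have h3 := coeff_prod_of_natDegree_le (s := (Finset.univ : Finset (Fin k)))
          (f := fun i => D (σ i) i) (n := K - 1) (fun i _ => hnd _ _)
        rw [Finset.card_univ, Fintype.card_fin] at h3
        exact h3
      have h4 : (∏ i, D (σ i) i).coeff (k * (K - 1)) = ∏ i, (Matrix.of fun μ i : Fin k =>
          (P (e i).1).leadingCoeff *
          (Matrix.transpose (Matrix.vandermonde (fun i : Fin k => c ^ ((e i).1 : ℕ)))) μ i) (σ i) i := by
        rw [h2]
        refine Finset.prod_congr rfl fun i _ => ?_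
        rw [hcf]
        rfl
      rw [coeff_smul, h4]
    rw [h1, Matrix.det_mul_row, Matrix.det_transpose]
    refine mul_ne_zero ?_ ?_
    · refine Finset.prod_ne_zero_iff.2 fun i _ => ?_
      exact leadingCoeff_ne_zero.2 (e i).2
    · rw [Matrix.det_vandermonde_ne_zero_iff]
      intro a b hab
      have h5 : |c| ^ ((e a).1 : ℕ) = |c| ^ ((e b).1 : ℕ) := by
        have h6 := congrArg abs hab
        simpa only [abs_pow] using h6
      have h7 : ((e a).1 : ℕ) = ((e b).1 : ℕ) := (pow_right_strictMono₀ hc).injective h5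
      exact e.injective (Subtype.ext (Fin.ext h7))
  -- the degree of the determinant
  have hdetdeg : D.det.natDegree ≤ k * (K - 1) := by
    rw [Matrix.det_apply]
    refine natDegree_sum_le_of_forall_le _ _ fun σ _ => ?_
    refine (natDegree_smul_le _ _).trans ?_
    refine (natDegree_prod_le _ _).trans ?_
    calc ∑ i, (D (σ i) i).natDegree ≤ ∑ _i : Fin k, (K - 1) :=
          Finset.sum_le_sum fun i _ => hnd _ _
      _ = k * (K - 1) := by simp
  -- vanishing
  have hvan : ∀ m ∈ Z, D.det.eval m = 0 := by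
    intro m hm
    have h1 : D.det.eval m = Matrix.det (Matrix.of fun μ i : Fin k =>
        m ^ (K - 1 - (P (e i).1).natDegree) *
          (Matrix.of fun μ i : Fin k => (P (e i).1).eval (m + h * ((μ : ℕ) : ℚ)) *
            c ^ ((μ : ℕ) * ((e i).1 : ℕ))) μ i) := by
      have h2 := RingHom.map_det (evalRingHom m) D
      rw [coe_evalRingHom] at h2
      rw [h2]
      congr 1
      ext μ i
      simp only [RingHom.mapMatrix_apply, Matrix.map_apply, coe_evalRingHom, Matrix.of_apply]
      change (((P (e i).1).comp (X + C (h * ((μ : ℕ) : ℚ))) *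
        C (c ^ ((μ : ℕ) * ((e i).1 : ℕ)))) * X ^ (K - 1 - (P (e i).1).natDegree)).eval m = _
      rw [eval_mul, eval_mul, eval_comp, eval_add, eval_X, eval_C, eval_C, eval_pow, eval_X]
      ring
    rw [h1, Matrix.det_mul_row]
    have h3 : Matrix.det (Matrix.of fun μ i : Fin k =>
        (P (e i).1).eval (m + h * ((μ : ℕ) : ℚ)) * c ^ ((μ : ℕ) * ((e i).1 : ℕ))) = 0 := by
      rw [← Matrix.exists_mulVec_eq_zero_iff]
      have hk0 : 0 < k := by
        have : Nonempty {j : Fin L // P j ≠ 0} := ⟨⟨j₀, hj₀⟩⟩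
        exact Fintype.card_pos
      refine ⟨fun i => w m ^ ((e i).1 : ℕ), ?_, ?_⟩
      · intro h4
        have h5 := congrFun h4 ⟨0, hk0⟩
        exact pow_ne_zero _ (hw m hm) h5
      · ext μ
        have h6 := h0 m hm μ (lt_of_lt_of_le μ.2 hkL)
        have h7 : ∑ j : Fin L, (P j).eval (m + h * ((μ : ℕ) : ℚ)) *
            (c ^ ((μ : ℕ) * (j : ℕ)) * (w m) ^ (j : ℕ)) =
            ∑ j : {j : Fin L // P j ≠ 0}, (P j.1).eval (m + h * ((μ : ℕ) : ℚ)) *
            (c ^ ((μ : ℕ) * (j.1 : ℕ)) * (w m) ^ (j.1 : ℕ)) := by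
          have h8 : ∑ j : Fin L, (P j).eval (m + h * ((μ : ℕ) : ℚ)) *
              (c ^ ((μ : ℕ) * (j : ℕ)) * (w m) ^ (j : ℕ)) =
              ∑ j ∈ Finset.univ.filter (fun j => P j ≠ 0),
              (P j).eval (m + h * ((μ : ℕ) : ℚ)) *
              (c ^ ((μ : ℕ) * (j : ℕ)) * (w m) ^ (j : ℕ)) := by
            symm
            refine Finset.sum_subset (Finset.subset_univ _) fun j _ hj => ?_
            have h9 : P j = 0 := by
              by_contra h10
              exact hj (Finset.mem_filter.2 ⟨Finset.mem_univ _, h10⟩)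
            rw [h9, eval_zero, zero_mul]
          rw [h8]
          refine Finset.sum_subtype _ (fun j => ?_) _
          simp
        have h11 : ∑ i : Fin k, (P (e i).1).eval (m + h * ((μ : ℕ) : ℚ)) *
            (c ^ ((μ : ℕ) * ((e i).1 : ℕ)) * (w m) ^ ((e i).1 : ℕ)) =
            ∑ j : {j : Fin L // P j ≠ 0}, (P j.1).eval (m + h * ((μ : ℕ) : ℚ)) *
            (c ^ ((μ : ℕ) * (j.1 : ℕ)) * (w m) ^ (j.1 : ℕ)) :=
          Equiv.sum_comp e (fun j : {j : Fin L // P j ≠ 0} =>
            (P j.1).eval (m + h * ((μ : ℕ) : ℚ)) *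
            (c ^ ((μ : ℕ) * (j.1 : ℕ)) * (w m) ^ (j.1 : ℕ)))
        simp only [Matrix.mulVec, dotProduct, Matrix.of_apply, Pi.zero_apply]
        rw [← h6, h7, ← h11]
        refine Finset.sum_congr rfl fun i _ => ?_
        ring
    rw [h3, mul_zero]
  have hzero : D.det = 0 := by
    refine eq_zero_of_natDegree_lt_card_of_eval_eq_zero' _ Z hvan ?_
    have h1 : k * (K - 1) ≤ L * (K - 1) := Nat.mul_le_mul_right _ hkL
    omega
  exact htop (by rw [hzero, coeff_zero])

end Pool.Agent.NL
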