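import Pool.Agent.NL.Ent
import Pool.Agent.NL.ZeroCore
import Pool.Agent.NL.Minor

/-!
There are columns with a non-zero interpolation determinant.
-/

namespace Pool.Agent.NL

open Finset Polynomial

/-- The functions `m ↦ binom(m, i)`, `i < K`, as rational polynomials. -/
theorem exists_choose_poly (i : ℕ) : ∃ F : ℚ[X], F.natDegree = i ∧ F ≠ 0 ∧
    ∀ m : ℕ, F.eval (m : ℚ) = (m.choose i : ℚ) := by
  have hi : ((i.factorial : ℕ) : ℚ) ≠ 0 := by exact_mod_cast i.factorial_ne_zero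
  have h1 : ∀ m : ℕ, (C ((i.factorial : ℚ)⁻¹) * descPochhammer ℚ i).eval (m : ℚ) =
      (m.choose i : ℚ) := by
    intro m
    rw [eval_mul, eval_C, descPochhammer_eval_eq_descFactorial,
      Nat.descFactorial_eq_factorial_mul_choose]
    push_cast
    field_simp
  refine ⟨C ((i.factorial : ℚ)⁻¹) * descPochhammer ℚ i, ?_, ?_, h1⟩
  · rw [natDegree_C_mul (inv_ne_zero hi)]
    exact descPochhammer_natDegree ℚ i
  · intro h0
    have h2 := h1 i
    rw [h0, eval_zero, Nat.choose_self] at h2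
    norm_num at h2

private theorem rows_indep {q K L R S : ℕ} (x y : ℤ) (hx : 3 ≤ x) (hy : y ≠ 0) (hK : 1 ≤ K)
    (hRq : R ≤ q) (hRS : L * (K - 1) < R * (S + 1 - L)) (v : Fin K × Fin L → ℚ)
    (hv : ∀ c : Fin R × Fin S, ∑ a, v a * (ent q R x y a.1 a.2 c.1 c.2 : ℚ) = 0) : v = 0 := by
  classical
  choose F hFdeg _ hF using exists_choose_poly
  have hR : 0 < R := by
    rcases Nat.eq_zero_or_pos R with h | h
    · subst h; simp at hRS
    · exact h
  have hq : 0 < q := lt_of_lt_of_le hR hRq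
  set c : ℚ := 1 - (x : ℚ) with hc
  have hxq : (3 : ℚ) ≤ (x : ℚ) := by exact_mod_cast hx
  have hc1 : 1 < |c| := by
    rw [abs_of_neg (by rw [hc]; linarith)]
    rw [hc]; linarith
  have hc0 : c ≠ 0 := by
    intro h
    rw [h, abs_zero] at hc1
    linarith
  have hyq : (y : ℚ) ≠ 0 := by exact_mod_cast hy
  let P : Fin L → ℚ[X] := fun j => ∑ i : Fin K, C (v (i, j)) * F i
  have hdeg : ∀ j, (P j).natDegree ≤ K - 1 := by
    intro j
    refine natDegree_sum_le_of_forall_le _ _ fun i _ => ?_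
    refine (natDegree_C_mul_le _ _).trans ?_
    rw [hFdeg]
    have := i.2
    omega
  have hPe : ∀ (j : Fin L) (n : ℕ), (P j).eval (n : ℚ) =
      ∑ i : Fin K, v (i, j) * ((n.choose i : ℕ) : ℚ) := by
    intro j n
    change (∑ i : Fin K, C (v (i, j)) * F i).eval (n : ℚ) = _
    rw [eval_finsetSum]
    refine Finset.sum_congr rfl fun i _ => ?_
    rw [eval_mul, eval_C, hF]
  let Z : Finset ℚ := (range R ×ˢ range (S + 1 - L)).image fun p => ((q * p.2 + p.1 : ℕ) : ℚ)
  have hmod : ∀ r s : ℕ, r < R → (q * s + r) % q = r := by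
    intro r s hr
    rw [Nat.mul_add_mod, Nat.mod_eq_of_lt (lt_of_lt_of_le hr hRq)]
  have hdiv : ∀ r s : ℕ, r < R → (q * s + r) / q = s := by
    intro r s hr
    rw [Nat.mul_add_div hq, Nat.div_eq_of_lt (lt_of_lt_of_le hr hRq), add_zero]
  have hZcard : Z.card = R * (S + 1 - L) := by
    rw [Finset.card_image_of_injOn, Finset.card_product, card_range, card_range]
    intro a ha b hb hab
    simp only [Finset.coe_product, Set.mem_prod, Finset.mem_coe, Finset.mem_range] at ha hb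
    have hab' : ((q * a.2 + a.1 : ℕ) : ℚ) = ((q * b.2 + b.1 : ℕ) : ℚ) := hab
    have h1 : q * a.2 + a.1 = q * b.2 + b.1 := by exact_mod_cast hab'
    refine Prod.ext ?_ ?_
    · rw [← hmod a.1 a.2 ha.1, h1, hmod b.1 b.2 hb.1]
    · rw [← hdiv a.1 a.2 ha.1, h1, hdiv b.1 b.2 hb.1]
  let w : ℚ → ℚ := fun m => (y : ℚ) ^ (R - 1 - ⌊m⌋₊ % q) * c ^ (⌊m⌋₊ / q)
  have hP := zero_core (K := K) (L := L) c (q : ℚ) hc1 P hdeg Z (by rw [hZcard]; exact hRS) w
    (fun m _ => mul_ne_zero (pow_ne_zero _ hyq) (pow_ne_zero _ hc0)) (by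
      intro m hm μ hμ
      obtain ⟨p, hp, rfl⟩ := Finset.mem_image.1 hm
      rw [Finset.mem_product, Finset.mem_range, Finset.mem_range] at hp
      have hs : p.2 + μ < S := by omega
      have h1 := hv (⟨p.1, hp.1⟩, ⟨p.2 + μ, hs⟩)
      have hw : w ((q * p.2 + p.1 : ℕ) : ℚ) = (y : ℚ) ^ (R - 1 - p.1) * c ^ p.2 := by
        change (y : ℚ) ^ (R - 1 - ⌊((q * p.2 + p.1 : ℕ) : ℚ)⌋₊ % q) *
          c ^ (⌊((q * p.2 + p.1 : ℕ) : ℚ)⌋₊ / q) = _
        rw [Nat.floor_natCast, hmod _ _ hp.1, hdiv _ _ hp.1]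
      rw [hw]
      have hm' : ((q * p.2 + p.1 : ℕ) : ℚ) + (q : ℚ) * (μ : ℚ) =
          ((q * (p.2 + μ) + p.1 : ℕ) : ℚ) := by
        push_cast; ring
      rw [hm']
      have h2 : ∀ j : Fin L, (P j).eval ((q * (p.2 + μ) + p.1 : ℕ) : ℚ) *
          (c ^ (μ * (j : ℕ)) * ((y : ℚ) ^ (R - 1 - p.1) * c ^ p.2) ^ (j : ℕ)) =
          ∑ i : Fin K, v (i, j) * (ent q R x y i j p.1 (p.2 + μ) : ℚ) := by
        intro j
        rw [hPe, Finset.sum_mul]
        refine Finset.sum_congr rfl fun i _ => ?_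
        unfold ent
        push_cast
        rw [← hc, pow_add]
        ring
      rw [Finset.sum_congr rfl fun j _ => h2 j, Finset.sum_comm, ← h1,
        ← Fintype.sum_prod_type' (f := fun (i : Fin K) (j : Fin L) =>
          v (i, j) * (ent q R x y i j p.1 (p.2 + μ) : ℚ))])
  have key : ∀ (n : ℕ) (hn : n < K) (j : Fin L), v (⟨n, hn⟩, j) = 0 := by
    intro n
    induction n using Nat.strong_induction_on with
    | _ n ih =>
      intro hn j
      have h1 := hPe j n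
      rw [hP j, eval_zero] at h1
      rw [Finset.sum_eq_single_of_mem (⟨n, hn⟩ : Fin K) (Finset.mem_univ _)] at h1
      · simpa using h1.symm
      · intro i _ hi
        rcases lt_trichotomy (i : ℕ) n with h2 | h2 | h2
        · have := ih i h2 i.2 j
          rw [show v (i, j) = 0 from this, zero_mul]
        · exact absurd (Fin.ext h2) hi
        · rw [Nat.choose_eq_zero_of_lt h2, Nat.cast_zero, mul_zero]
  funext a
  exact key a.1 a.1.2 a.2

theorem exists_cols {q K L R S : ℕ} (x y : ℤ) (hx : 3 ≤ x) (hy : y ≠ 0) (hK : 1 ≤ K) (hL : 1 ≤ L)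
    (hRq : R ≤ q) (hRS : L * (K - 1) < R * (S + 1 - L)) :
    ∃ cr cs : Fin K × Fin L → ℕ, (∀ c, cr c < R) ∧ (∀ c, cs c < S) ∧
      (mat q K L R x y cr cs).det ≠ 0 := by
  classical
  obtain ⟨f, hf⟩ := exists_minor (ι := Fin K × Fin L) (κ := Fin R × Fin S)
    (fun a c => (ent q R x y a.1 a.2 c.1 c.2 : ℚ))
    (fun v hv => rows_indep x y hx hy hK hRq hRS v hv)
  refine ⟨fun a => (f a).1, fun a => (f a).2, fun a => (f a).1.2, fun a => (f a).2.2, ?_⟩
  intro h0
  apply hf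
  have h1 := RingHom.map_det (Int.castRingHom ℚ)
    (mat q K L R x y (fun a => (f a).1) (fun a => (f a).2))
  rw [h0, map_zero] at h1
  rw [h1]
  rfl

end Pool.Agent.NL
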