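import Pool.Agent.NL.Divis
import Pool.Agent.NL.Zero
import Pool.Agent.NL.Size

/-!
The main inequality.

PLAN for real_ineq. Take logarithms in int_ineq. With g = L (L-1)/2 (exact, as a real number
L (L-1)/2; L (L-1) is even):
K^2 g log t <= log (K L)! + L sum_(i<K) log choose(q S, i) + K g (R log y + S log x).
log (K L)! <= K L log (K L) <= K L * 2 log K (L <= K) and 2 log K <= K (so log (KL)! <= K^2 L; any bound
giving the stated constant: total needed is log(KL)! + L K^2 <= 2 K^2 L, i.e. log (K L)! <= K^2 L, true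
since log(KL) <= 2 log K <= K); choose_bound: log choose(q S, i) <= i log q + K, sum_(i<K) <=
(K^2/2) log q + K^2 (some choose may be 0 only if q S < i; then handle: use the product inequality in the
form of real numbers before taking logs, i.e. prod choose <= prod (q^i exp K)).
y^q < x^n (rep_lt) so log y <= (n/q) log x. Divide by K^2 g = K^2 L (L-1)/2:
log t <= 2/(L-1) + (log q + 2)/(L-1) + ((R nu + S)/K) log x.
-/

namespace Pool.Agent.NL

open Finset

/-- The integer inequality. -/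
theorem int_ineq {t q n x y K L R S : ℕ} (ht : 1 < t) (hq : q.Coprime (t * t.totient))
    (hx : t ∣ x) (hx3 : 3 ≤ x) (hy : 1 ≤ y) (h : y ^ q = rep x n) (hM : K * L ≤ n) (hK : 1 ≤ K)
    (hL : 1 ≤ L) (hRq : R ≤ q) (hRS : L * (K - 1) < R * (S + 1 - L)) :
    t ^ (K ^ 2 * (L * (L - 1) / 2)) ≤
      (K * L).factorial * ((∏ i ∈ range K, (q * S).choose i) ^ L) *
        (y ^ R * x ^ S) ^ (K * (L * (L - 1) / 2)) := by
  obtain ⟨cr, cs, hcr, hcs, hdet⟩ := exists_cols (q := q) (K := K) (L := L) (R := R) (S := S)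
    (x : ℤ) (y : ℤ) (by exact_mod_cast hx3) (by exact_mod_cast (by omega : y ≠ 0)) hK hL hRq hRS
  have h1 := det_dvd_mat ht hq hx h hM hK hL cr cs hcr
  have h2 := abs_det_mat_le (q := q) (K := K) (L := L) (R := R) (S := S) (by omega : 2 ≤ x) hy hRq
    cr cs hcr hcs
  have h3 := Int.le_of_dvd (abs_pos.2 hdet) ((dvd_abs _ _).2 h1)
  have h4 := h3.trans h2
  exact_mod_cast h4

private theorem log_le_half (K : ℕ) (hK : 1 ≤ K) : ((K : ℝ) ^ 2) ≤ Real.exp K := by
  have hK0 : (0 : ℝ) < K := by exact_mod_cast hK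
  have h1 : Real.log ((K : ℝ) / 2) ≤ (K : ℝ) / 2 - 1 := Real.log_le_sub_one_of_pos (by positivity)
  have h2 : Real.log ((K : ℝ) / 2) = Real.log K - Real.log 2 :=
    Real.log_div hK0.ne' (by norm_num)
  have h3 : Real.log 2 < 0.6931471808 := Real.log_two_lt_d9
  have h4 : Real.log ((K : ℝ) ^ 2) ≤ K := by
    rw [Real.log_pow]
    push_cast
    linarith
  rwa [Real.log_le_iff_le_exp (by positivity)] at h4

private theorem fact_le (K L : ℕ) (hK : 1 ≤ K) (hLK : L ≤ K) :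
    (((K * L).factorial : ℕ) : ℝ) ≤ Real.exp ((K : ℝ) ^ 2 * L) := by
  have h1 : (((K * L).factorial : ℕ) : ℝ) ≤ ((K * L : ℕ) : ℝ) ^ (K * L) := by
    exact_mod_cast Nat.factorial_le_pow (K * L)
  have h2 : ((K * L : ℕ) : ℝ) ≤ (K : ℝ) ^ 2 := by
    have : K * L ≤ K ^ 2 := by
      rw [pow_two]
      exact Nat.mul_le_mul_left _ hLK
    exact_mod_cast this
  have h3 : ((K * L : ℕ) : ℝ) ≤ Real.exp K := h2.trans (log_le_half K hK)
  refine h1.trans ((pow_le_pow_left₀ (by positivity) h3 _).trans ?_)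
  rw [← Real.exp_nat_mul]
  apply le_of_eq
  congr 1
  push_cast
  ring

private theorem prod_le (q K S : ℕ) (hq : 1 ≤ q) (hK : 1 ≤ K) (hS : S ≤ K) :
    (∏ i ∈ range K, (((q * S).choose i : ℕ) : ℝ)) ≤
      Real.exp ((K : ℝ) ^ 2 / 2 * Real.log q + (K : ℝ) ^ 2) := by
  have hq0 : (0 : ℝ) < q := by exact_mod_cast hq
  have hlq : 0 ≤ Real.log q := Real.log_nonneg (by exact_mod_cast hq)
  have h1 : (∏ i ∈ range K, (((q * S).choose i : ℕ) : ℝ)) ≤
      ∏ i ∈ range K, Real.exp ((i : ℝ) * Real.log q + K) := by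
    refine Finset.prod_le_prod (fun i _ => by positivity) fun i hi => ?_
    have h2 := choose_bound (q := q) (S := S) (K := K) (i := i) hK hS
      (Finset.mem_range.1 hi).le
    refine h2.trans (le_of_eq ?_)
    rw [Real.exp_add, Real.exp_nat_mul, Real.exp_log hq0]
  refine h1.trans ?_
  rw [← Real.exp_sum, Real.exp_le_exp, Finset.sum_add_distrib, ← Finset.sum_mul]
  have h3 : (∑ i ∈ range K, (i : ℝ)) ≤ (K : ℝ) ^ 2 / 2 := by
    have h4 : ∀ k : ℕ, (∑ i ∈ range k, (i : ℝ)) = (k : ℝ) * (k - 1) / 2 := by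
      intro k
      induction k with
      | zero => simp
      | succ k ih => rw [Finset.sum_range_succ, ih]; push_cast; ring
    rw [h4]
    have : (0 : ℝ) ≤ K := by positivity
    nlinarith
  have h5 : (∑ i ∈ range K, (i : ℝ)) * Real.log q ≤ (K : ℝ) ^ 2 / 2 * Real.log q :=
    mul_le_mul_of_nonneg_right h3 hlq
  have h6 : (∑ _i ∈ range K, (K : ℝ)) = (K : ℝ) ^ 2 := by
    rw [Finset.sum_const, Finset.card_range, nsmul_eq_mul, pow_two]
  linarith

/-- The real inequality: `log t` is at most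
`(log q + 4) / (L - 1) + ((R ν + S) / K) log x`, where `ν = n / q`. -/
theorem real_ineq {t q n x y K L R S : ℕ} (ht : 1 < t) (hq : q.Coprime (t * t.totient))
    (hx : t ∣ x) (hx3 : 3 ≤ x) (hy : 1 ≤ y) (h : y ^ q = rep x n) (hM : K * L ≤ n) (hK : 1 ≤ K)
    (hL : 2 ≤ L) (hLK : L ≤ K) (hSK : S ≤ K) (hq1 : 1 ≤ q) (hRq : R ≤ q)
    (hRS : L * (K - 1) < R * (S + 1 - L)) :
    Real.log t ≤ (Real.log q + 4) / ((L : ℝ) - 1) +
      ((R : ℝ) * ((n : ℝ) / q) + S) / K * Real.log x := by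
  have hK0 : (0 : ℝ) < K := by exact_mod_cast hK
  have hL2 : (2 : ℝ) ≤ L := by exact_mod_cast hL
  have hq0 : (0 : ℝ) < q := by exact_mod_cast hq1
  have ht0 : (0 : ℝ) < t := by exact_mod_cast (by omega : 0 < t)
  have hx0 : (0 : ℝ) < x := by exact_mod_cast (by omega : 0 < x)
  have hy0 : (0 : ℝ) < y := by exact_mod_cast hy
  have hlx : 0 ≤ Real.log x := Real.log_nonneg (by exact_mod_cast (by omega : 1 ≤ x))
  have hnat := int_ineq ht hq hx hx3 hy h hM hK (by omega : 1 ≤ L) hRq hRS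
  obtain ⟨g, hg⟩ : ∃ g, g = L * (L - 1) / 2 := ⟨_, rfl⟩
  rw [← hg] at hnat
  have hgr : (g : ℝ) = (L : ℝ) * ((L : ℝ) - 1) / 2 := by
    have h1 : 2 * g = L * (L - 1) := by
      rw [hg]
      exact Nat.mul_div_cancel' (Nat.even_mul_pred_self L).two_dvd
    have h2 : (2 : ℝ) * g = (L : ℝ) * ((L - 1 : ℕ) : ℝ) := by exact_mod_cast h1
    rw [Nat.cast_sub (by omega : 1 ≤ L)] at h2
    push_cast at h2
    linarith
  have hg0 : (0 : ℝ) < g := by
    rw [hgr]
    have : (0 : ℝ) < (L : ℝ) - 1 := by linarith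
    positivity
  -- the size of y
  have hly : Real.log y ≤ (n : ℝ) / q * Real.log x := by
    have h1 : y ^ q < x ^ n := by rw [h]; exact rep_lt (by omega)
    have h2 : (y : ℝ) ^ q < (x : ℝ) ^ n := by exact_mod_cast h1
    have h3 : (q : ℝ) * Real.log y < n * Real.log x := by
      rw [← Real.log_pow, ← Real.log_pow]
      exact Real.log_lt_log (by positivity) h2
    rw [div_mul_eq_mul_div, le_div_iff₀ hq0]
    linarith
  -- cast
  have hreal : (t : ℝ) ^ (K ^ 2 * g) ≤ (((K * L).factorial : ℕ) : ℝ) *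
      (∏ i ∈ range K, (((q * S).choose i : ℕ) : ℝ)) ^ L *
        ((y : ℝ) ^ R * (x : ℝ) ^ S) ^ (K * g) := by
    exact_mod_cast hnat
  have hA := fact_le K L hK hLK
  have hB := prod_le q K S hq1 hK hSK
  have hB' : (∏ i ∈ range K, (((q * S).choose i : ℕ) : ℝ)) ^ L ≤
      Real.exp ((L : ℝ) * ((K : ℝ) ^ 2 / 2 * Real.log q + (K : ℝ) ^ 2)) := by
    rw [Real.exp_nat_mul]
    exact pow_le_pow_left₀ (Finset.prod_nonneg fun i _ => by positivity) hB L
  have hC : ((y : ℝ) ^ R * (x : ℝ) ^ S) ^ (K * g) =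
      Real.exp (((K : ℝ) * g) * ((R : ℝ) * Real.log y + (S : ℝ) * Real.log x)) := by
    have h1 : (y : ℝ) ^ R * (x : ℝ) ^ S =
        Real.exp ((R : ℝ) * Real.log y + (S : ℝ) * Real.log x) := by
      rw [Real.exp_add, Real.exp_nat_mul, Real.exp_nat_mul, Real.exp_log hy0, Real.exp_log hx0]
    rw [h1, ← Real.exp_nat_mul]
    congr 1
    push_cast
    ring
  have hT : (t : ℝ) ^ (K ^ 2 * g) = Real.exp (((K : ℝ) ^ 2 * g) * Real.log t) := by
    have h1 : (((K : ℝ) ^ 2 * g) * Real.log t) = ((K ^ 2 * g : ℕ) : ℝ) * Real.log t := by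
      push_cast
      ring
    rw [h1, Real.exp_nat_mul, Real.exp_log ht0]
  have hfin : Real.exp (((K : ℝ) ^ 2 * g) * Real.log t) ≤
      Real.exp ((K : ℝ) ^ 2 * L + (L : ℝ) * ((K : ℝ) ^ 2 / 2 * Real.log q + (K : ℝ) ^ 2) +
        ((K : ℝ) * g) * ((R : ℝ) * Real.log y + (S : ℝ) * Real.log x)) := by
    rw [← hT, Real.exp_add, Real.exp_add, ← hC]
    refine hreal.trans ?_
    refine mul_le_mul_of_nonneg_right ?_ (by positivity)
    exact mul_le_mul hA hB' (pow_nonneg (Finset.prod_nonneg fun i _ => by positivity) _)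
      (Real.exp_pos _).le
  rw [Real.exp_le_exp] at hfin
  have hRy : (R : ℝ) * Real.log y ≤ (R : ℝ) * ((n : ℝ) / q * Real.log x) :=
    mul_le_mul_of_nonneg_left hly (by positivity)
  have hD : ((K : ℝ) * g) * ((R : ℝ) * Real.log y + (S : ℝ) * Real.log x) ≤
      ((K : ℝ) * g) * ((R : ℝ) * ((n : ℝ) / q * Real.log x) + (S : ℝ) * Real.log x) :=
    mul_le_mul_of_nonneg_left (by linarith) (by positivity)
  have hpos : (0 : ℝ) < (K : ℝ) ^ 2 * g := by positivity
  have hL1 : (L : ℝ) - 1 ≠ 0 := by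
    have : (0 : ℝ) < (L : ℝ) - 1 := by linarith
    exact this.ne'
  have hE : ((K : ℝ) ^ 2 * g) * ((Real.log q + 4) / ((L : ℝ) - 1) +
      ((R : ℝ) * ((n : ℝ) / q) + S) / K * Real.log x) =
      (K : ℝ) ^ 2 * L + (L : ℝ) * ((K : ℝ) ^ 2 / 2 * Real.log q + (K : ℝ) ^ 2) +
        ((K : ℝ) * g) * ((R : ℝ) * ((n : ℝ) / q * Real.log x) + (S : ℝ) * Real.log x) := by
    rw [hgr]
    field_simp
    ring
  refine le_of_mul_le_mul_left ?_ hpos
  rw [hE]
  linarith

end Pool.Agent.NL
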