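import Pool.Agent.NL.Recip

/-!
Integers with two large prime factors p1 < p2 such that a large prime q divides
p1 (p1 - 1) and p2 (p2 - 1).

PLAN. Let Z = X^eps. If BadPair then (q prime): either (a) p1 % q = 1 and p2 % q = 1, or (b) q = p1 and
p1 | p2 - 1 (q = p2 is impossible since p2 > p1 - 1 >= 1, p2 does not divide p1 (p1 - 1); q = p1 and
q | p2 (p2-1), p1 <> p2 gives p1 | p2 - 1).
(b): the number of x <= X with p1 p2 | x is <= X/(p1 p2); p2 = j p1 + 1, so the total is at most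
sum_(p1 >= Z) X/p1^2 * (1 + log X) <= 2 X (1 + log X)/Z, which is <= (small) X for X large.
(a): at most X * sum_(q >= Q, q prime) (S_q)^2 with S_q = sum of 1/p over primes p % q = 1, Z <= p <= X.
For q^2 <= Z use recip_le: S_q <= C/(eps q), and sum_(q >= Q) 1/q^2 <= 2/Q. For q^2 > Z use
recip_trivial: S_q <= (1 + log X)/q, and sum_(q > sqrt Z) 1/q^2 <= 2/(sqrt Z - 1) or so:
total (1 + log X)^2 * 4/sqrt Z, tends to 0 as X -> infinity. (Only q <= X matter.)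
So the total is <= (2 C^2/(eps^2 Q)) X + o(X) <= (C'/(eps^2 Q)) X for X >= X0(eps, Q).
cnt can be bounded with cnt_le_card and a union bound (Finset.card_biUnion_le); the number of
multiples of d in [1, X] is X / d.
-/

namespace Pool.Agent.NL

open Finset

/-- Two large prime factors sharing a large prime `q` with `q ∣ p (p - 1)`. -/
def BadPair (ε : ℝ) (Q X x : ℕ) : Prop := ∃ q p₁ p₂ : ℕ, q.Prime ∧ Q ≤ q ∧ p₁.Prime ∧ p₂.Prime ∧
  p₁ < p₂ ∧ (X : ℝ) ^ ε ≤ p₁ ∧ p₁ * p₂ ∣ x ∧ q ∣ p₁ * (p₁ - 1) ∧ q ∣ p₂ * (p₂ - 1)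

private lemma invsq {Z : ℝ} (hZ : 0 < Z) (s : Finset ℕ) (h : ∀ n ∈ s, Z ≤ (n : ℝ)) :
    ∑ n ∈ s, 1 / (n : ℝ) ^ 2 ≤ 2 / Z := by
  obtain ⟨m, hm⟩ : ∃ m, ⌈Z⌉₊ = m + 1 := ⟨⌈Z⌉₊ - 1, by
    have := Nat.ceil_pos.2 hZ
    omega⟩
  have hsub : s ⊆ Ioo m (s.sup id + 1) := by
    intro n hn
    rw [mem_Ioo]
    constructor
    · have h1 : ⌈Z⌉₊ ≤ n := Nat.ceil_le.2 (h n hn)
      omega
    · have h2 : n ≤ s.sup id := Finset.le_sup (f := id) hn
      omega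
  have h1 : ∑ n ∈ s, 1 / (n : ℝ) ^ 2 ≤ ∑ n ∈ Ioo m (s.sup id + 1), 1 / (n : ℝ) ^ 2 :=
    Finset.sum_le_sum_of_subset_of_nonneg hsub fun i _ _ => by positivity
  have h2 : ∑ n ∈ Ioo m (s.sup id + 1), 1 / (n : ℝ) ^ 2 ≤ 2 / ((m : ℝ) + 1) := by
    have h3 := sum_Ioo_inv_sq_le (α := ℝ) m (s.sup id + 1)
    refine le_trans (le_of_eq ?_) h3
    refine Finset.sum_congr rfl fun i _ => ?_
    rw [one_div]
  have h3 : Z ≤ (m : ℝ) + 1 := by
    have := Nat.le_ceil Z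
    rw [hm] at this
    push_cast at this
    exact this
  calc _ ≤ 2 / ((m : ℝ) + 1) := h1.trans h2
    _ ≤ 2 / Z := div_le_div_of_nonneg_left (by norm_num) hZ h3

private def mult (X d : ℕ) : Finset ℕ := (Ioc 0 X).filter (d ∣ ·)

private lemma card_mult (X d : ℕ) : ((mult X d).card : ℝ) ≤ (X : ℝ) / d := by
  unfold mult
  rw [Nat.Ioc_filter_dvd_card_eq_div]
  exact Nat.cast_div_le

private noncomputable def PP (Z : ℝ) (q X : ℕ) : Finset ℕ :=
  (Icc 1 X).filter (fun p : ℕ => p.Prime ∧ p % q = 1 ∧ Z ≤ (p : ℝ))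

private lemma cases_bad {q p₁ p₂ : ℕ} (hq : q.Prime) (h1 : p₁.Prime) (h2 : p₂.Prime) (hlt : p₁ < p₂)
    (d1 : q ∣ p₁ * (p₁ - 1)) (d2 : q ∣ p₂ * (p₂ - 1)) :
    (p₁ % q = 1 ∧ p₂ % q = 1) ∨ p₁ ∣ p₂ - 1 := by
  have key : ∀ p : ℕ, p.Prime → q ∣ p - 1 → p % q = 1 := by
    intro p hp hd
    obtain ⟨k, hk⟩ := hd
    have hp1 := hp.one_lt
    have e : p = q * k + 1 := by omega
    rw [e, Nat.mul_add_mod]
    exact Nat.mod_eq_of_lt hq.one_lt
  have hp1 := h1.one_lt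
  have hp2 := h2.one_lt
  rcases (Nat.Prime.dvd_mul hq).1 d1 with h | h
  · have e : q = p₁ := (Nat.prime_dvd_prime_iff_eq hq h1).1 h
    rcases (Nat.Prime.dvd_mul hq).1 d2 with h' | h'
    · have e' : q = p₂ := (Nat.prime_dvd_prime_iff_eq hq h2).1 h'
      omega
    · right
      rw [← e]
      exact h'
  · rcases (Nat.Prime.dvd_mul hq).1 d2 with h' | h'
    · have e' : q = p₂ := (Nat.prime_dvd_prime_iff_eq hq h2).1 h'
      have := Nat.le_of_dvd (by omega) h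
      omega
    · exact Or.inl ⟨key p₁ h1 h, key p₂ h2 h'⟩

/-- Case (a). -/
private noncomputable def Fa (Z : ℝ) (Q X : ℕ) : Finset ℕ :=
  ((Icc Q X).filter Nat.Prime).biUnion fun q =>
    (PP Z q X ×ˢ PP Z q X).biUnion fun pp => mult X (pp.1 * pp.2)

/-- Case (b). -/
private noncomputable def Fb (Z : ℝ) (X : ℕ) : Finset ℕ :=
  ((Icc 1 X).filter (fun p : ℕ => Z ≤ (p : ℝ))).biUnion fun p =>
    (Icc 1 X).biUnion fun j => mult X (p * (p * j + 1))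

private lemma card_Fa (Z : ℝ) (Q X : ℕ) : ((Fa Z Q X).card : ℝ) ≤
    X * ∑ q ∈ (Icc Q X).filter Nat.Prime, (∑ p ∈ PP Z q X, 1 / (p : ℝ)) ^ 2 := by
  unfold Fa
  refine le_trans (Nat.cast_le.2 Finset.card_biUnion_le) ?_
  push_cast
  rw [Finset.mul_sum]
  refine Finset.sum_le_sum fun q _ => ?_
  refine le_trans (Nat.cast_le.2 Finset.card_biUnion_le) ?_
  push_cast
  rw [sq, Finset.sum_mul_sum, ← Finset.sum_product', Finset.mul_sum]
  refine Finset.sum_le_sum fun pp _ => ?_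
  refine (card_mult X _).trans (le_of_eq ?_)
  push_cast
  rw [one_div, one_div, ← mul_inv, div_eq_mul_inv]

private lemma harm (X : ℕ) : ∑ j ∈ Icc 1 X, 1 / (j : ℝ) ≤ 1 + Real.log X := by
  have h := harmonic_le_one_add_log X
  rw [harmonic_eq_sum_Icc] at h
  push_cast at h
  refine le_trans (le_of_eq ?_) h
  refine Finset.sum_congr rfl fun j _ => ?_
  rw [one_div]

private lemma card_Fb {Z : ℝ} (hZ : 0 < Z) {X : ℕ} (hX : 1 ≤ X) : ((Fb Z X).card : ℝ) ≤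
    X * ((1 + Real.log X) * (2 / Z)) := by
  have hlog : 0 ≤ 1 + Real.log X := by
    have := Real.log_nonneg (show (1 : ℝ) ≤ X by exact_mod_cast hX)
    linarith
  unfold Fb
  refine le_trans (Nat.cast_le.2 Finset.card_biUnion_le) ?_
  push_cast
  have h1 : ∀ p ∈ (Icc 1 X).filter (fun p : ℕ => Z ≤ (p : ℝ)),
      ((((Icc 1 X).biUnion fun j => mult X (p * (p * j + 1))).card : ℕ) : ℝ) ≤
        X * (1 + Real.log X) * (1 / (p : ℝ) ^ 2) := by
    intro p hp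
    rw [mem_filter, mem_Icc] at hp
    have hp0 : (0 : ℝ) < p := by exact_mod_cast (by omega : 0 < p)
    refine le_trans (Nat.cast_le.2 Finset.card_biUnion_le) ?_
    push_cast
    calc ∑ j ∈ Icc 1 X, ((mult X (p * (p * j + 1))).card : ℝ)
        ≤ ∑ j ∈ Icc 1 X, (X : ℝ) * (1 / (p : ℝ) ^ 2) * (1 / (j : ℝ)) := by
          refine Finset.sum_le_sum fun j hj => ?_
          rw [mem_Icc] at hj
          have hj0 : (0 : ℝ) < j := by exact_mod_cast (by omega : 0 < j)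
          refine (card_mult X _).trans ?_
          push_cast
          have e : (X : ℝ) * (1 / (p : ℝ) ^ 2) * (1 / (j : ℝ)) = X / (p * (p * j)) := by
            field_simp
          rw [e]
          refine div_le_div_of_nonneg_left (by positivity) (by positivity) ?_
          have : (p : ℝ) * (p * j) ≤ p * (p * j + 1) := by nlinarith
          exact this
      _ = (X : ℝ) * (1 / (p : ℝ) ^ 2) * ∑ j ∈ Icc 1 X, 1 / (j : ℝ) := by
          rw [Finset.mul_sum]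
      _ ≤ (X : ℝ) * (1 / (p : ℝ) ^ 2) * (1 + Real.log X) := by
          refine mul_le_mul_of_nonneg_left (harm X) (by positivity)
      _ = _ := by ring
  refine (Finset.sum_le_sum h1).trans ?_
  rw [← Finset.mul_sum]
  have h2 := invsq hZ ((Icc 1 X).filter (fun p : ℕ => Z ≤ (p : ℝ))) fun n hn => (mem_filter.1 hn).2
  calc (X : ℝ) * (1 + Real.log X) * ∑ p ∈ (Icc 1 X).filter (fun p : ℕ => Z ≤ (p : ℝ)), 1 / (p : ℝ) ^ 2
      ≤ (X : ℝ) * (1 + Real.log X) * (2 / Z) := mul_le_mul_of_nonneg_left h2 (by positivity)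
    _ = _ := by ring

private lemma cnt_bad {ε : ℝ} {Q X : ℕ} :
    (cnt {x | BadPair ε Q X x} X : ℝ) ≤ ((Fa ((X : ℝ) ^ ε) Q X).card : ℝ) +
      ((Fb ((X : ℝ) ^ ε) X).card : ℝ) := by
  have h : cnt {x | BadPair ε Q X x} X ≤ (Fa ((X : ℝ) ^ ε) Q X ∪ Fb ((X : ℝ) ^ ε) X).card := by
    refine cnt_le_card _ ?_
    rintro x ⟨q, p₁, p₂, hq, hQ, h1, h2, hlt, hZ, hd, d1, d2⟩ hx1 hxX
    have hp1 := h1.one_lt
    have hp2 := h2.one_lt
    have hle : p₁ * p₂ ≤ X := (Nat.le_of_dvd (by omega) hd).trans hxX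
    have hp2X : p₂ ≤ X := le_trans (Nat.le_mul_of_pos_left _ (by omega)) hle
    have hp1X : p₁ ≤ X := le_trans (by omega) hp2X
    have hxm : ∀ d, d ∣ x → x ∈ mult X d := by
      intro d hd
      unfold mult
      rw [mem_filter, mem_Ioc]
      exact ⟨⟨by omega, hxX⟩, hd⟩
    rw [mem_union]
    rcases cases_bad hq h1 h2 hlt d1 d2 with ⟨m1, m2⟩ | hdv
    · left
      unfold Fa
      rw [mem_biUnion]
      refine ⟨q, ?_, ?_⟩
      · rw [mem_filter, mem_Icc]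
        refine ⟨⟨hQ, ?_⟩, hq⟩
        by_contra hc
        rw [not_le] at hc
        rw [Nat.mod_eq_of_lt (by omega)] at m1
        omega
      · rw [mem_biUnion]
        refine ⟨(p₁, p₂), ?_, hxm _ hd⟩
        rw [mem_product]
        unfold PP
        constructor
        · rw [mem_filter, mem_Icc]
          exact ⟨⟨by omega, hp1X⟩, h1, m1, hZ⟩
        · rw [mem_filter, mem_Icc]
          refine ⟨⟨by omega, hp2X⟩, h2, m2, hZ.trans ?_⟩
          exact_mod_cast hlt.le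
    · right
      unfold Fb
      rw [mem_biUnion]
      refine ⟨p₁, ?_, ?_⟩
      · rw [mem_filter, mem_Icc]
        exact ⟨⟨by omega, hp1X⟩, hZ⟩
      · obtain ⟨j, hj⟩ := hdv
        rw [mem_biUnion]
        have e : p₂ = p₁ * j + 1 := by omega
        have hj1 : 1 ≤ j := by
          rcases Nat.eq_zero_or_pos j with h0 | h0
          · rw [h0] at hj
            omega
          · exact h0
        refine ⟨j, ?_, ?_⟩
        · rw [mem_Icc]
          refine ⟨hj1, ?_⟩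
          have : j ≤ p₁ * j := Nat.le_mul_of_pos_left _ (by omega)
          omega
        · rw [← e]
          exact hxm _ hd
  calc (cnt {x | BadPair ε Q X x} X : ℝ) ≤ ((Fa ((X : ℝ) ^ ε) Q X ∪ Fb ((X : ℝ) ^ ε) X).card : ℝ) := by
        exact_mod_cast h
    _ ≤ _ := by exact_mod_cast Finset.card_union_le _ _

private lemma sum_q {C : ℝ} (hC : 0 < C) (hrec : ∀ ε : ℝ, 0 < ε → ε ≤ 1 → ∀ q X : ℕ, q.Prime →
    (q : ℝ) ^ 2 ≤ (X : ℝ) ^ ε →
    ∑ p ∈ (Icc 1 X).filter (fun p : ℕ => p.Prime ∧ p % q = 1 ∧ (X : ℝ) ^ ε ≤ (p : ℝ)), 1 / (p : ℝ) ≤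
      C / (ε * q)) {ε : ℝ} (hε : 0 < ε) (hε1 : ε ≤ 1) {Q : ℕ} (hQ : 1 ≤ Q) {X : ℕ} (hX : 1 ≤ X) :
    ∑ q ∈ (Icc Q X).filter Nat.Prime, (∑ p ∈ PP ((X : ℝ) ^ ε) q X, 1 / (p : ℝ)) ^ 2 ≤
      2 * C ^ 2 / (ε ^ 2 * Q) + (1 + Real.log X) ^ 2 * (2 / Real.sqrt ((X : ℝ) ^ ε)) := by
  have hX0 : (0 : ℝ) < X := by exact_mod_cast (by omega : 0 < X)
  have hlog : 0 ≤ 1 + Real.log X := by
    have := Real.log_nonneg (show (1 : ℝ) ≤ X by exact_mod_cast hX)
    linarith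
  set Z : ℝ := (X : ℝ) ^ ε with hZdef
  have hZ : 0 < Z := Real.rpow_pos_of_pos hX0 _
  have hQ0 : (0 : ℝ) < Q := by exact_mod_cast (by omega : 0 < Q)
  rw [← Finset.sum_filter_add_sum_filter_not ((Icc Q X).filter Nat.Prime)
    (fun q : ℕ => (q : ℝ) ^ 2 ≤ Z)]
  refine add_le_add ?_ ?_
  · calc ∑ q ∈ ((Icc Q X).filter Nat.Prime).filter (fun q : ℕ => (q : ℝ) ^ 2 ≤ Z),
          (∑ p ∈ PP Z q X, 1 / (p : ℝ)) ^ 2
        ≤ ∑ q ∈ ((Icc Q X).filter Nat.Prime).filter (fun q : ℕ => (q : ℝ) ^ 2 ≤ Z),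
          C ^ 2 / ε ^ 2 * (1 / (q : ℝ) ^ 2) := by
          refine Finset.sum_le_sum fun q hq => ?_
          rw [mem_filter, mem_filter] at hq
          have h1 := hrec ε hε hε1 q X hq.1.2 hq.2
          have hq0 : (0 : ℝ) < q := by exact_mod_cast hq.1.2.pos
          have h0 : 0 ≤ ∑ p ∈ PP Z q X, 1 / (p : ℝ) := Finset.sum_nonneg fun p _ => by positivity
          have h2 : ∑ p ∈ PP Z q X, 1 / (p : ℝ) ≤ C / (ε * q) := h1
          calc (∑ p ∈ PP Z q X, 1 / (p : ℝ)) ^ 2 ≤ (C / (ε * q)) ^ 2 := by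
                exact pow_le_pow_left₀ h0 h2 2
            _ = C ^ 2 / ε ^ 2 * (1 / (q : ℝ) ^ 2) := by
                field_simp
      _ = C ^ 2 / ε ^ 2 * ∑ q ∈ ((Icc Q X).filter Nat.Prime).filter (fun q : ℕ => (q : ℝ) ^ 2 ≤ Z),
          1 / (q : ℝ) ^ 2 := by rw [Finset.mul_sum]
      _ ≤ C ^ 2 / ε ^ 2 * (2 / (Q : ℝ)) := by
          refine mul_le_mul_of_nonneg_left (invsq hQ0 _ fun n hn => ?_) (by positivity)
          rw [mem_filter, mem_filter, mem_Icc] at hn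
          exact_mod_cast hn.1.1.1
      _ = _ := by field_simp
  · calc ∑ q ∈ ((Icc Q X).filter Nat.Prime).filter (fun q : ℕ => ¬ (q : ℝ) ^ 2 ≤ Z),
          (∑ p ∈ PP Z q X, 1 / (p : ℝ)) ^ 2
        ≤ ∑ q ∈ ((Icc Q X).filter Nat.Prime).filter (fun q : ℕ => ¬ (q : ℝ) ^ 2 ≤ Z),
          (1 + Real.log X) ^ 2 * (1 / (q : ℝ) ^ 2) := by
          refine Finset.sum_le_sum fun q hq => ?_
          rw [mem_filter, mem_filter] at hq
          have hq0 : (0 : ℝ) < q := by exact_mod_cast hq.1.2.pos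
          have h1 := recip_trivial q X hq.1.2.one_lt hX
          have h0 : 0 ≤ ∑ p ∈ PP Z q X, 1 / (p : ℝ) := Finset.sum_nonneg fun p _ => by positivity
          have h2 : ∑ p ∈ PP Z q X, 1 / (p : ℝ) ≤ (1 + Real.log X) / q := by
            refine le_trans ?_ h1
            refine Finset.sum_le_sum_of_subset_of_nonneg ?_ fun i _ _ => by positivity
            intro p hp
            unfold PP at hp
            rw [mem_filter] at hp ⊢
            exact ⟨hp.1, hp.2.1, hp.2.2.1⟩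
          calc (∑ p ∈ PP Z q X, 1 / (p : ℝ)) ^ 2 ≤ ((1 + Real.log X) / q) ^ 2 := by
                exact pow_le_pow_left₀ h0 h2 2
            _ = (1 + Real.log X) ^ 2 * (1 / (q : ℝ) ^ 2) := by
                field_simp
      _ = (1 + Real.log X) ^ 2 * ∑ q ∈ ((Icc Q X).filter Nat.Prime).filter
          (fun q : ℕ => ¬ (q : ℝ) ^ 2 ≤ Z), 1 / (q : ℝ) ^ 2 := by rw [Finset.mul_sum]
      _ ≤ (1 + Real.log X) ^ 2 * (2 / Real.sqrt Z) := by
          refine mul_le_mul_of_nonneg_left (invsq (Real.sqrt_pos.2 hZ) _ fun n hn => ?_)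
            (by positivity)
          rw [mem_filter] at hn
          exact Real.sqrt_le_iff.2 ⟨by positivity, (not_le.1 hn.2).le⟩

private lemma lim_small {ε : ℝ} (hε : 0 < ε) {δ : ℝ} (hδ : 0 < δ) : ∃ X₀ : ℕ, 1 ≤ X₀ ∧ ∀ X : ℕ,
    X₀ ≤ X → (1 + Real.log X) ^ 2 * (2 / Real.sqrt ((X : ℝ) ^ ε)) +
      (1 + Real.log X) * (2 / (X : ℝ) ^ ε) ≤ δ := by
  have hlog : Filter.Tendsto (fun x : ℝ => Real.log x / x ^ (ε / 4)) Filter.atTop (nhds 0) :=
    (isLittleO_log_rpow_atTop (by positivity : 0 < ε / 4)).tendsto_div_nhds_zero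
  have hone : Filter.Tendsto (fun x : ℝ => x ^ (-(ε / 4))) Filter.atTop (nhds 0) :=
    tendsto_rpow_neg_atTop (by positivity)
  have h1 : Filter.Tendsto (fun x : ℝ => (x ^ (-(ε / 4)) + Real.log x / x ^ (ε / 4)))
      Filter.atTop (nhds 0) := by
    simpa using hone.add hlog
  have h2 : Filter.Tendsto (fun x : ℝ => 2 * (x ^ (-(ε / 4)) + Real.log x / x ^ (ε / 4)) ^ 2 +
      2 * (x ^ (-(ε / 4)) + Real.log x / x ^ (ε / 4))) Filter.atTop (nhds 0) := by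
    have h3 := ((h1.pow 2).const_mul 2).add (h1.const_mul 2)
    simpa using h3
  have h4 : ∀ᶠ x : ℝ in Filter.atTop, 2 * (x ^ (-(ε / 4)) + Real.log x / x ^ (ε / 4)) ^ 2 +
      2 * (x ^ (-(ε / 4)) + Real.log x / x ^ (ε / 4)) < δ := h2.eventually_lt_const hδ
  have h5 := (tendsto_natCast_atTop_atTop (R := ℝ)).eventually h4
  obtain ⟨X₁, hX₁⟩ := Filter.eventually_atTop.1 h5
  refine ⟨max X₁ 1, le_max_right _ _, fun X hX => ?_⟩
  have hX1 : 1 ≤ X := (le_max_right _ _).trans hX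
  have hX1' : (1 : ℝ) ≤ X := by exact_mod_cast hX1
  have hX0 : (0 : ℝ) < X := by linarith
  have h6 := hX₁ X ((le_max_left _ _).trans hX)
  refine le_trans ?_ h6.le
  have hl := Real.log_nonneg hX1'
  set a : ℝ := (X : ℝ) ^ (ε / 4) with ha
  have ha1 : 1 ≤ a := Real.one_le_rpow hX1' (by positivity)
  have ha0 : 0 < a := by linarith
  have e1 : (X : ℝ) ^ ε = a ^ 4 := by
    rw [ha, ← Real.rpow_natCast, ← Real.rpow_mul hX0.le]
    congr 1
    push_cast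
    ring
  have e2 : Real.sqrt ((X : ℝ) ^ ε) = a ^ 2 := by
    rw [e1, show a ^ 4 = (a ^ 2) ^ 2 by ring, Real.sqrt_sq (by positivity)]
  have e3 : (X : ℝ) ^ (-(ε / 4)) = 1 / a := by
    rw [Real.rpow_neg hX0.le, one_div]
  rw [e2, e1, e3]
  have e4 : 1 / a + Real.log X / a = (1 + Real.log X) / a := by
    field_simp
  rw [e4]
  refine add_le_add (le_of_eq ?_) ?_
  · field_simp
  · have h7 : (1 + Real.log X) * (2 / a ^ 4) = 2 * ((1 + Real.log X) / a ^ 4) := by ring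
    rw [h7]
    refine mul_le_mul_of_nonneg_left ?_ (by norm_num)
    refine div_le_div_of_nonneg_left (by linarith) ha0 ?_
    calc a = a ^ 1 := (pow_one a).symm
      _ ≤ a ^ 4 := pow_le_pow_right₀ ha1 (by norm_num)

theorem badPair_density : ∃ C : ℝ, 0 < C ∧ ∀ ε : ℝ, 0 < ε → ε ≤ 1 → ∀ Q : ℕ, 1 ≤ Q →
    ∃ X₀ : ℕ, ∀ X : ℕ, X₀ ≤ X → (cnt {x | BadPair ε Q X x} X : ℝ) ≤ C / (ε ^ 2 * Q) * X := by
  obtain ⟨C, hC, hrec⟩ := recip_le
  refine ⟨2 * C ^ 2 + 1, by positivity, fun ε hε hε1 Q hQ => ?_⟩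
  have hQ0 : (0 : ℝ) < Q := by exact_mod_cast (by omega : 0 < Q)
  obtain ⟨X₀, hX₀, hlim⟩ := lim_small hε (δ := 1 / (ε ^ 2 * Q)) (by positivity)
  refine ⟨X₀, fun X hX => ?_⟩
  have hX1 : 1 ≤ X := hX₀.trans hX
  have hX0 : (0 : ℝ) < X := by exact_mod_cast (by omega : 0 < X)
  have h1 := hlim X hX
  have h2 := card_Fa ((X : ℝ) ^ ε) Q X
  have h3 := card_Fb (Real.rpow_pos_of_pos hX0 ε) hX1
  have h4 := sum_q hC hrec hε hε1 hQ hX1
  have h5 := cnt_bad (ε := ε) (Q := Q) (X := X)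
  have h6 : (X : ℝ) * ∑ q ∈ (Icc Q X).filter Nat.Prime,
      (∑ p ∈ PP ((X : ℝ) ^ ε) q X, 1 / (p : ℝ)) ^ 2 ≤ X * (2 * C ^ 2 / (ε ^ 2 * Q) +
        (1 + Real.log X) ^ 2 * (2 / Real.sqrt ((X : ℝ) ^ ε))) :=
    mul_le_mul_of_nonneg_left h4 hX0.le
  have h7 : (X : ℝ) * ((1 + Real.log X) ^ 2 * (2 / Real.sqrt ((X : ℝ) ^ ε)) +
      (1 + Real.log X) * (2 / (X : ℝ) ^ ε)) ≤ X * (1 / (ε ^ 2 * Q)) :=
    mul_le_mul_of_nonneg_left h1 hX0.le
  have e : (2 * C ^ 2 + 1) / (ε ^ 2 * Q) * X = X * (2 * C ^ 2 / (ε ^ 2 * Q)) +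
      X * (1 / (ε ^ 2 * Q)) := by
    field_simp
  rw [e]
  linarith

end Pool.Agent.NL
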