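import Pool.Agent.NL.SmoothB

/-!
Integers without two distinct prime factors at least X ^ eps.

PLAN. Let z = ceil(X^eps), so a prime p satisfies p < z iff p < X^eps. Let x <= X be in the set. Cases:
(a) some prime p >= z has p^2 | x: at most sum_(p >= z) X/p^2 <= 2 X/(z-1) such x (small for X large).
(b) otherwise x = smp z x * r with r = 1 or r = a prime >= z (r is the product of the primes >= z
dividing x, each exactly once, at most one of them). (b1) smp z x > X^(1/4): card_smp_large: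
4 X (log z + 4)/log X with log z <= eps log X + 1: <= C eps X for X large. (b2) smp z x <= X^(1/4):
r = 1: x <= X^(1/4), negligible; r prime: card_smooth_mul_prime: C X log z/log X <= C' eps X.
All o(X) terms are absorbed for X >= X0(eps) since eps > 0 is fixed.
-/

namespace Pool.Agent.NL

open Finset

/-- Multiples of squares of integers at least `z`. -/
private theorem cnt_sq_le {z X : ℕ} (hz : 1 ≤ z) :
    (cnt {x | ∃ p : ℕ, p.Prime ∧ z ≤ p ∧ p ^ 2 ∣ x} X : ℝ) ≤ 2 * X / z := by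
  classical
  have h1 : cnt {x | ∃ p : ℕ, p.Prime ∧ z ≤ p ∧ p ^ 2 ∣ x} X ≤
      ((Ioo (z - 1) (X + 1)).biUnion (fun m => (Ioc 0 X).filter (fun x => m ^ 2 ∣ x))).card := by
    refine cnt_le_card _ ?_
    rintro x ⟨p, hp, hzp, hpx⟩ h1 h2
    simp only [mem_biUnion, mem_Ioo, mem_filter, mem_Ioc]
    have : p ^ 2 ≤ x := Nat.le_of_dvd (by omega) hpx
    have hp2 := hp.two_le
    exact ⟨p, ⟨by omega, by nlinarith⟩, ⟨by omega, h2⟩, hpx⟩
  have h2 : ((Ioo (z - 1) (X + 1)).biUnion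
      (fun m => (Ioc 0 X).filter (fun x => m ^ 2 ∣ x))).card ≤
      ∑ m ∈ Ioo (z - 1) (X + 1), X / m ^ 2 := by
    refine card_biUnion_le.trans (le_of_eq (sum_congr rfl fun m _ => ?_))
    exact Nat.Ioc_filter_dvd_card_eq_div X (m ^ 2)
  have h3 : ((∑ m ∈ Ioo (z - 1) (X + 1), X / m ^ 2 : ℕ) : ℝ) ≤
      ∑ m ∈ Ioo (z - 1) (X + 1), (X : ℝ) * ((m : ℝ) ^ 2)⁻¹ := by
    push_cast
    refine sum_le_sum fun m _ => ?_
    have := @Nat.cast_div_le ℝ _ _ _ X (m ^ 2)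
    rw [← div_eq_mul_inv]
    exact_mod_cast this
  have h4 := sum_Ioo_inv_sq_le (α := ℝ) (z - 1) (X + 1)
  have h5 : (((z - 1 : ℕ) : ℝ) + 1) = z := by
    rw [Nat.cast_sub hz]
    push_cast
    ring
  rw [h5] at h4
  calc (cnt {x | ∃ p : ℕ, p.Prime ∧ z ≤ p ∧ p ^ 2 ∣ x} X : ℝ)
      ≤ ((∑ m ∈ Ioo (z - 1) (X + 1), X / m ^ 2 : ℕ) : ℝ) := by exact_mod_cast h1.trans h2
    _ ≤ ∑ m ∈ Ioo (z - 1) (X + 1), (X : ℝ) * ((m : ℝ) ^ 2)⁻¹ := h3
    _ = X * ∑ m ∈ Ioo (z - 1) (X + 1), ((m : ℝ) ^ 2)⁻¹ := by rw [mul_sum]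
    _ ≤ X * (2 / z) := mul_le_mul_of_nonneg_left h4 (Nat.cast_nonneg _)
    _ = 2 * X / z := by ring

private theorem smp_mem (z x : ℕ) : smp z x ∈ Nat.smoothNumbers z := by
  rw [Nat.mem_smoothNumbers']
  intro p hp hpd
  unfold smp at hpd
  rw [Prime.dvd_finset_prod_iff hp.prime] at hpd
  obtain ⟨q, hq, hpq⟩ := hpd
  rw [mem_filter, mem_range] at hq
  have := (Nat.prime_dvd_prime_iff_eq hp hq.2).1 (hp.dvd_of_dvd_pow hpq)
  omega

/-- Splitting `x` into the smooth part and the rest. -/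
private theorem split {z x : ℕ} (hx : x ≠ 0) :
    x = smp z x * ∏ p ∈ x.primeFactors.filter (fun p => z ≤ p), p ^ x.factorization p := by
  classical
  have h1 : ∏ p ∈ x.primeFactors, p ^ x.factorization p = x := Nat.factorization_prod_pow_eq_self hx
  have h2 : smp z x = ∏ p ∈ x.primeFactors.filter (fun p => ¬ z ≤ p), p ^ x.factorization p := by
    unfold smp
    symm
    refine prod_subset ?_ ?_
    · intro p hp
      rw [mem_filter] at hp
      rw [mem_filter, mem_range]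
      exact ⟨by omega, Nat.prime_of_mem_primeFactors hp.1⟩
    · intro p hp hp2
      rw [mem_filter, mem_range] at hp
      have : x.factorization p = 0 := by
        by_contra h0
        apply hp2
        rw [mem_filter]
        refine ⟨?_, by omega⟩
        rw [← Nat.support_factorization, Finsupp.mem_support_iff]
        exact h0
      rw [this, pow_zero]
  rw [h2, mul_comm]
  rw [prod_filter_mul_prod_filter_not]
  exact h1.symm

private theorem rest_cases {z x : ℕ} (hx : x ≠ 0)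
    (hsq : ¬ ∃ p : ℕ, p.Prime ∧ z ≤ p ∧ p ^ 2 ∣ x)
    (htwo : ¬ ∃ p₁ p₂ : ℕ, p₁.Prime ∧ p₂.Prime ∧ p₁ < p₂ ∧ z ≤ p₁ ∧ p₁ * p₂ ∣ x) :
    x = smp z x ∨ ∃ p : ℕ, p.Prime ∧ x = smp z x * p := by
  classical
  have hs := split (z := z) hx
  set A := x.primeFactors.filter (fun p => z ≤ p) with hA
  have hcard : A.card ≤ 1 := by
    rw [card_le_one]
    intro a ha b hb
    by_contra hab
    rw [hA, mem_filter] at ha hb
    have hap := Nat.prime_of_mem_primeFactors ha.1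
    have hbp := Nat.prime_of_mem_primeFactors hb.1
    have had := Nat.dvd_of_mem_primeFactors ha.1
    have hbd := Nat.dvd_of_mem_primeFactors hb.1
    have hco : Nat.Coprime a b := (Nat.coprime_primes hap hbp).2 hab
    rcases lt_or_gt_of_ne hab with h | h
    · exact htwo ⟨a, b, hap, hbp, h, ha.2, hco.mul_dvd_of_dvd_of_dvd had hbd⟩
    · exact htwo ⟨b, a, hbp, hap, h, hb.2, hco.symm.mul_dvd_of_dvd_of_dvd hbd had⟩
  rcases Nat.le_one_iff_eq_zero_or_eq_one.1 hcard with h0 | h1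
  · left
    rw [card_eq_zero] at h0
    rw [h0, prod_empty, mul_one] at hs
    exact hs
  · right
    rw [card_eq_one] at h1
    obtain ⟨p, hp⟩ := h1
    have hpA : p ∈ A := by rw [hp]; exact mem_singleton_self p
    rw [hA, mem_filter] at hpA
    have hpp := Nat.prime_of_mem_primeFactors hpA.1
    have hfac : x.factorization p = 1 := by
      have h1 : 0 < x.factorization p :=
        hpp.factorization_pos_of_dvd hx (Nat.dvd_of_mem_primeFactors hpA.1)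
      have h2 : ¬ 2 ≤ x.factorization p := by
        intro h2
        exact hsq ⟨p, hpp, hpA.2, (hpp.pow_dvd_iff_le_factorization hx).2 h2⟩
      omega
    rw [hp, prod_singleton, hfac, pow_one] at hs
    exact ⟨p, hpp, hs⟩

theorem few_large_primes_density : ∃ C : ℝ, 0 < C ∧ ∀ ε : ℝ, 0 < ε → ε ≤ 1 →
    ∃ X₀ : ℕ, ∀ X : ℕ, X₀ ≤ X →
      (cnt {x | ¬ ∃ p₁ p₂ : ℕ, p₁.Prime ∧ p₂.Prime ∧ p₁ < p₂ ∧ (X : ℝ) ^ ε ≤ p₁ ∧ p₁ * p₂ ∣ x} X : ℝ) ≤
        C * ε * X := by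
  classical
  obtain ⟨C₁, hC₁, hsm⟩ := card_smooth_mul_prime
  refine ⟨2 * C₁ + 7, by positivity, ?_⟩
  intro ε hε hε1
  -- choose X₀
  obtain ⟨L, hL⟩ : ∃ L : ℝ, 0 < L ∧ 4 * (Real.log 2 + 4) ≤ ε * L ∧ Real.log 2 ≤ ε * L ∧
      Real.log (2 / ε) ≤ ε * L ∧ Real.log (1 / ε) ≤ (3 / 4) * L ∧ Real.log 16 ≤ L := by
    refine ⟨(4 * (Real.log 2 + 4) + |Real.log (2 / ε)| + 2 * |Real.log (1 / ε)| + Real.log 16) / ε,
      ?_, ?_, ?_, ?_, ?_, ?_⟩
    · have := Real.log_pos (by norm_num : (1 : ℝ) < 2)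
      have h16 := Real.log_pos (by norm_num : (1 : ℝ) < 16)
      positivity
    all_goals
      have h2 := Real.log_pos (by norm_num : (1 : ℝ) < 2)
      have h16 := Real.log_pos (by norm_num : (1 : ℝ) < 16)
      have ha := abs_nonneg (Real.log (2 / ε))
      have hb := abs_nonneg (Real.log (1 / ε))
      have hc := le_abs_self (Real.log (2 / ε))
      have hd := le_abs_self (Real.log (1 / ε))
    · rw [mul_div_cancel₀ _ hε.ne']; linarith
    · rw [mul_div_cancel₀ _ hε.ne']; linarith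
    · rw [mul_div_cancel₀ _ hε.ne']; linarith
    · have : (4 * (Real.log 2 + 4) + |Real.log (2 / ε)| + 2 * |Real.log (1 / ε)| + Real.log 16) ≤
          (4 * (Real.log 2 + 4) + |Real.log (2 / ε)| + 2 * |Real.log (1 / ε)| + Real.log 16) / ε := by
        rw [le_div_iff₀ hε]
        have hn : 0 ≤ (4 * (Real.log 2 + 4) + |Real.log (2 / ε)| + 2 * |Real.log (1 / ε)| +
          Real.log 16) := by positivity
        nlinarith
      linarith
    · have : (4 * (Real.log 2 + 4) + |Real.log (2 / ε)| + 2 * |Real.log (1 / ε)| + Real.log 16) ≤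
          (4 * (Real.log 2 + 4) + |Real.log (2 / ε)| + 2 * |Real.log (1 / ε)| + Real.log 16) / ε := by
        rw [le_div_iff₀ hε]
        have hn : 0 ≤ (4 * (Real.log 2 + 4) + |Real.log (2 / ε)| + 2 * |Real.log (1 / ε)| +
          Real.log 16) := by positivity
        nlinarith
      linarith
  obtain ⟨hL0, hL1, hL2, hL3, hL4, hL5⟩ := hL
  refine ⟨⌈Real.exp L⌉₊, fun X hX => ?_⟩
  have hXexp : Real.exp L ≤ X := (Nat.le_ceil _).trans (by exact_mod_cast hX)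
  have hX0 : (0 : ℝ) < X := (Real.exp_pos L).trans_le hXexp
  have hlogX : L ≤ Real.log X := (Real.le_log_iff_exp_le hX0).2 hXexp
  have hlog0 : 0 < Real.log X := hL0.trans_le hlogX
  have hX16r : (16 : ℝ) ≤ X := by
    have : Real.log 16 ≤ Real.log X := hL5.trans hlogX
    exact (Real.log_le_log_iff (by norm_num) hX0).1 this
  have hX16 : 16 ≤ X := by exact_mod_cast hX16r
  set z : ℕ := ⌈(X : ℝ) ^ ε⌉₊ with hz
  have hXε : (1 : ℝ) ≤ (X : ℝ) ^ ε := Real.one_le_rpow (by linarith) hε.le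
  have hXε2 : (2 : ℝ) ≤ (X : ℝ) ^ ε := by
    rw [← Real.log_le_log_iff (by norm_num) (by linarith), Real.log_rpow hX0]
    exact hL2.trans (mul_le_mul_of_nonneg_left hlogX hε.le)
  have hzle : ((X : ℝ) ^ ε) ≤ z := Nat.le_ceil _
  have hz2 : 2 ≤ z := by
    have : (2 : ℝ) ≤ z := hXε2.trans hzle
    exact_mod_cast this
  have hzup : (z : ℝ) ≤ 2 * (X : ℝ) ^ ε := by
    have := Nat.ceil_lt_add_one (by linarith : (0 : ℝ) ≤ (X : ℝ) ^ ε)
    rw [← hz] at this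
    linarith
  have hlogz : Real.log z ≤ ε * Real.log X + Real.log 2 := by
    have h1 : Real.log z ≤ Real.log (2 * (X : ℝ) ^ ε) :=
      Real.log_le_log (by positivity) hzup
    rw [Real.log_mul (by norm_num) (by positivity), Real.log_rpow hX0] at h1
    linarith
  have hlogz0 : 0 ≤ Real.log z := Real.log_natCast_nonneg z
  have hεlog : ε * L ≤ ε * Real.log X := mul_le_mul_of_nonneg_left hlogX hε.le
  -- the four sets
  set T₁ : Set ℕ := {x | ∃ p : ℕ, p.Prime ∧ z ≤ p ∧ p ^ 2 ∣ x} with hT₁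
  set T₂ : Set ℕ := {x | (X : ℝ) ^ ((1 : ℝ) / 4) < smp z x} with hT₂
  set T₃ : Set ℕ := {x | (x : ℝ) ≤ (X : ℝ) ^ ((1 : ℝ) / 4)} with hT₃
  set T₄ : Set ℕ := {x | ∃ s p : ℕ, p.Prime ∧ x = s * p ∧ (s : ℝ) ≤ (X : ℝ) ^ ((1 : ℝ) / 4) ∧
      s ∈ Nat.smoothNumbers z} with hT₄
  set S : Set ℕ := {x | ¬ ∃ p₁ p₂ : ℕ, p₁.Prime ∧ p₂.Prime ∧ p₁ < p₂ ∧ (X : ℝ) ^ ε ≤ p₁ ∧
      p₁ * p₂ ∣ x} with hS
  have hsub : S ⊆ {0} ∪ (T₁ ∪ (T₂ ∪ (T₃ ∪ T₄))) := by
    intro x hx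
    rcases Nat.eq_zero_or_pos x with hx0 | hxpos
    · left; exact hx0
    right
    by_cases h1 : x ∈ T₁
    · exact Or.inl h1
    right
    by_cases h2 : x ∈ T₂
    · exact Or.inl h2
    right
    have h2' : (smp z x : ℝ) ≤ (X : ℝ) ^ ((1 : ℝ) / 4) := not_lt.1 h2
    have htwo : ¬ ∃ p₁ p₂ : ℕ, p₁.Prime ∧ p₂.Prime ∧ p₁ < p₂ ∧ z ≤ p₁ ∧ p₁ * p₂ ∣ x := by
      rintro ⟨p₁, p₂, hp₁, hp₂, h12, hzp, hd⟩
      refine hx ⟨p₁, p₂, hp₁, hp₂, h12, ?_, hd⟩
      exact hzle.trans (by exact_mod_cast hzp)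
    rcases rest_cases (z := z) (by omega) h1 htwo with h | ⟨p, hp, h⟩
    · left
      show (x : ℝ) ≤ _
      rw [h]
      exact h2'
    · right
      exact ⟨smp z x, p, hp, h, h2', smp_mem z x⟩
  have c1 : (cnt T₁ X : ℝ) ≤ 2 * X / z := cnt_sq_le (by omega)
  have c1' : 2 * (X : ℝ) / z ≤ ε * X := by
    have hz0 : (0 : ℝ) < z := by positivity
    rw [div_le_iff₀ hz0]
    have h2z : 2 / ε ≤ z := by
      refine le_trans ?_ hzle
      rw [← Real.log_le_log_iff (by positivity) (by linarith), Real.log_rpow hX0]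
      exact hL3.trans hεlog
    rw [div_le_iff₀ hε] at h2z
    nlinarith
  have c2 : (cnt T₂ X : ℝ) ≤ 4 * X * (Real.log z + 4) / Real.log X := by
    have e := cnt_eq_card (fun x => (X : ℝ) ^ ((1 : ℝ) / 4) < smp z x) X
    have := card_smp_large (z := z) (X := X) (by omega) (by omega)
    rw [hT₂, e]
    exact this
  have c2' : 4 * (X : ℝ) * (Real.log z + 4) / Real.log X ≤ 5 * ε * X := by
    rw [div_le_iff₀ hlog0]
    have h1 : 4 * (Real.log z + 4) ≤ 5 * ε * Real.log X := by linarith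
    nlinarith
  have c3 : (cnt T₃ X : ℝ) ≤ ε * X := by
    have h1 : cnt T₃ X ≤ ⌊(X : ℝ) ^ ((1 : ℝ) / 4)⌋₊ := by
      refine (cnt_le_card (Icc 1 ⌊(X : ℝ) ^ ((1 : ℝ) / 4)⌋₊) ?_).trans ?_
      · intro x hx h1 _
        rw [mem_Icc]
        exact ⟨h1, Nat.le_floor hx⟩
      · simp
    have h2 : (⌊(X : ℝ) ^ ((1 : ℝ) / 4)⌋₊ : ℝ) ≤ (X : ℝ) ^ ((1 : ℝ) / 4) :=
      Nat.floor_le (by positivity)
    have h3 : (X : ℝ) ^ ((1 : ℝ) / 4) ≤ ε * X := by
      have h4 : (1 / ε) ≤ (X : ℝ) ^ ((3 : ℝ) / 4) := by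
        rw [← Real.log_le_log_iff (by positivity) (by positivity), Real.log_rpow hX0]
        exact hL4.trans (mul_le_mul_of_nonneg_left hlogX (by norm_num))
      have h5 : (X : ℝ) = (X : ℝ) ^ ((1 : ℝ) / 4) * (X : ℝ) ^ ((3 : ℝ) / 4) := by
        rw [← Real.rpow_add hX0]
        norm_num
      have h6 : 0 < (X : ℝ) ^ ((1 : ℝ) / 4) := by positivity
      rw [div_le_iff₀ hε] at h4
      calc (X : ℝ) ^ ((1 : ℝ) / 4) = (X : ℝ) ^ ((1 : ℝ) / 4) * 1 := by ring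
        _ ≤ (X : ℝ) ^ ((1 : ℝ) / 4) * ((X : ℝ) ^ ((3 : ℝ) / 4) * ε) :=
            mul_le_mul_of_nonneg_left h4 h6.le
        _ = ε * ((X : ℝ) ^ ((1 : ℝ) / 4) * (X : ℝ) ^ ((3 : ℝ) / 4)) := by ring
        _ = ε * X := by rw [← h5]
    calc (cnt T₃ X : ℝ) ≤ (⌊(X : ℝ) ^ ((1 : ℝ) / 4)⌋₊ : ℝ) := by exact_mod_cast h1
      _ ≤ _ := h2.trans h3
  have c4 : (cnt T₄ X : ℝ) ≤ C₁ * X * Real.log z / Real.log X := hsm z X hz2 hX16
  have c4' : C₁ * (X : ℝ) * Real.log z / Real.log X ≤ 2 * C₁ * ε * X := by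
    rw [div_le_iff₀ hlog0]
    have h1 : Real.log z ≤ 2 * ε * Real.log X := by linarith
    have h2 : 0 ≤ C₁ * (X : ℝ) := by positivity
    calc C₁ * (X : ℝ) * Real.log z ≤ C₁ * (X : ℝ) * (2 * ε * Real.log X) :=
          mul_le_mul_of_nonneg_left h1 h2
      _ = 2 * C₁ * ε * X * Real.log X := by ring
  have c0 : cnt ({0} : Set ℕ) X = 0 := by
    unfold cnt
    have : ({0} : Set ℕ) ∩ Set.Icc 1 X = ∅ := by
      ext x
      simp only [Set.mem_inter_iff, Set.mem_singleton_iff, Set.mem_Icc, Set.mem_empty_iff_false,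
        iff_false, not_and]
      omega
    rw [this, Set.ncard_empty]
  have hall : cnt S X ≤ cnt ({0} : Set ℕ) X + (cnt T₁ X + (cnt T₂ X + (cnt T₃ X + cnt T₄ X))) := by
    refine (cnt_mono hsub X).trans ((cnt_union_le _ _ _).trans (Nat.add_le_add_left ?_ _))
    refine (cnt_union_le _ _ _).trans (Nat.add_le_add_left ?_ _)
    refine (cnt_union_le _ _ _).trans (Nat.add_le_add_left ?_ _)
    exact cnt_union_le _ _ _
  rw [c0, zero_add] at hall
  have hallr : (cnt S X : ℝ) ≤ cnt T₁ X + (cnt T₂ X + (cnt T₃ X + cnt T₄ X)) := by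
    exact_mod_cast hall
  nlinarith [hallr, c1, c1', c2, c2', c3, c4, c4', mul_pos hε hX0]

end Pool.Agent.NL
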