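import Pool.Agent.NL.LargeExp
import Pool.Agent.NL.Pairs
import Pool.Agent.NL.Smooth

/-!
The upper density of the bases of solutions with a large exponent is small.
-/

namespace Pool.Agent.NL

open Finset

theorem base_large_prime {ε : ℝ} (hε : 0 < ε) {Q : ℕ} (hQ : ∀ q : ℕ, Q ≤ q →
    ∀ x y n t : ℕ, 3 ≤ x → 2 ≤ y → y ^ q = rep x n → t ∣ x → q.Coprime (t * t.totient) →
    (t : ℝ) < (x : ℝ) ^ ε) {q x X : ℕ} (hq : q.Prime) (hQq : Q ≤ q) (hx3 : 3 ≤ x) (hxX : x ≤ X)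
    (hB : Base q x) {p : ℕ} (hp : p.Prime) (hpx : p ∣ x) (hpX : (X : ℝ) ^ ε ≤ p) :
    q ∣ p * (p - 1) := by
  by_contra hc
  obtain ⟨y, n, h1, h2, h3, h4⟩ := hB
  have hco : q.Coprime (p * p.totient) := by
    rw [Nat.totient_prime hp]
    exact (Nat.Prime.coprime_iff_not_dvd hq).2 hc
  have h5 := hQ q hQq x y n p hx3 h2 h4 hpx hco
  have h6 : (x : ℝ) ^ ε ≤ (X : ℝ) ^ ε :=
    Real.rpow_le_rpow (by positivity) (by exact_mod_cast hxX) hε.le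
  linarith

theorem large_q_density : ∀ δ : ℝ, 0 < δ → ∃ Q N₀ : ℕ, ∀ N : ℕ, N₀ ≤ N →
    (cnt {x | ∃ q, q.Prime ∧ Q ≤ q ∧ Base q x} N : ℝ) ≤ δ * N := by
  intro δ hδ
  obtain ⟨C₁, hC₁, hP⟩ := badPair_density
  obtain ⟨C₂, hC₂, hS⟩ := few_large_primes_density
  -- choose ε
  set ε : ℝ := min (1 / 2) (δ / (4 * C₂)) with hεdef
  have hε : 0 < ε := lt_min (by norm_num) (by positivity)
  have hε1 : ε < 1 := lt_of_le_of_lt (min_le_left _ _) (by norm_num)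
  have hεC : C₂ * ε ≤ δ / 4 := by
    have : ε ≤ δ / (4 * C₂) := min_le_right _ _
    calc C₂ * ε ≤ C₂ * (δ / (4 * C₂)) := mul_le_mul_of_nonneg_left this hC₂.le
      _ = δ / 4 := by field_simp
  obtain ⟨Q₀, hQ₀⟩ := large_exponent ε hε hε1
  obtain ⟨Q₁, hQ₁⟩ := exists_nat_ge (4 * C₁ / (ε ^ 2 * δ))
  set Q := max (max Q₀ Q₁) 1 with hQdef
  have hQ1 : 1 ≤ Q := le_max_right _ _
  have hQQ₀ : Q₀ ≤ Q := (le_max_left _ _).trans (le_max_left _ _)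
  have hQQ₁ : Q₁ ≤ Q := (le_max_right _ _).trans (le_max_left _ _)
  obtain ⟨X₁, hX₁⟩ := hP ε hε hε1.le Q hQ1
  obtain ⟨X₂, hX₂⟩ := hS ε hε hε1.le
  obtain ⟨X₃, hX₃⟩ := exists_nat_ge (3 * 4 / δ)
  refine ⟨Q, max (max X₁ X₂) X₃, fun N hN => ?_⟩
  have h1 := hX₁ N ((le_max_left _ _).trans ((le_max_left _ _).trans hN))
  have h2 := hX₂ N ((le_max_right _ _).trans ((le_max_left _ _).trans hN))
  have h3 : (X₃ : ℝ) ≤ N := by exact_mod_cast (le_max_right _ _).trans hN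
  set T := {x | ¬ ∃ p₁ p₂ : ℕ, p₁.Prime ∧ p₂.Prime ∧ p₁ < p₂ ∧ (N : ℝ) ^ ε ≤ p₁ ∧ p₁ * p₂ ∣ x} with hT
  set T' := {x | BadPair ε Q N x} with hT'
  have hQr : (Q₁ : ℝ) ≤ Q := by exact_mod_cast hQQ₁
  have hQpos : (0 : ℝ) < Q := by exact_mod_cast hQ1
  have h4 : C₁ / (ε ^ 2 * Q) ≤ δ / 4 := by
    have h5 : 4 * C₁ / (ε ^ 2 * δ) ≤ Q := hQ₁.trans hQr
    rw [div_le_iff₀ (by positivity)] at h5 ⊢
    nlinarith
  have hN0 : (0 : ℝ) ≤ N := Nat.cast_nonneg N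
  -- the set is covered
  have hcov : cnt ({x | ∃ q, q.Prime ∧ Q ≤ q ∧ Base q x} ∩ {x | x ≤ N}) N ≤
      cnt (({x | x < 3} ∪ T) ∪ T') N := by
    apply cnt_mono
    rintro x ⟨⟨q, hq, hQq, hB⟩, hxN⟩
    by_cases hx3 : x < 3
    · exact Or.inl (Or.inl hx3)
    · by_cases hxT : x ∈ T
      · exact Or.inl (Or.inr hxT)
      · right
        rw [hT, Set.mem_ofPred_eq, not_not] at hxT
        obtain ⟨p₁, p₂, hp₁, hp₂, hlt, hp₁X, hdvd⟩ := hxT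
        have hp₂X : (N : ℝ) ^ ε ≤ p₂ := hp₁X.trans (by exact_mod_cast hlt.le)
        have hQ₀' := fun q' (h : Q₀ ≤ q') => hQ₀ q' h
        exact ⟨q, p₁, p₂, hq, hQq, hp₁, hp₂, hlt, hp₁X, hdvd,
          base_large_prime hε hQ₀' hq (hQQ₀.trans hQq) (by omega) hxN hB hp₁
            ((Dvd.intro _ rfl).trans hdvd) hp₁X,
          base_large_prime hε hQ₀' hq (hQQ₀.trans hQq) (by omega) hxN hB hp₂
            ((Dvd.intro_left _ rfl).trans hdvd) hp₂X⟩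
  have hcov2 : cnt {x | ∃ q, q.Prime ∧ Q ≤ q ∧ Base q x} N =
      cnt ({x | ∃ q, q.Prime ∧ Q ≤ q ∧ Base q x} ∩ {x | x ≤ N}) N := by
    unfold cnt
    congr 1
    ext x
    constructor
    · rintro ⟨h, h'⟩; exact ⟨⟨h, h'.2⟩, h'⟩
    · rintro ⟨⟨h, _⟩, h'⟩; exact ⟨h, h'⟩
  have h6 : cnt {x : ℕ | x < 3} N ≤ 3 := cnt_le_of_bounded (fun x hx => hx) N
  have h7 : cnt (({x | x < 3} ∪ T) ∪ T') N ≤ cnt {x : ℕ | x < 3} N + cnt T N + cnt T' N :=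
    (cnt_union_le _ _ _).trans (Nat.add_le_add_right (cnt_union_le _ _ _) _)
  have h8 : (cnt {x | ∃ q, q.Prime ∧ Q ≤ q ∧ Base q x} N : ℝ) ≤ 3 + cnt T N + cnt T' N := by
    rw [hcov2]
    have : cnt ({x | ∃ q, q.Prime ∧ Q ≤ q ∧ Base q x} ∩ {x | x ≤ N}) N ≤ 3 + cnt T N + cnt T' N := by
      omega
    exact_mod_cast this
  have h9 : (3 : ℝ) ≤ δ / 4 * N := by
    have : 3 * 4 / δ ≤ N := hX₃.trans h3
    rw [div_le_iff₀ hδ] at this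
    linarith
  have h10 : C₂ * ε * N ≤ δ / 4 * N := mul_le_mul_of_nonneg_right hεC hN0
  have h11 : C₁ / (ε ^ 2 * Q) * N ≤ δ / 4 * N := mul_le_mul_of_nonneg_right h4 hN0
  nlinarith

end Pool.Agent.NL
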