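import Mathlib

/-!
Pade approximants of (1 - X)^nu: the formal identity.

PLAN for pade_identity. Both A = PA nu N and W = binS nu * PA (-nu) N (power series) satisfy the
hypergeometric equation with a = -N - nu, b = -N, c = -2N:
  X (1-X) w'' + (c - (a+b+1) X) w' - a b w = 0.
For A: the coefficients satisfy (k+1)(k+c) A_(k+1) = (k+a)(k+b) A_k (direct from the formula; also at
k = N: both sides 0). For W = f B, f = binS nu, (1-X) f' = -nu f (coefficients of Ring.choose), and B =
PA (-nu) N satisfies the equation with a' = -N + nu, b' = -N, c' = -2N; combine (Euler transformation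
F(a,b;c) = (1-X)^(c-a-b) F(c-a,c-b;c), here c - a - b = nu, c - a = -N + nu, c - b = -N). Then
D = A - f B satisfies (k+1)(k+c) D_(k+1) = (k+a)(k+b) D_k, D_0 = choose(2N,N) - choose(2N,N) = 0 and
k + c = k - 2N <> 0 for k < 2N: D_0 = ... = D_(2N) = 0.
Alternative: any other proof of sum_i binom(N-nu,i) binom(2N-i,N) binom(nu,k-i) =
binom(N+nu,k) binom(2N-k,N) for all k <= 2N (polynomial identity in nu, enough for infinitely many
natural nu; checked numerically).
pade_wronskian: from the identity for N and N+1 the left side is divisible by X^(2N+1) (eliminate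
binS), it has degree <= 2N+1, and its coefficient of X^(2N+1) is a_N b_(N+1) - a_(N+1) b_N with leading
coefficients a_N = (-1)^N choose(N+nu,N) etc., choose(N+1-nu,N+1) = choose(N-nu,N)(N+1-nu)/(N+1).
-/

namespace Pool.Agent.NL

open Finset

/-- Numerator: `∑ k ≤ N, binom(N + ν, k) binom(2N - k, N) (-X)^k`. -/
noncomputable def PA (ν : ℚ) (N : ℕ) : Polynomial ℚ :=
  ∑ k ∈ range (N + 1), Polynomial.monomial k
    ((-1) ^ k * Ring.choose ((N : ℚ) + ν) k * ((2 * N - k).choose N : ℚ))

/-- `(1 - X) ^ ν` as a formal power series. -/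
noncomputable def binS (ν : ℚ) : PowerSeries ℚ := PowerSeries.mk fun k => (-1) ^ k * Ring.choose ν k

private lemma inner_sum (ν μ : ℚ) (k m : ℕ) (hm : m ≤ k) :
    ∑ i ∈ range (k + 1), Ring.choose ν i * (i.choose m : ℚ) * Ring.choose μ (k - i) =
      Ring.choose ν m * Ring.choose (ν + μ - m) (k - m) := by
  obtain ⟨c, rfl⟩ := Nat.exists_eq_add_of_le hm
  have h0 : ∑ i ∈ range m, Ring.choose ν i * (i.choose m : ℚ) * Ring.choose μ (m + c - i) = 0 := by
    refine sum_eq_zero fun i hi => ?_
    rw [Nat.choose_eq_zero_of_lt (mem_range.mp hi)]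
    simp
  have h1 : ∀ i ∈ range (c + 1),
      Ring.choose ν (m + i) * ((m + i).choose m : ℚ) * Ring.choose μ (m + c - (m + i)) =
        Ring.choose ν m * (Ring.choose (ν - m) i * Ring.choose μ (c - i)) := by
    intro i _
    have h2 := Ring.choose_smul_choose ν (Nat.le_add_right m i)
    rw [nsmul_eq_mul, Nat.add_sub_cancel_left] at h2
    have h3 : m + c - (m + i) = c - i := by omega
    rw [h3, mul_comm (Ring.choose ν (m + i)), h2]
    ring
  have h4 : Ring.choose ((ν - m) + μ) c =
      ∑ i ∈ range (c + 1), Ring.choose (ν - m) i * Ring.choose μ (c - i) := by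
    rw [Ring.add_choose_eq c (Commute.all _ _)]
    exact Finset.Nat.sum_antidiagonal_eq_sum_range_succ
      (fun i j => Ring.choose (ν - (m : ℚ)) i * Ring.choose μ j) c
  rw [add_assoc, sum_range_add, h0, zero_add, sum_congr rfl h1, ← mul_sum, ← h4,
    Nat.add_sub_cancel_left]
  have h5 : ν + μ - (m : ℚ) = ν - m + μ := by ring
  rw [h5]

private lemma inner_sum_zero (ν μ : ℚ) (k m : ℕ) (hm : k < m) :
    ∑ i ∈ range (k + 1), Ring.choose ν i * (i.choose m : ℚ) * Ring.choose μ (k - i) = 0 := by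
  refine sum_eq_zero fun i hi => ?_
  rw [Nat.choose_eq_zero_of_lt (by have := mem_range.mp hi; omega)]
  simp

private lemma nat_id (N k m l : ℕ) (hN : m + l = N) (hk : k ≤ 2 * N) (hm : m ≤ k) :
    (2 * N - k).choose l * l.choose (k - m) = (2 * N - k).choose N * N.choose (k - m) := by
  rcases le_or_gt k N with h | h
  · have h1 : (2 * N - k).choose l * l.choose (k - m) =
        (2 * N - k).choose (k - m) * (2 * N - k - (k - m)).choose (l - (k - m)) :=
      Nat.choose_mul (by omega)
    have h2 : (2 * N - k).choose N * N.choose (k - m) =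
        (2 * N - k).choose (k - m) * (2 * N - k - (k - m)).choose (N - (k - m)) :=
      Nat.choose_mul (by omega)
    have h3 : (2 * N - k - (k - m)).choose (l - (k - m)) =
        (2 * N - k - (k - m)).choose (N - (k - m)) := by
      rw [← Nat.choose_symm (n := 2 * N - k - (k - m)) (k := N - (k - m)) (by omega)]
      have h4 : 2 * N - k - (k - m) - (N - (k - m)) = l - (k - m) := by omega
      rw [h4]
    rw [h1, h2, h3]
  · rw [Nat.choose_eq_zero_of_lt (show l < k - m by omega),
      Nat.choose_eq_zero_of_lt (show 2 * N - k < N by omega)]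
    simp

private lemma key (ν : ℚ) (N k : ℕ) (hk : k ≤ 2 * N) :
    ∑ i ∈ range (k + 1), Ring.choose ν i *
        (Ring.choose ((N : ℚ) - ν) (k - i) * ((2 * N - (k - i)).choose N : ℚ)) =
      Ring.choose ((N : ℚ) + ν) k * ((2 * N - k).choose N : ℚ) := by
  have h1 : ∀ i ∈ range (k + 1), Ring.choose ν i *
        (Ring.choose ((N : ℚ) - ν) (k - i) * ((2 * N - (k - i)).choose N : ℚ)) =
      ∑ m ∈ range (N + 1), ((2 * N - k).choose (N - m) : ℚ) *
        (Ring.choose ν i * (i.choose m : ℚ) * Ring.choose ((N : ℚ) - ν) (k - i)) := by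
    intro i hi
    have hi' := mem_range.mp hi
    have h2 : 2 * N - (k - i) = i + (2 * N - k) := by omega
    have h3 : ((i + (2 * N - k)).choose N : ℚ) =
        ∑ m ∈ range (N + 1), (i.choose m : ℚ) * ((2 * N - k).choose (N - m) : ℚ) := by
      rw [Nat.add_choose_eq,
        Finset.Nat.sum_antidiagonal_eq_sum_range_succ
          (fun a b => i.choose a * (2 * N - k).choose b) N]
      push_cast
      rfl
    rw [h2, h3, mul_sum, mul_sum]
    refine sum_congr rfl fun m _ => ?_
    ring
  rw [sum_congr rfl h1, sum_comm]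
  have h4 : ∀ m ∈ range (N + 1),
      ∑ i ∈ range (k + 1), ((2 * N - k).choose (N - m) : ℚ) *
        (Ring.choose ν i * (i.choose m : ℚ) * Ring.choose ((N : ℚ) - ν) (k - i)) =
      if m ≤ k then ((2 * N - k).choose N : ℚ) * (Ring.choose ν m * (N.choose (k - m) : ℚ))
        else 0 := by
    intro m hm
    have hm' : m ≤ N := by have := mem_range.mp hm; omega
    rw [← mul_sum]
    split_ifs with h
    · rw [inner_sum ν _ k m h]
      have h5 : ν + ((N : ℚ) - ν) - m = ((N - m : ℕ) : ℚ) := by
        rw [Nat.cast_sub hm']; ring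
      rw [h5, Ring.choose_natCast]
      have h6 := nat_id N k m (N - m) (by omega) hk h
      have h7 : ((2 * N - k).choose (N - m) : ℚ) * ((N - m).choose (k - m) : ℚ) =
          ((2 * N - k).choose N : ℚ) * (N.choose (k - m) : ℚ) := by exact_mod_cast h6
      linear_combination (Ring.choose ν m) * h7
    · rw [inner_sum_zero ν _ k m (by omega), mul_zero]
  rw [sum_congr rfl h4]
  rcases le_or_gt k N with h | h
  · have h8 : Ring.choose ((N : ℚ) + ν) k =
        ∑ m ∈ range (k + 1), Ring.choose ν m * (N.choose (k - m) : ℚ) := by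
      rw [add_comm, Ring.add_choose_eq k (Commute.all _ _),
        Finset.Nat.sum_antidiagonal_eq_sum_range_succ
          (fun i j => Ring.choose ν i * Ring.choose (N : ℚ) j) k]
      refine sum_congr rfl fun m _ => ?_
      rw [Ring.choose_natCast]
    obtain ⟨c, rfl⟩ := Nat.exists_eq_add_of_le h
    rw [h8, show k + c + 1 = (k + 1) + c by ring, sum_range_add]
    have h9 : ∑ x ∈ range c, (if k + 1 + x ≤ k then
        ((2 * (k + c) - k).choose (k + c) : ℚ) *
          (Ring.choose ν (k + 1 + x) * ((k + c).choose (k - (k + 1 + x)) : ℚ)) else 0) = 0 := by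
      refine sum_eq_zero fun x _ => ?_
      rw [if_neg (by omega)]
    rw [h9, add_zero, sum_mul]
    refine sum_congr rfl fun m hm => ?_
    rw [if_pos (by have := mem_range.mp hm; omega)]
    ring
  · rw [Nat.choose_eq_zero_of_lt (show 2 * N - k < N by omega)]
    simp

private lemma coeff_PA (ν : ℚ) (N k : ℕ) (hk : k ≤ 2 * N) :
    (PA ν N).coeff k = (-1) ^ k * Ring.choose ((N : ℚ) + ν) k * ((2 * N - k).choose N : ℚ) := by
  unfold PA
  rw [Polynomial.finsetSum_coeff]
  simp only [Polynomial.coeff_monomial]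
  rcases le_or_gt k N with h | h
  · rw [Finset.sum_ite_eq' (range (N + 1)) k, if_pos (mem_range.mpr (by omega))]
  · rw [Nat.choose_eq_zero_of_lt (show 2 * N - k < N by omega)]
    rw [Finset.sum_ite_eq' (range (N + 1)) k, if_neg (by rw [mem_range]; omega)]
    simp

private lemma degree_PA (ν : ℚ) (N : ℕ) : (PA ν N).natDegree ≤ N := by
  unfold PA
  refine Polynomial.natDegree_sum_le_of_forall_le _ _ fun k hk => ?_
  exact (Polynomial.natDegree_monomial_le _).trans (by have := mem_range.mp hk; omega)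

/-- `PA ν N - (1 - X)^ν * PA (-ν) N = O(X^(2N+1))`. -/
theorem pade_identity (ν : ℚ) (N : ℕ) :
    (PowerSeries.X : PowerSeries ℚ) ^ (2 * N + 1) ∣
      (PA ν N : PowerSeries ℚ) - binS ν * (PA (-ν) N : PowerSeries ℚ) := by
  rw [PowerSeries.X_pow_dvd_iff]
  intro k hk
  have hk' : k ≤ 2 * N := by omega
  rw [map_sub, Polynomial.coeff_coe, coeff_PA ν N k hk', PowerSeries.coeff_mul,
    Finset.Nat.sum_antidiagonal_eq_sum_range_succ
      (fun i j => PowerSeries.coeff i (binS ν) * PowerSeries.coeff j (PA (-ν) N : PowerSeries ℚ)) k,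
    sub_eq_zero, mul_assoc, ← key ν N k hk', mul_sum]
  refine sum_congr rfl fun i hi => ?_
  have hi' := mem_range.mp hi
  rw [Polynomial.coeff_coe, coeff_PA (-ν) N (k - i) (by omega)]
  unfold binS
  rw [PowerSeries.coeff_mk]
  have h1 : ((-1 : ℚ)) ^ k = (-1) ^ i * (-1) ^ (k - i) := by
    rw [← pow_add]; congr 1; omega
  rw [h1, ← sub_eq_add_neg]
  ring

private lemma choose_succ_mul (x : ℚ) (N : ℕ) :
    Ring.choose (x + 1) (N + 1) = Ring.choose x N * ((x + 1) / (N + 1)) := by
  have h := Ring.choose_smul_choose (x + 1) (show 1 ≤ N + 1 by omega)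
  rw [nsmul_eq_mul, Nat.choose_one_right, Ring.choose_one_right, Nat.add_sub_cancel] at h
  have h1 : (x + 1 - ((1 : ℕ) : ℚ)) = x := by push_cast; ring
  rw [h1] at h
  have h2 : ((N + 1 : ℕ) : ℚ) ≠ 0 := by positivity
  have h3 : ((N + 1 : ℕ) : ℚ) = (N : ℚ) + 1 := by push_cast; ring
  rw [h3] at h h2
  field_simp
  linear_combination h

/-- Consecutive approximants are independent. -/
theorem pade_wronskian (ν : ℚ) (N : ℕ) :
    PA ν N * PA (-ν) (N + 1) - PA ν (N + 1) * PA (-ν) N =
      Polynomial.monomial (2 * N + 1)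
        (-(Ring.choose ((N : ℚ) + ν) N * Ring.choose ((N : ℚ) - ν) N * (-2 * ν / (N + 1)))) := by
  set D := PA ν N * PA (-ν) (N + 1) - PA ν (N + 1) * PA (-ν) N with hD
  have h1 : (PowerSeries.X : PowerSeries ℚ) ^ (2 * N + 1) ∣ (D : PowerSeries ℚ) := by
    have e1 := pade_identity ν N
    have e2 := (pow_dvd_pow (PowerSeries.X : PowerSeries ℚ)
      (show 2 * N + 1 ≤ 2 * (N + 1) + 1 by omega)).trans (pade_identity ν (N + 1))
    have e3 := dvd_sub (e1.mul_right (PA (-ν) (N + 1) : PowerSeries ℚ))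
      (e2.mul_right (PA (-ν) N : PowerSeries ℚ))
    have e4 : (D : PowerSeries ℚ) =
        ((PA ν N : PowerSeries ℚ) - binS ν * (PA (-ν) N : PowerSeries ℚ)) *
          (PA (-ν) (N + 1) : PowerSeries ℚ) -
        ((PA ν (N + 1) : PowerSeries ℚ) - binS ν * (PA (-ν) (N + 1) : PowerSeries ℚ)) *
          (PA (-ν) N : PowerSeries ℚ) := by
      rw [hD]
      push_cast
      ring
    rw [e4]
    exact e3
  have h2 : D.natDegree ≤ 2 * N + 1 := by
    rw [hD]
    refine (Polynomial.natDegree_sub_le _ _).trans (max_le ?_ ?_)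
    · refine Polynomial.natDegree_mul_le.trans ?_
      have a1 := degree_PA ν N
      have a2 := degree_PA (-ν) (N + 1)
      omega
    · refine Polynomial.natDegree_mul_le.trans ?_
      have a1 := degree_PA ν (N + 1)
      have a2 := degree_PA (-ν) N
      omega
  have h3 : ∀ k, k < 2 * N + 1 → D.coeff k = 0 := by
    intro k hk
    have := (PowerSeries.X_pow_dvd_iff.mp h1) k hk
    rwa [Polynomial.coeff_coe] at this
  have h4 : D.coeff (2 * N + 1) =
      (PA ν N).coeff N * (PA (-ν) (N + 1)).coeff (N + 1) -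
        (PA ν (N + 1)).coeff (N + 1) * (PA (-ν) N).coeff N := by
    rw [hD, Polynomial.coeff_sub]
    have b1 := Polynomial.coeff_mul_add_eq_of_natDegree_le (degree_PA ν N)
      (degree_PA (-ν) (N + 1))
    have b2 := Polynomial.coeff_mul_add_eq_of_natDegree_le (degree_PA ν (N + 1))
      (degree_PA (-ν) N)
    rw [show 2 * N + 1 = N + (N + 1) by ring, b1, show N + (N + 1) = (N + 1) + N by ring, b2]
  have h5 : D.coeff (2 * N + 1) =
      -(Ring.choose ((N : ℚ) + ν) N * Ring.choose ((N : ℚ) - ν) N * (-2 * ν / (N + 1))) := by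
    rw [h4, coeff_PA ν N N (by omega), coeff_PA (-ν) (N + 1) (N + 1) (by omega),
      coeff_PA ν (N + 1) (N + 1) (by omega), coeff_PA (-ν) N N (by omega)]
    have c1 : 2 * N - N = N := by omega
    have c2 : 2 * (N + 1) - (N + 1) = N + 1 := by omega
    rw [c1, c2, Nat.choose_self, Nat.choose_self]
    have c3 : ((N + 1 : ℕ) : ℚ) + -ν = ((N : ℚ) - ν) + 1 := by push_cast; ring
    have c4 : ((N + 1 : ℕ) : ℚ) + ν = ((N : ℚ) + ν) + 1 := by push_cast; ring
    have c5 : (N : ℚ) + -ν = (N : ℚ) - ν := by ring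
    rw [c3, c4, c5, choose_succ_mul, choose_succ_mul]
    have c6 : ((-1 : ℚ)) ^ N * (-1) ^ (N + 1) = -1 := by
      rw [← pow_add, show N + (N + 1) = 2 * N + 1 by ring, pow_succ, pow_mul]
      norm_num
    have c7 : ((N : ℚ) + 1) ≠ 0 := by positivity
    have c8 : Ring.choose ((N : ℚ) + ν) N * Ring.choose ((N : ℚ) - ν) N *
        (((N : ℚ) - ν + 1) / (N + 1) - ((N : ℚ) + ν + 1) / (N + 1)) =
        Ring.choose ((N : ℚ) + ν) N * Ring.choose ((N : ℚ) - ν) N * (-2 * ν / (N + 1)) := by
      field_simp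
      ring
    push_cast
    linear_combination (Ring.choose ((N : ℚ) + ν) N * Ring.choose ((N : ℚ) - ν) N *
        (((N : ℚ) - ν + 1) / (N + 1) - ((N : ℚ) + ν + 1) / (N + 1))) * c6 - c8
  ext k
  rw [Polynomial.coeff_monomial]
  rcases lt_trichotomy k (2 * N + 1) with h | h | h
  · rw [h3 k h, if_neg (by omega)]
  · rw [if_pos h.symm, h, h5]
  · rw [if_neg (by omega), Polynomial.coeff_eq_zero_of_natDegree_lt (by omega)]

end Pool.Agent.NL
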