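import Pool.Agent.NL.PadeCoef

/-!
The real remainder.

PLAN. hasSum_binS: Mathlib/Analysis/Analytic/Binomial.lean (Real.one_add_rpow_hasFPowerSeriesOnBall_zero,
with binomialSeries) at the point -z; relate Ring.choose over the reals and over the rationals
(Ring.map_choose). remainder_le: pade_identity says that the coefficients of A - f B up to 2N vanish;
for k >= 2N+1 the coefficient of f B is sum_(i<=N) B_i f_(k-i), at most (N+1) 8^(N+1) in absolute
value (PA_coeff_le, abs_choose_inv_le). Evaluate: f(z) B(z) = sum_k (f B)_k z^k (finite sum of shifted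
HasSum), A(z) - f(z) B(z) = - sum_(k >= 2N+1) (fB)_k z^k, and sum_(k>=2N+1) z^k = z^(2N+1)/(1-z)
<= 2 z^(2N+1).
-/

namespace Pool.Agent.NL

open Finset

private theorem hsc {f g : ℕ → ℝ} {a : ℝ} (h : ∀ k, f k = g k) (hg : HasSum g a) : HasSum f a := by
  rw [show f = g from funext h]
  exact hg

/-- The binomial series for `(1 - z) ^ (1 / q)`. -/
theorem hasSum_binS (q : ℕ) (hq : 1 ≤ q) (z : ℝ) (hz0 : 0 ≤ z) (hz1 : z < 1) :
    HasSum (fun k : ℕ => ((((-1) ^ k * Ring.choose ((1 : ℚ) / q) k : ℚ)) : ℝ) * z ^ k)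
      ((1 - z) ^ ((1 : ℝ) / q)) := by
  have h := (Real.one_add_rpow_hasFPowerSeriesOnBall_zero (a := (1 : ℝ) / q)).hasSum
    (y := -z) (by
      rw [← ENNReal.ofReal_one, Metric.eball_ofReal]
      simp [abs_of_nonneg hz0, hz1])
  rw [zero_add, ← sub_eq_add_neg] at h
  refine hsc (fun k => ?_) h
  have hc : ((Ring.choose ((1 : ℚ) / q) k : ℚ) : ℝ) = Ring.choose ((1 : ℝ) / q) k := by
    have := Ring.map_choose (algebraMap ℚ ℝ) ((1 : ℚ) / q) k
    simpa using this
  rw [binomialSeries_apply]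
  simp only [List.ofFn_const, List.prod_replicate, smul_eq_mul]
  push_cast
  rw [hc, neg_pow z k]
  ring

/-- A power series times a polynomial, coefficientwise. -/
private theorem coeff_binS_mul (ν : ℚ) (P : Polynomial ℚ) (N k : ℕ) (hP : P.natDegree < N + 1) :
    PowerSeries.coeff k (binS ν * (P : PowerSeries ℚ)) =
      ∑ j ∈ range (N + 1), if j ≤ k then P.coeff j * ((-1) ^ (k - j) * Ring.choose ν (k - j))
        else 0 := by
  rw [mul_comm, PowerSeries.coeff_mul, Finset.Nat.sum_antidiagonal_eq_sum_range_succ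
    (fun i j => PowerSeries.coeff i (P : PowerSeries ℚ) * PowerSeries.coeff j (binS ν))]
  simp only [Polynomial.coeff_coe, binS, PowerSeries.coeff_mk]
  rw [← Finset.sum_filter]
  have h1 : ∑ j ∈ range k.succ, P.coeff j * ((-1) ^ (k - j) * Ring.choose ν (k - j)) =
      ∑ j ∈ (range k.succ).filter (fun j => j < N + 1),
        P.coeff j * ((-1) ^ (k - j) * Ring.choose ν (k - j)) := by
    rw [Finset.sum_filter]
    refine sum_congr rfl fun j _ => ?_
    split_ifs with h
    · rfl
    · rw [Polynomial.coeff_eq_zero_of_natDegree_lt (by omega), zero_mul]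
  rw [h1]
  refine sum_congr ?_ fun _ _ => rfl
  ext j
  simp only [mem_filter, mem_range]
  omega

private theorem natDegree_PA (ν : ℚ) (N : ℕ) : (PA ν N).natDegree < N + 1 := by
  rw [Nat.lt_succ_iff]
  unfold PA
  refine Polynomial.natDegree_sum_le_of_forall_le _ _ fun k hk => ?_
  exact (Polynomial.natDegree_monomial_le _).trans (by
    have := mem_range.1 hk
    omega)

theorem remainder_le (q : ℕ) (hq : 2 ≤ q) (N : ℕ) (z : ℝ) (hz0 : 0 < z) (hz1 : z ≤ 1 / 2) :
    |Polynomial.aeval z (PA ((1 : ℚ) / q) N) -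
      (1 - z) ^ ((1 : ℝ) / q) * Polynomial.aeval z (PA (-((1 : ℚ) / q)) N)| ≤
      2 * (N + 1) * 8 ^ (N + 1) * z ^ (2 * N + 1) := by
  set ν : ℚ := (1 : ℚ) / q with hν
  set A := PA ν N with hA
  set B := PA (-ν) N with hB
  set F : ℝ := (1 - z) ^ ((1 : ℝ) / q) with hF
  -- the rational coefficients of the product
  set g : ℕ → ℚ := fun k => ∑ j ∈ range (N + 1),
    if j ≤ k then B.coeff j * ((-1) ^ (k - j) * Ring.choose ν (k - j)) else 0 with hg
  have hsum : HasSum (fun k => ((g k : ℚ) : ℝ) * z ^ k) (F * Polynomial.aeval z B) := by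
    have h0 := hasSum_binS q (by omega) z hz0.le (by linarith)
    have h1 : ∀ j ∈ range (N + 1), HasSum (fun k : ℕ => (((if j ≤ k then
        B.coeff j * ((-1) ^ (k - j) * Ring.choose ν (k - j)) else 0 : ℚ)) : ℝ) * z ^ k)
        (((B.coeff j : ℚ) : ℝ) * z ^ j * F) := by
      intro j _
      rw [← hasSum_nat_add_iff' j]
      have e1 : ∑ i ∈ range j, (((if j ≤ i then
          B.coeff j * ((-1) ^ (i - j) * Ring.choose ν (i - j)) else 0 : ℚ)) : ℝ) * z ^ i = 0 := by
        refine sum_eq_zero fun i hi => ?_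
        rw [if_neg (by have := mem_range.1 hi; omega)]
        simp
      rw [e1, sub_zero]
      refine hsc (fun k => ?_) (h0.mul_left (((B.coeff j : ℚ) : ℝ) * z ^ j))
      rw [if_pos (by omega), Nat.add_sub_cancel, pow_add]
      push_cast
      ring
    have h2 := hasSum_sum h1
    have e2 : ∑ j ∈ range (N + 1), ((B.coeff j : ℚ) : ℝ) * z ^ j * F =
        F * Polynomial.aeval z B := by
      rw [Polynomial.aeval_eq_sum_range' (natDegree_PA (-ν) N), mul_sum]
      refine sum_congr rfl fun j _ => ?_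
      rw [Algebra.smul_def]
      simp only [eq_ratCast]
      ring
    rw [e2] at h2
    refine hsc (fun k => ?_) h2
    simp only [hg]
    push_cast
    rw [sum_mul]
  have hgb : ∀ k, |g k| ≤ (N + 1) * 8 ^ (N + 1) := by
    intro k
    simp only [hg]
    refine (abs_sum_le_sum_abs _ _).trans ?_
    have : ∀ j ∈ range (N + 1), |(if j ≤ k then
        B.coeff j * ((-1) ^ (k - j) * Ring.choose ν (k - j)) else 0 : ℚ)| ≤ 8 ^ (N + 1) := by
      intro j _
      split_ifs with h
      · rw [abs_mul, abs_mul, abs_pow, abs_neg, abs_one, one_pow, one_mul]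
        have h1 : |B.coeff j| ≤ 8 ^ (N + 1) := by
          have := PA_coeff_le q hq (-1) (Or.inr rfl) N j
          rw [hB, hν]
          rwa [neg_div] at this
        have h2 : |Ring.choose ν (k - j)| ≤ 1 := abs_choose_inv_le q (by omega) (k - j)
        calc |B.coeff j| * |Ring.choose ν (k - j)| ≤ 8 ^ (N + 1) * 1 :=
              mul_le_mul h1 h2 (abs_nonneg _) (by positivity)
          _ = 8 ^ (N + 1) := mul_one _
      · rw [abs_zero]; positivity
    refine (sum_le_sum this).trans ?_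
    rw [sum_const, card_range, nsmul_eq_mul]
    push_cast
    exact le_rfl
  have hlow : ∀ k, k < 2 * N + 1 → A.coeff k = g k := by
    intro k hk
    have h := (PowerSeries.X_pow_dvd_iff.1 (pade_identity ν N)) k hk
    rw [map_sub, coeff_binS_mul ν (PA (-ν) N) N k (natDegree_PA (-ν) N),
      Polynomial.coeff_coe] at h
    rw [hA]
    simp only [hg]
    linarith
  have hAz : Polynomial.aeval z A = ∑ k ∈ range (2 * N + 1), ((g k : ℚ) : ℝ) * z ^ k := by
    rw [Polynomial.aeval_eq_sum_range' (n := 2 * N + 1) (by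
      have := natDegree_PA ν N
      rw [hA]
      omega)]
    refine sum_congr rfl fun k hk => ?_
    rw [hlow k (mem_range.1 hk), Algebra.smul_def]
    simp
  have htail := (hasSum_nat_add_iff' (2 * N + 1)).mpr hsum
  rw [← hAz] at htail
  -- the geometric bound
  have hgeo : HasSum (fun k : ℕ => ((N : ℝ) + 1) * 8 ^ (N + 1) * z ^ (2 * N + 1) * z ^ k)
      (((N : ℝ) + 1) * 8 ^ (N + 1) * z ^ (2 * N + 1) * (1 - z)⁻¹) :=
    (hasSum_geometric_of_lt_one hz0.le (by linarith)).mul_left _
  have hb : ‖F * Polynomial.aeval z B - Polynomial.aeval z A‖ ≤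
      ((N : ℝ) + 1) * 8 ^ (N + 1) * z ^ (2 * N + 1) * (1 - z)⁻¹ := by
    rw [← htail.tsum_eq]
    refine tsum_of_norm_bounded hgeo fun k => ?_
    rw [Real.norm_eq_abs, abs_mul, abs_of_nonneg (by positivity : (0 : ℝ) ≤ z ^ (k + (2 * N + 1))),
      pow_add z k]
    have h1 : |((g (k + (2 * N + 1)) : ℚ) : ℝ)| ≤ ((N : ℝ) + 1) * 8 ^ (N + 1) := by
      have := hgb (k + (2 * N + 1))
      exact_mod_cast this
    have h2 : 0 ≤ z ^ k * z ^ (2 * N + 1) := by positivity
    nlinarith [mul_le_mul_of_nonneg_right h1 h2]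
  rw [← abs_neg, neg_sub, ← Real.norm_eq_abs]
  refine hb.trans ?_
  have h3 : (1 - z)⁻¹ ≤ 2 := by
    rw [inv_le_comm₀ (by linarith) (by norm_num)]
    linarith
  have h4 : 0 ≤ ((N : ℝ) + 1) * 8 ^ (N + 1) * z ^ (2 * N + 1) := by positivity
  nlinarith [mul_le_mul_of_nonneg_left h3 h4]

end Pool.Agent.NL
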