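import Pool.Agent.NL.BT

/-!
Sums of reciprocals of the primes congruent to 1 modulo a prime.

PLAN. recip_le: cut [X^eps, X] into dyadic blocks (2^i, 2^(i+1)]; for a prime p in a block
q^2 <= X^eps <= p <= 2^(i+1), so brun_titchmarsh with N = 2^(i+1) bounds the number of such p by
C 2^(i+1)/(q (i+1) log 2), hence the sum of 1/p over the block is <= 2 C/(q log(2^(i+1))) and
log(2^(i+1)) >= eps log X. The number of blocks that meet [1, X] is at most log X / log 2 + 1 <= 3 log X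
(note X >= 4 because q^2 <= X^eps <= X). Total <= C'/(eps q).
recip_trivial: p = q j + 1 with 1 <= j <= X/q, 1/p <= 1/(q j), injective in j, and the harmonic sum
sum_(j <= X) 1/j <= 1 + log X (harmonic_le_one_add_log, or Pool.Agent.Helper52.sum_recip_range).
-/

namespace Pool.Agent.NL

open Finset

/-- For `q ^ 2 ≤ Z ≤ X`, `Z = X ^ ε`: the sum of `1 / p` over the primes `Z ≤ p ≤ X` with
`p = 1 mod q` is at most `C / (ε q)`. -/
theorem recip_le : ∃ C : ℝ, 0 < C ∧ ∀ ε : ℝ, 0 < ε → ε ≤ 1 → ∀ q X : ℕ, q.Prime →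
    (q : ℝ) ^ 2 ≤ (X : ℝ) ^ ε →
    ∑ p ∈ (Icc 1 X).filter (fun p : ℕ => p.Prime ∧ p % q = 1 ∧ (X : ℝ) ^ ε ≤ (p : ℝ)), 1 / (p : ℝ) ≤
      C / (ε * q) := by
  obtain ⟨C, hC, hBT⟩ := brun_titchmarsh
  refine ⟨6 * C, by positivity, fun ε hε hε1 q X hq hqX => ?_⟩
  have hq0 : (0 : ℝ) < q := by exact_mod_cast hq.pos
  have hq2 : (2 : ℝ) ≤ q := by exact_mod_cast hq.two_le
  have h4 : (4 : ℝ) ≤ (X : ℝ) ^ ε := by nlinarith
  have hX0 : X ≠ 0 := by
    rintro rfl
    rw [Nat.cast_zero, Real.zero_rpow hε.ne'] at h4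
    norm_num at h4
  have hX1 : (1 : ℝ) ≤ X := by exact_mod_cast Nat.one_le_iff_ne_zero.2 hX0
  have hX4 : (4 : ℝ) ≤ X := by
    refine h4.trans ?_
    calc (X : ℝ) ^ ε ≤ (X : ℝ) ^ (1 : ℝ) := Real.rpow_le_rpow_of_exponent_le hX1 hε1
      _ = X := Real.rpow_one _
  have hX0' : (0 : ℝ) < X := by linarith
  have hlogX : 0 < Real.log X := Real.log_pos (by linarith)
  set S := (Icc 1 X).filter (fun p : ℕ => p.Prime ∧ p % q = 1 ∧ (X : ℝ) ^ ε ≤ (p : ℝ)) with hS
  have hmaps : ∀ p ∈ S, Nat.log 2 p ∈ range (Nat.log 2 X + 1) := by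
    intro p hp
    rw [hS, mem_filter, mem_Icc] at hp
    rw [mem_range, Nat.lt_succ_iff]
    exact Nat.log_mono_right hp.1.2
  rw [← sum_fiberwise_of_maps_to hmaps]
  have hblock : ∀ i ∈ range (Nat.log 2 X + 1),
      ∑ p ∈ S.filter (fun p => Nat.log 2 p = i), 1 / (p : ℝ) ≤ 2 * C / (q * (ε * Real.log X)) := by
    intro i _
    rcases (S.filter (fun p => Nat.log 2 p = i)).eq_empty_or_nonempty with he | ⟨p₀, hp₀⟩
    · rw [he, sum_empty]
      positivity
    have hmem : ∀ p ∈ S.filter (fun p => Nat.log 2 p = i),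
        p.Prime ∧ p % q = 1 ∧ (X : ℝ) ^ ε ≤ (p : ℝ) ∧ 2 ^ i ≤ p ∧ p < 2 ^ (i + 1) := by
      intro p hp
      rw [mem_filter, hS, mem_filter, mem_Icc] at hp
      obtain ⟨⟨⟨h1, h2⟩, h3, h5, h6⟩, h7⟩ := hp
      have := (Nat.log_eq_iff (b := 2) (m := i) (n := p) (Or.inr ⟨by norm_num, by omega⟩)).1 h7
      exact ⟨h3, h5, h6, this.1, this.2⟩
    have h0 := hmem p₀ hp₀
    have hqN : q ^ 2 ≤ 2 ^ (i + 1) := by
      have h1 : (q : ℝ) ^ 2 ≤ (2 : ℝ) ^ (i + 1) := by
        refine (hqX.trans h0.2.2.1).trans ?_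
        exact_mod_cast h0.2.2.2.2.le
      exact_mod_cast h1
    have hlog : ε * Real.log X ≤ Real.log ((2 ^ (i + 1) : ℕ) : ℝ) := by
      rw [← Real.log_rpow hX0']
      apply Real.log_le_log (by positivity)
      refine h0.2.2.1.trans ?_
      exact_mod_cast h0.2.2.2.2.le
    have hcard : ((S.filter (fun p => Nat.log 2 p = i)).card : ℝ) ≤
        C * ((2 ^ (i + 1) : ℕ) : ℝ) / (q * Real.log ((2 ^ (i + 1) : ℕ) : ℝ)) := by
      refine le_trans ?_ (hBT q (2 ^ (i + 1)) hq hqN)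
      have : S.filter (fun p => Nat.log 2 p = i) ⊆
          (Icc 1 (2 ^ (i + 1))).filter (fun p => p.Prime ∧ p % q = 1) := by
        intro p hp
        have h1 := hmem p hp
        rw [mem_filter, mem_Icc]
        exact ⟨⟨h1.1.one_le, h1.2.2.2.2.le⟩, h1.1, h1.2.1⟩
      exact_mod_cast card_le_card this
    have hεl : 0 < ε * Real.log X := by positivity
    calc ∑ p ∈ S.filter (fun p => Nat.log 2 p = i), 1 / (p : ℝ)
        ≤ ∑ p ∈ S.filter (fun p => Nat.log 2 p = i), 1 / (2 : ℝ) ^ i := by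
          apply sum_le_sum
          intro p hp
          have h1 := (hmem p hp).2.2.2.1
          have h2 : (2 : ℝ) ^ i ≤ p := by exact_mod_cast h1
          exact one_div_le_one_div_of_le (by positivity) h2
      _ = ((S.filter (fun p => Nat.log 2 p = i)).card : ℝ) * (1 / (2 : ℝ) ^ i) := by
          rw [sum_const, nsmul_eq_mul]
      _ ≤ (C * ((2 ^ (i + 1) : ℕ) : ℝ) / (q * Real.log ((2 ^ (i + 1) : ℕ) : ℝ))) *
          (1 / (2 : ℝ) ^ i) := by
          apply mul_le_mul_of_nonneg_right hcard (by positivity)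
      _ = 2 * C / (q * Real.log ((2 ^ (i + 1) : ℕ) : ℝ)) := by
          have h2 : (0 : ℝ) < (2 : ℝ) ^ i := by positivity
          have e : (((2 ^ (i + 1) : ℕ)) : ℝ) = 2 * 2 ^ i := by push_cast; ring
          have h3 : 0 < Real.log (2 * 2 ^ i) := by rw [← e]; linarith
          rw [e]
          field_simp
      _ ≤ 2 * C / (q * (ε * Real.log X)) := by
          apply div_le_div_of_nonneg_left (by positivity) (by positivity)
          exact mul_le_mul_of_nonneg_left hlog hq0.le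
  refine (sum_le_sum hblock).trans ?_
  rw [sum_const, card_range, nsmul_eq_mul]
  have hlog2 : (0.6931471803 : ℝ) < Real.log 2 := Real.log_two_gt_d9
  have hcnt : ((Nat.log 2 X + 1 : ℕ) : ℝ) ≤ 3 * Real.log X := by
    have h1 : ((2 : ℝ)) ^ (Nat.log 2 X) ≤ X := by exact_mod_cast Nat.pow_log_le_self 2 hX0
    have h2 : (Nat.log 2 X : ℝ) * Real.log 2 ≤ Real.log X := by
      rw [← Real.log_pow]
      exact Real.log_le_log (by positivity) h1
    have h3 : 2 * Real.log 2 ≤ Real.log X := by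
      have : Real.log ((2 : ℝ) ^ 2) ≤ Real.log X := Real.log_le_log (by norm_num) (by linarith)
      rw [Real.log_pow] at this
      exact_mod_cast this
    push_cast
    have h5 : (0 : ℝ) ≤ (Nat.log 2 X : ℝ) := by positivity
    nlinarith
  calc ((Nat.log 2 X + 1 : ℕ) : ℝ) * (2 * C / (q * (ε * Real.log X)))
      ≤ (3 * Real.log X) * (2 * C / (q * (ε * Real.log X))) := by
        apply mul_le_mul_of_nonneg_right hcnt (by positivity)
    _ = 6 * C / (ε * q) := by
        field_simp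
        norm_num

/-- The trivial bound. -/
theorem recip_trivial (q X : ℕ) (hq : 1 < q) (hX : 1 ≤ X) :
    ∑ p ∈ (Icc 1 X).filter (fun p : ℕ => p.Prime ∧ p % q = 1), 1 / (p : ℝ) ≤
      (1 + Real.log X) / q := by
  have hq0 : (0 : ℝ) < q := by exact_mod_cast (by omega : 0 < q)
  set S := (Icc 1 X).filter (fun p : ℕ => p.Prime ∧ p % q = 1) with hS
  have hpos : ∀ p ∈ S, 1 ≤ p / q ∧ q * (p / q) + 1 = p ∧ p ≤ X := by
    intro p hp
    rw [hS, mem_filter, mem_Icc] at hp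
    have e := Nat.div_add_mod p q
    rw [hp.2.2] at e
    refine ⟨?_, e, hp.1.2⟩
    rcases Nat.eq_zero_or_pos (p / q) with h0 | h0
    · rw [h0] at e
      have := hp.2.1.one_lt
      omega
    · exact h0
  have hinj : Set.InjOn (fun p : ℕ => p / q - 1) (S : Set ℕ) := by
    intro a ha b hb hab
    have h1 := hpos a ha
    have h2 := hpos b hb
    have h3 : a / q - 1 = b / q - 1 := hab
    have h4 : a / q = b / q := by omega
    rw [← h1.2.1, ← h2.2.1, h4]
  have h1 : ∑ p ∈ S, 1 / (p : ℝ) ≤ ∑ p ∈ S, 1 / (q : ℝ) * (1 / (((p / q - 1 : ℕ) : ℝ) + 1)) := by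
    apply sum_le_sum
    intro p hp
    obtain ⟨h2, h3, _⟩ := hpos p hp
    have e : (((p / q - 1 : ℕ) : ℝ) + 1) = ((p / q : ℕ) : ℝ) := by
      have : p / q - 1 + 1 = p / q := by omega
      exact_mod_cast this
    rw [e]
    have h5 : (1 : ℝ) ≤ ((p / q : ℕ) : ℝ) := by exact_mod_cast h2
    have h6 : (q : ℝ) * ((p / q : ℕ) : ℝ) + 1 = p := by exact_mod_cast h3
    have h7 : 1 / (q : ℝ) * (1 / (((p / q : ℕ) : ℝ))) = 1 / (q * ((p / q : ℕ) : ℝ)) := by
      field_simp
    rw [h7]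
    exact one_div_le_one_div_of_le (by positivity) (by linarith)
  have h2 : ∑ p ∈ S, 1 / (q : ℝ) * (1 / (((p / q - 1 : ℕ) : ℝ) + 1)) ≤
      ∑ i ∈ range X, 1 / (q : ℝ) * (1 / ((i : ℝ) + 1)) := by
    rw [← sum_image (f := fun i : ℕ => 1 / (q : ℝ) * (1 / ((i : ℝ) + 1))) hinj]
    apply sum_le_sum_of_subset_of_nonneg
    · intro i hi
      rw [mem_image] at hi
      obtain ⟨p, hp, rfl⟩ := hi
      obtain ⟨h2, h3, h4⟩ := hpos p hp
      rw [mem_range]
      have h5 : p / q ≤ p := Nat.div_le_self _ _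
      omega
    · intro i _ _
      positivity
  refine (h1.trans h2).trans ?_
  rw [← mul_sum]
  have h3 : ∑ i ∈ range X, 1 / ((i : ℝ) + 1) ≤ 1 + Real.log X := by
    have h := harmonic_le_one_add_log X
    have e : ((harmonic X : ℚ) : ℝ) = ∑ i ∈ range X, 1 / ((i : ℝ) + 1) := by
      unfold harmonic
      push_cast
      apply sum_congr rfl
      intro i _
      rw [one_div]
    rw [← e]
    exact h
  calc 1 / (q : ℝ) * ∑ i ∈ range X, 1 / ((i : ℝ) + 1) ≤ 1 / (q : ℝ) * (1 + Real.log X) :=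
        mul_le_mul_of_nonneg_left h3 (by positivity)
    _ = (1 + Real.log X) / q := by ring

end Pool.Agent.NL
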