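import Pool.Agent.NL.Defs
import Pool.Agent.Helper52.PrimeSums

/-!
The smooth part of an integer is usually small.

PLAN. log (smp z x) = sum_(p < z, p prime) v_p(x) log p. Sum over x <= X: sum_(x <= X) v_p(x) =
v_p(X!) <= X/(p-1) (Legendre, e.g. Nat.factorization_factorial..., sub_one_mul_padicValNat_factorial;
or count multiples of p^a). sum_(p<z) log p/(p-1) = sum log p/p + sum log p/(p(p-1)) <= log z + log 4 + 2
(Pool.Agent.Helper52.mertens1 or Pool.Agent.Helper24.sum_log_div_le for the first; for the second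
log p/(p (p-1)) is compared with a telescoping sum).
card_smp_large: Markov, log(smp) > (1/4) log X for the counted x.
-/

namespace Pool.Agent.NL

open Finset

/-- The `z`-smooth part of `x` (primes `< z`). -/
def smp (z x : ℕ) : ℕ := ∏ p ∈ (range z).filter Nat.Prime, p ^ x.factorization p

private theorem log_smp (z x : ℕ) :
    Real.log (smp z x) = ∑ p ∈ (range z).filter Nat.Prime, (x.factorization p : ℝ) * Real.log p := by
  unfold smp
  push_cast
  rw [Real.log_prod]
  · exact sum_congr rfl fun p _ => Real.log_pow _ _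
  · intro p hp
    have := (mem_filter.1 hp).2.pos
    positivity

private theorem sum_val_le {p : ℕ} (hp : p.Prime) (X : ℕ) :
    ∑ x ∈ Icc 1 X, (x.factorization p : ℝ) ≤ X / ((p : ℝ) - 1) := by
  have h1 : ∑ x ∈ Icc 1 X, x.factorization p = (X.factorial).factorization p := by
    induction X with
    | zero => simp
    | succ n ih =>
      rw [sum_Icc_succ_top (by omega), ih, Nat.factorial_succ,
        Nat.factorization_mul (by omega) (Nat.factorial_ne_zero n), Finsupp.add_apply, add_comm]
  have h2 : (p - 1) * (X.factorial).factorization p ≤ X := by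
    have := Fact.mk hp
    rw [Nat.factorization_def _ hp, sub_one_mul_padicValNat_factorial]
    exact Nat.sub_le _ _
  have hp1 : (0 : ℝ) < (p : ℝ) - 1 := by
    have : (2 : ℝ) ≤ p := by exact_mod_cast hp.two_le
    linarith
  rw [le_div_iff₀ hp1]
  have h3 : ((∑ x ∈ Icc 1 X, x.factorization p : ℕ) : ℝ) * ((p : ℝ) - 1) ≤ X := by
    rw [h1]
    have h4 : (((p - 1) * (X.factorial).factorization p : ℕ) : ℝ) ≤ X := by exact_mod_cast h2
    rw [Nat.cast_mul, Nat.cast_sub hp.one_lt.le] at h4
    push_cast at h4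
    linarith
  push_cast at h3
  exact h3

private theorem tele (n : ℕ) (hn : 2 ≤ n) :
    ∑ k ∈ Ico 2 n, Real.log k / ((k : ℝ) * ((k : ℝ) - 1)) ≤
      (Real.log 2 + 1) - (Real.log n + 1) / ((n : ℝ) - 1) := by
  induction n, hn using Nat.le_induction with
  | base => simp; norm_num
  | succ n hn ih =>
    rw [sum_Ico_succ_top hn]
    have hn2 : (2 : ℝ) ≤ n := by exact_mod_cast hn
    have h0 : (0 : ℝ) < n := by linarith
    have h1 : (0 : ℝ) < (n : ℝ) - 1 := by linarith
    have hl : Real.log ((n : ℝ) + 1) ≤ Real.log n + 1 / n := by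
      have e : (n : ℝ) + 1 = n * (1 + 1 / n) := by field_simp
      rw [e, Real.log_mul (by positivity) (by positivity)]
      have := Real.log_le_sub_one_of_pos (show (0 : ℝ) < 1 + 1 / n by positivity)
      linarith
    have hlog : 0 ≤ Real.log n := Real.log_nonneg (by linarith)
    push_cast
    have key : Real.log n / ((n : ℝ) * ((n : ℝ) - 1)) + (Real.log ((n : ℝ) + 1) + 1) / ((n : ℝ) + 1 - 1) ≤
        (Real.log n + 1) / ((n : ℝ) - 1) := by
      have e1 : (n : ℝ) + 1 - 1 = n := by ring
      rw [e1]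
      have h2 : (Real.log ((n : ℝ) + 1) + 1) / n ≤ (Real.log n + 1 / n + 1) / n := by
        gcongr
      refine (add_le_add_right h2 _).trans ?_
      rw [div_add_div _ _ (by positivity) (by positivity), div_le_div_iff₀ (by positivity) h1]
      have e2 : (Real.log n + 1 / n + 1) = (n * Real.log n + 1 + n) / n := by field_simp
      rw [e2]
      have e3 : (Real.log n * n + n * (n - 1) * ((n * Real.log n + 1 + n) / n)) * (n - 1) =
          ((n : ℝ) - 1) * (Real.log n * n + (n - 1) * (n * Real.log n + 1 + n)) := by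
        field_simp
      rw [e3]
      nlinarith [mul_nonneg hlog h0.le, mul_pos h0 h1, mul_nonneg (mul_nonneg hlog h0.le) h1.le]
    linarith

private theorem sum_p (z : ℕ) (hz : 1 ≤ z) :
    ∑ p ∈ (range z).filter Nat.Prime, Real.log p / ((p : ℝ) - 1) ≤ Real.log z + 4 := by
  have hlz : 0 ≤ Real.log z := Real.log_nonneg (by exact_mod_cast hz)
  have h1 : ∀ p ∈ (range z).filter Nat.Prime, Real.log p / ((p : ℝ) - 1) =
      Real.log p / p + Real.log p / ((p : ℝ) * ((p : ℝ) - 1)) := by
    intro p hp
    have h2 : (2 : ℝ) ≤ p := by exact_mod_cast (mem_filter.1 hp).2.two_le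
    have h3 : (p : ℝ) - 1 ≠ 0 := by linarith
    have h4 : (p : ℝ) ≠ 0 := by linarith
    field_simp
    ring
  rw [sum_congr rfl h1, sum_add_distrib]
  have h2 : ∑ p ∈ (range z).filter Nat.Prime, Real.log p / p ≤ Real.log z + Real.log 4 := by
    refine le_trans ?_ (Pool.Agent.Helper52.mertens1 hz)
    apply sum_le_sum_of_subset_of_nonneg
    · intro p hp
      rw [mem_filter, mem_range] at hp
      exact Pool.Agent.Helper52.mem_pr.2 ⟨hp.2.pos, hp.1.le, hp.2⟩
    · intro p hp _
      have := (Pool.Agent.Helper52.mem_pr.1 hp).1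
      have h5 : 0 ≤ Real.log p := Real.log_nonneg (by exact_mod_cast this)
      positivity
  have h3 : ∑ p ∈ (range z).filter Nat.Prime, Real.log p / ((p : ℝ) * ((p : ℝ) - 1)) ≤
      Real.log 2 + 1 := by
    rcases Nat.lt_or_ge z 2 with hz2 | hz2
    · have : (range z).filter Nat.Prime = ∅ := by
        rw [filter_eq_empty_iff]
        intro p hp hpp
        have := hpp.two_le
        rw [mem_range] at hp
        omega
      rw [this, sum_empty]
      have := Real.log_pos (show (1 : ℝ) < 2 by norm_num)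
      linarith
    · have h4 : ∑ p ∈ (range z).filter Nat.Prime, Real.log p / ((p : ℝ) * ((p : ℝ) - 1)) ≤
          ∑ k ∈ Ico 2 z, Real.log k / ((k : ℝ) * ((k : ℝ) - 1)) := by
        apply sum_le_sum_of_subset_of_nonneg
        · intro p hp
          rw [mem_filter, mem_range] at hp
          exact mem_Ico.2 ⟨hp.2.two_le, hp.1⟩
        · intro k hk _
          have h5 : (2 : ℝ) ≤ k := by exact_mod_cast (mem_Ico.1 hk).1
          have h6 : 0 ≤ Real.log k := Real.log_nonneg (by linarith)
          have h7 : (0 : ℝ) ≤ (k : ℝ) - 1 := by linarith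
          positivity
      have h5 := tele z hz2
      have h6 : 0 ≤ (Real.log z + 1) / ((z : ℝ) - 1) := by
        have : (2 : ℝ) ≤ z := by exact_mod_cast hz2
        have h7 : (0 : ℝ) ≤ (z : ℝ) - 1 := by linarith
        positivity
      linarith
  have h4 : Real.log 4 = 2 * Real.log 2 := by
    rw [show (4 : ℝ) = 2 ^ 2 by norm_num, Real.log_pow]; norm_num
  have h5 := Real.log_two_lt_d9
  linarith

theorem sum_log_smp_le (z X : ℕ) (hz : 1 ≤ z) :
    ∑ x ∈ Icc 1 X, Real.log (smp z x) ≤ X * (Real.log z + 4) := by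
  simp_rw [log_smp]
  rw [sum_comm]
  calc ∑ p ∈ (range z).filter Nat.Prime, ∑ x ∈ Icc 1 X, (x.factorization p : ℝ) * Real.log p
      ≤ ∑ p ∈ (range z).filter Nat.Prime, (X : ℝ) * (Real.log p / ((p : ℝ) - 1)) := by
        apply sum_le_sum
        intro p hp
        have hpp := (mem_filter.1 hp).2
        rw [← sum_mul]
        have h1 := sum_val_le hpp X
        have h2 : 0 ≤ Real.log p := Real.log_nonneg (by exact_mod_cast hpp.one_lt.le)
        calc (∑ x ∈ Icc 1 X, (x.factorization p : ℝ)) * Real.log p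
            ≤ (X / ((p : ℝ) - 1)) * Real.log p := mul_le_mul_of_nonneg_right h1 h2
          _ = (X : ℝ) * (Real.log p / ((p : ℝ) - 1)) := by ring
    _ = X * ∑ p ∈ (range z).filter Nat.Prime, (Real.log p / ((p : ℝ) - 1)) := by rw [mul_sum]
    _ ≤ X * (Real.log z + 4) := by
        apply mul_le_mul_of_nonneg_left (sum_p z hz) (Nat.cast_nonneg X)

private theorem one_le_smp (z x : ℕ) : 1 ≤ smp z x := by
  unfold smp
  apply Nat.one_le_iff_ne_zero.2
  rw [prod_ne_zero_iff]
  intro p hp
  exact pow_ne_zero _ (mem_filter.1 hp).2.ne_zero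

/-- Markov. -/
theorem card_smp_large {z X : ℕ} (hz : 1 ≤ z) (hX : 2 ≤ X) :
    (((Icc 1 X).filter (fun x => (X : ℝ) ^ ((1 : ℝ) / 4) < smp z x)).card : ℝ) ≤
      4 * X * (Real.log z + 4) / Real.log X := by
  have hXr : (2 : ℝ) ≤ X := by exact_mod_cast hX
  have hlX : 0 < Real.log X := Real.log_pos (by linarith)
  rw [le_div_iff₀ hlX]
  have h1 := sum_log_smp_le z X hz
  have h2 : (((Icc 1 X).filter (fun x => (X : ℝ) ^ ((1 : ℝ) / 4) < smp z x)).card : ℝ) *
      (1 / 4 * Real.log X) ≤ ∑ x ∈ Icc 1 X, Real.log (smp z x) := by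
    rw [← nsmul_eq_mul, ← sum_const]
    refine le_trans (sum_le_sum fun x hx => ?_) (sum_le_sum_of_subset_of_nonneg (filter_subset _ _)
      fun x _ _ => Real.log_nonneg (by exact_mod_cast one_le_smp z x))
    have h3 := (mem_filter.1 hx).2
    rw [← Real.log_rpow (by linarith)]
    exact Real.log_le_log (by positivity) h3.le
  nlinarith

end Pool.Agent.NL
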