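import Pool.Agent.NL.SmoothA

/-!
Integers x = s * p with s smooth and small.

PLAN. pi_le: Chebyshev (Mathlib: Chebyshev.theta_le_log4_mul_x and the bounds for primeCounting in
Mathlib/NumberTheory/Chebyshev.lean; or dyadic Pool.Agent.Helper52.cheb_dyadic).
sum_inv_smooth_le: sum over the z-smooth numbers of 1/s <= prod_(p < z) (1 - 1/p)^(-1) (Euler product
for smooth numbers in Mathlib: EulerProduct.summable_and_hasSum_smoothNumbers_prod_primesBelow_tsum,
or the version for the completely multiplicative s -> 1/s, used in Pool.Agent.Helper52.prod_upper) and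
prod_(p<z) (1-1/p)^(-1) <= C log z (Pool.Agent.Helper52.prod_lower: exp(-9)/a <=
prod_(p <= 2^a) (1 - 1/p), with 2^(a-1) < z <= 2^a).
card_smooth_mul_prime: for fixed s the number of primes p <= X/s is <= C (X/s)/log(X/s) + ..., and
log (X/s) >= (3/4) log X roughly (s <= X^(1/4), X >= 16, so X/s >= X^(3/4) >= 8); sum over s with
sum_inv_smooth_le. Use cnt_le_card / a union bound over s.
-/

namespace Pool.Agent.NL

open Finset

/-- Chebyshev. -/
theorem pi_le : ∃ C : ℝ, 0 < C ∧ ∀ N : ℕ, 2 ≤ N →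
    (((Icc 1 N).filter Nat.Prime).card : ℝ) ≤ C * N / Real.log N := by
  have hl4 : 0 < Real.log 4 := Real.log_pos (by norm_num)
  refine ⟨2 * Real.log 4 + 2, by positivity, fun N hN => ?_⟩
  have hN' : (2 : ℝ) ≤ N := by exact_mod_cast hN
  have h1 := Chebyshev.pi_le_log4_mul_div (x := (N : ℝ)) (by linarith)
  rw [Nat.floor_natCast] at h1
  have h2 : (((Icc 1 N).filter Nat.Prime).card : ℝ) ≤ (Nat.primeCounting N : ℝ) := by
    have h3 : ((Icc 1 N).filter Nat.Prime).card ≤ Nat.primeCounting N := by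
      rw [Nat.primeCounting, Nat.primeCounting', Nat.count_eq_card_filter_range]
      refine card_le_card fun x hx => ?_
      rw [mem_filter, mem_Icc] at hx
      rw [mem_filter, mem_range]
      exact ⟨by omega, hx.2⟩
    exact_mod_cast h3
  refine h2.trans (h1.trans ?_)
  have hlog : 0 < Real.log N := Real.log_pos (by linarith)
  have hs0 : 0 < √(N : ℝ) := Real.sqrt_pos.2 (by linarith)
  have hls : Real.log √(N : ℝ) = Real.log N / 2 := Real.log_sqrt (by linarith)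
  have h4 : Real.log N / 2 ≤ √(N : ℝ) := by
    rw [← hls]
    have := Real.log_le_sub_one_of_pos hs0
    linarith
  have hss : √(N : ℝ) * √(N : ℝ) = N := Real.mul_self_sqrt (by linarith)
  have h5 : √(N : ℝ) ≤ 2 * N / Real.log N := by
    rw [le_div_iff₀ hlog]
    nlinarith
  have h6 : Real.log 4 * (N : ℝ) / Real.log √(N : ℝ) = 2 * Real.log 4 * N / Real.log N := by
    rw [hls]; field_simp
  rw [h6]
  have h7 : (2 * Real.log 4 + 2) * (N : ℝ) / Real.log N =
      2 * Real.log 4 * N / Real.log N + 2 * N / Real.log N := by ring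
  rw [h7]
  linarith

/-- The sum of `1 / s` over `z`-smooth numbers `s ≤ Y`. -/
theorem sum_inv_smooth_le : ∃ C : ℝ, 0 < C ∧ ∀ z Y : ℕ, 2 ≤ z →
    ∑ s ∈ (Icc 1 Y).filter (fun s => s ∈ Nat.smoothNumbers z), 1 / (s : ℝ) ≤
      C * Real.log z := by
  classical
  have hl2 : 0 < Real.log 2 := Real.log_pos (by norm_num)
  refine ⟨Real.exp 9 * (2 / Real.log 2), by positivity, fun z Y hz => ?_⟩
  obtain ⟨a, ha⟩ : ∃ a, a = Nat.clog 2 z := ⟨_, rfl⟩
  have hza : z ≤ 2 ^ a := by rw [ha]; exact Nat.le_pow_clog (by norm_num) z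
  have ha1 : 1 ≤ a := by rw [ha]; exact Nat.clog_pos (by norm_num) hz
  have har : (0 : ℝ) < a := by exact_mod_cast ha1
  have hpa : 2 ^ (a - 1) < z := by
    rw [ha]
    exact Nat.pow_pred_clog_lt_self (by norm_num) (by omega)
  obtain ⟨M, hM⟩ : ∃ M, M = 2 ^ a + 1 := ⟨_, rfl⟩
  have hpb : M.primesBelow = Pool.Agent.Helper52.pr 0 (2 ^ a) := by
    ext q
    rw [Nat.mem_primesBelow, Pool.Agent.Helper52.mem_pr, hM]
    constructor
    · rintro ⟨h1, h2⟩; exact ⟨h2.pos, by omega, h2⟩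
    · rintro ⟨_, h1, h2⟩; exact ⟨by omega, h2⟩
  let f : ℕ →* ℝ :=
    { toFun := fun n => ((n : ℝ))⁻¹
      map_one' := by simp
      map_mul' := by intro x y; push_cast; rw [mul_inv] }
  obtain ⟨hsum, hhas⟩ :=
    EulerProduct.summable_and_hasSum_smoothNumbers_prod_primesBelow_geometric (f := f)
    (by
      intro q hq
      simp only [f, MonoidHom.coe_mk, OneHom.coe_mk, norm_inv, Real.norm_natCast]
      apply inv_lt_one_of_one_lt₀
      exact_mod_cast hq.one_lt) M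
  have hmem : ∀ s ∈ (Icc 1 Y).filter (fun s => s ∈ Nat.smoothNumbers z),
      s ∈ M.smoothNumbers := by
    intro s hs
    exact Nat.smoothNumbers_mono (by omega) (mem_filter.1 hs).2
  have h1 : ∑ s ∈ (Icc 1 Y).filter (fun s => s ∈ Nat.smoothNumbers z), 1 / (s : ℝ) ≤
      ∏ q ∈ M.primesBelow, (1 - f q)⁻¹ := by
    have hle := sum_le_hasSum (f := fun m : M.smoothNumbers => f m)
      (((Icc 1 Y).filter (fun s => s ∈ Nat.smoothNumbers z)).attach.image
        (fun s => (⟨s.1, hmem s.1 s.2⟩ : M.smoothNumbers)))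
      (fun m _ => by simp only [f, MonoidHom.coe_mk, OneHom.coe_mk]; positivity) hhas
    rw [Finset.sum_image] at hle
    · simp only [f, MonoidHom.coe_mk, OneHom.coe_mk] at hle
      rw [← Finset.sum_attach]
      simpa only [one_div, f, MonoidHom.coe_mk, OneHom.coe_mk] using hle
    · intro x _ y _ hxy
      simp only [Subtype.mk.injEq] at hxy
      exact Subtype.ext hxy
  rw [hpb] at h1
  have h4 : ∏ q ∈ Pool.Agent.Helper52.pr 0 (2 ^ a), (1 - f q)⁻¹ =
      (∏ q ∈ Pool.Agent.Helper52.pr 0 (2 ^ a), (1 - 1 / (q : ℝ)))⁻¹ := by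
    rw [← Finset.prod_inv_distrib]
    apply Finset.prod_congr rfl
    intro q _
    simp only [f, MonoidHom.coe_mk, OneHom.coe_mk, one_div]
  rw [h4] at h1
  have h5 := Pool.Agent.Helper52.prod_lower ha1
  have h6 : (∏ q ∈ Pool.Agent.Helper52.pr 0 (2 ^ a), (1 - 1 / (q : ℝ)))⁻¹ ≤
      (Real.exp (-9) / a)⁻¹ := inv_anti₀ (by positivity) h5
  have h7 : (Real.exp (-9) / a)⁻¹ = Real.exp 9 * a := by
    rw [inv_div, Real.exp_neg]
    field_simp
  have h8 : (a : ℝ) ≤ 2 / Real.log 2 * Real.log z := by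
    have hzr : (2 : ℝ) ≤ z := by exact_mod_cast hz
    have h9 : Real.log 2 ≤ Real.log z := Real.log_le_log (by norm_num) hzr
    have h10 : ((a : ℝ) - 1) * Real.log 2 ≤ Real.log z := by
      have h11 : Real.log ((2 ^ (a - 1) : ℕ) : ℝ) ≤ Real.log z :=
        Real.log_le_log (by positivity) (by exact_mod_cast hpa.le)
      push_cast at h11
      rw [Real.log_pow, Nat.cast_sub ha1, Nat.cast_one] at h11
      exact h11
    rw [div_mul_eq_mul_div, le_div_iff₀ hl2]
    linarith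
  calc _ ≤ Real.exp 9 * a := by rw [← h7]; exact h1.trans h6
    _ ≤ Real.exp 9 * (2 / Real.log 2 * Real.log z) :=
        mul_le_mul_of_nonneg_left h8 (Real.exp_pos _).le
    _ = _ := by ring

theorem card_smooth_mul_prime : ∃ C : ℝ, 0 < C ∧ ∀ z X : ℕ, 2 ≤ z → 16 ≤ X →
    (cnt {x | ∃ s p : ℕ, p.Prime ∧ x = s * p ∧ (s : ℝ) ≤ (X : ℝ) ^ ((1 : ℝ) / 4) ∧
      s ∈ Nat.smoothNumbers z} X : ℝ) ≤ C * X * Real.log z / Real.log X := by
  classical
  obtain ⟨C₁, hC₁, hpi⟩ := pi_le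
  obtain ⟨C₂, hC₂, hsm⟩ := sum_inv_smooth_le
  refine ⟨2 * C₁ * C₂, by positivity, fun z X hz hX => ?_⟩
  have hXr : (16 : ℝ) ≤ X := by exact_mod_cast hX
  obtain ⟨u, hu⟩ : ∃ u : ℝ, u = (X : ℝ) ^ ((1 : ℝ) / 4) := ⟨_, rfl⟩
  have hu0 : 0 ≤ u := by rw [hu]; positivity
  have hu4 : u ^ 4 = X := by
    rw [hu, ← Real.rpow_natCast, ← Real.rpow_mul (by linarith)]
    norm_num
  have hu2 : 2 ≤ u := by
    by_contra h
    have h1 : u ^ 4 < 2 ^ 4 := pow_lt_pow_left₀ (not_le.1 h) hu0 (by norm_num)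
    rw [hu4] at h1
    linarith
  have hlogX : Real.log X = 4 * Real.log u := by
    rw [← hu4, Real.log_pow]
    norm_num
  have hlogu : 0 < Real.log u := Real.log_pos (by linarith)
  have hlX : 0 < Real.log X := by rw [hlogX]; linarith
  rw [← hu]
  let S : Finset ℕ := (Icc 1 ⌊u⌋₊).filter (fun s => s ∈ Nat.smoothNumbers z)
  let F : Finset ℕ := S.biUnion fun s => ((Icc 1 (X / s)).filter Nat.Prime).image (fun p => s * p)
  have h1 : (cnt {x | ∃ s p : ℕ, p.Prime ∧ x = s * p ∧ (s : ℝ) ≤ u ∧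
      s ∈ Nat.smoothNumbers z} X : ℝ) ≤ (F.card : ℝ) := by
    have h2 : cnt {x | ∃ s p : ℕ, p.Prime ∧ x = s * p ∧ (s : ℝ) ≤ u ∧
      s ∈ Nat.smoothNumbers z} X ≤ F.card := by
      refine cnt_le_card F ?_
      rintro x ⟨s, p, hp, rfl, hsu, hs⟩ h1 h2
      have hs0 : 0 < s := by
        rcases Nat.eq_zero_or_pos s with h | h
        · rw [h, zero_mul] at h1; omega
        · exact h
      refine mem_biUnion.2 ⟨s, mem_filter.2 ⟨mem_Icc.2 ⟨hs0, Nat.le_floor hsu⟩, hs⟩, ?_⟩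
      refine mem_image.2 ⟨p, mem_filter.2 ⟨mem_Icc.2 ⟨hp.pos, ?_⟩, hp⟩, rfl⟩
      rw [Nat.le_div_iff_mul_le hs0, mul_comm]
      exact h2
    exact_mod_cast h2
  have h2 : (F.card : ℝ) ≤ ∑ s ∈ S, (((Icc 1 (X / s)).filter Nat.Prime).card : ℝ) := by
    have h3 : F.card ≤ ∑ s ∈ S, ((Icc 1 (X / s)).filter Nat.Prime).card :=
      card_biUnion_le.trans (sum_le_sum fun s _ => card_image_le)
    exact_mod_cast h3
  have h3 : ∀ s ∈ S, (((Icc 1 (X / s)).filter Nat.Prime).card : ℝ) ≤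
      2 * C₁ * X / Real.log X * (1 / (s : ℝ)) := by
    intro s hs
    have hs1 : 1 ≤ s := (mem_Icc.1 (mem_filter.1 hs).1).1
    have hsf : s ≤ ⌊u⌋₊ := (mem_Icc.1 (mem_filter.1 hs).1).2
    have hsu : (s : ℝ) ≤ u := (Nat.cast_le.2 hsf).trans (Nat.floor_le hu0)
    have hs0 : (0 : ℝ) < s := by exact_mod_cast hs1
    have hN1 : ((X / s : ℕ) : ℝ) ≤ X / s := Nat.cast_div_le
    have hN2 : (X : ℝ) / s < ((X / s : ℕ) : ℝ) + 1 := by
      rw [div_lt_iff₀ hs0]
      have h4 : X < s * (X / s + 1) := Nat.lt_mul_div_succ X hs1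
      have h5 : (X : ℝ) < ((s * (X / s + 1) : ℕ) : ℝ) := by exact_mod_cast h4
      push_cast at h5
      linarith
    have hN3 : u ^ 3 ≤ (X : ℝ) / s := by
      rw [le_div_iff₀ hs0, ← hu4]
      have h4 : u ^ 3 * s ≤ u ^ 3 * u := mul_le_mul_of_nonneg_left hsu (by positivity)
      calc u ^ 3 * s ≤ u ^ 3 * u := h4
        _ = u ^ 4 := by ring
    have hN4 : u ^ 2 ≤ ((X / s : ℕ) : ℝ) := by
      have h4 : u ^ 2 * 2 ≤ u ^ 2 * u := mul_le_mul_of_nonneg_left hu2 (by positivity)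
      have h5 : u ^ 2 * u = u ^ 3 := by ring
      nlinarith
    have hN5 : 2 ≤ X / s := by
      have h4 : (2 : ℝ) ≤ ((X / s : ℕ) : ℝ) := by nlinarith
      exact_mod_cast h4
    have h4 := hpi (X / s) hN5
    have h5 : Real.log X / 2 ≤ Real.log ((X / s : ℕ) : ℝ) := by
      have h6 : Real.log (u ^ 2) ≤ Real.log ((X / s : ℕ) : ℝ) :=
        Real.log_le_log (by positivity) hN4
      rw [Real.log_pow] at h6
      push_cast at h6
      linarith
    refine h4.trans ?_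
    calc C₁ * ((X / s : ℕ) : ℝ) / Real.log ((X / s : ℕ) : ℝ)
        ≤ C₁ * ((X : ℝ) / s) / (Real.log X / 2) := by
          gcongr
      _ = 2 * C₁ * X / Real.log X * (1 / (s : ℝ)) := by
          field_simp
  have h4 : ∑ s ∈ S, (((Icc 1 (X / s)).filter Nat.Prime).card : ℝ) ≤
      2 * C₁ * X / Real.log X * (C₂ * Real.log z) := by
    refine (sum_le_sum h3).trans ?_
    rw [← mul_sum]
    exact mul_le_mul_of_nonneg_left (hsm z ⌊u⌋₊ hz) (by positivity)
  refine (h1.trans (h2.trans h4)).trans (le_of_eq ?_)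
  ring

end Pool.Agent.NL
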