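import Pool.Agent.NL.TwoPell

/-!
Exponent 2, odd n: the base has no prime factor >= 5.

PLAN. n = 2k+1, k >= 1: x (x^k)^2 - (x-1) y^2 = 1 (rep_mul), so x^k = PX x j. Let p >= 5 be a prime, p | x.
PX_mod_sq mod x: 3 PX_j = +-3 (2j+1) mod x, so p | 2j+1. i = (p-1)/2, 2j+1 = (2i+1)(2k'+1), so
PX_i | PX_j = x^k (PX_dvd with k'). 3 PX_i = +-(3 p - 2 i (i+1) p x) mod x^2, so PX_i = +-p mod p^2:
p exactly divides PX_i. A prime l | PX_i divides x; l <> 3: 3 PX_i = +-3p mod l gives l = p; l = 3: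
2 i (i+1) = (p^2-1)/2 is divisible by 3, so 3 PX_i = +-3p mod 9, contradiction. Hence PX_i = p, but
PX_i > PX_1 = 4x - 3 > p (i >= 2, p | x), contradiction.
-/

namespace Pool.Agent.NL

open Finset

private theorem PX_ge_one {x : ℤ} (hx : 2 ≤ x) (i : ℕ) : PX x 1 ≤ PX x (i + 1) := by
  induction i with
  | zero => exact le_refl _
  | succ i ih => exact ih.trans (PX_mono hx (i + 1)).le

theorem two_odd {x y n p : ℕ} (hx : 1 < x) (hn : n % 2 = 1) (hn1 : 1 < n) (h : y ^ 2 = rep x n)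
    (hp : p.Prime) (hpx : p ∣ x) : p < 5 := by
  by_contra hp5
  push Not at hp5
  obtain ⟨k, rfl⟩ : ∃ k, n = 2 * k + 1 := ⟨n / 2, by omega⟩
  have hk : 1 ≤ k := by omega
  have hy : 0 < y := by
    rcases Nat.eq_zero_or_pos y with h0 | h0
    · exfalso
      have h1 := rep_pos (x := x) (n := 2 * k + 1) (by omega)
      rw [← h, h0] at h1
      simp at h1
    · exact h0
  have hrep := rep_mul_int x (2 * k + 1)
  rw [← h] at hrep
  push_cast at hrep
  have heq : (x : ℤ) * ((x : ℤ) ^ k) ^ 2 - ((x : ℤ) - 1) * (y : ℤ) ^ 2 = 1 := by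
    have h1 : (x : ℤ) * ((x : ℤ) ^ k) ^ 2 = (x : ℤ) ^ (2 * k + 1) := by
      rw [← pow_mul, pow_succ, mul_comm k 2]; ring
    rw [h1]
    linear_combination -hrep
  have hx2 : (2 : ℤ) ≤ x := by exact_mod_cast hx
  obtain ⟨j, hj⟩ := pell_sol hx2 (X := (x : ℤ) ^ k) (y := (y : ℤ)) (by positivity)
    (by exact_mod_cast hy) heq
  -- divisibility facts
  have hpZ : Prime (p : ℤ) := Nat.prime_iff_prime_int.1 hp
  have hpxZ : (p : ℤ) ∣ x := by exact_mod_cast hpx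
  have sgn : ∀ (e : ℕ) (a b : ℤ), a ∣ (-1) ^ e * b → a ∣ b := by
    intro e a b hab
    rcases neg_one_pow_eq_or ℤ e with h1 | h1
    · rwa [h1, one_mul] at hab
    · rw [h1] at hab
      have : a ∣ -b := by simpa using hab
      exact (dvd_neg).1 this
  have hp3 : ¬ (p : ℤ) ∣ 3 := by
    intro h3
    have h4 : p ∣ 3 := by exact_mod_cast h3
    have := Nat.le_of_dvd (by norm_num) h4
    omega
  -- general: if `a ∣ x` then `a ∣ 3 * PX x i - (-1)^i * (3 * (2 i + 1))`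
  have gen : ∀ (a : ℤ) (i : ℕ), a ∣ (x : ℤ) →
      a ∣ 3 * PX x i - (-1) ^ i * (3 * (2 * (i : ℤ) + 1)) := by
    intro a i ha
    have h1 := PX_mod_sq (x : ℤ) i
    have h2 : a ∣ (x : ℤ) ^ 2 := ha.trans (dvd_pow_self _ (by norm_num))
    have h3 := h2.trans h1
    have h4 : a ∣ (-1) ^ i * (2 * (i : ℤ) * (i + 1) * (2 * i + 1)) * x := ha.mul_left _
    have h5 := dvd_sub h3 h4
    have h6 : 3 * PX x i - (-1) ^ i * (3 * (2 * (i : ℤ) + 1) - 2 * i * (i + 1) * (2 * i + 1) * x) -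
        (-1) ^ i * (2 * (i : ℤ) * (i + 1) * (2 * i + 1)) * x =
        3 * PX x i - (-1) ^ i * (3 * (2 * (i : ℤ) + 1)) := by ring
    rwa [h6] at h5
  have hpj : (p : ℤ) ∣ 2 * (j : ℤ) + 1 := by
    have h1 := gen (p : ℤ) j hpxZ
    have h2 : (p : ℤ) ∣ 3 * PX x j := by
      rw [← hj]
      exact (hpxZ.trans (dvd_pow_self _ (by omega))).mul_left _
    have h3 := (dvd_sub_right h2).1 h1
    have h4 := sgn _ _ _ h3
    exact (hpZ.dvd_or_dvd h4).resolve_left hp3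
  have hpodd : p % 2 = 1 := by
    rcases hp.eq_two_or_odd with h1 | h1
    · omega
    · exact h1
  obtain ⟨i, hi⟩ : ∃ i, p = 2 * i + 1 := ⟨p / 2, by omega⟩
  have hpjN : p ∣ 2 * j + 1 := by exact_mod_cast hpj
  obtain ⟨m, hm⟩ := hpjN
  have hmodd : m % 2 = 1 := by
    by_contra hc
    have : m % 2 = 0 := by omega
    have h1 : (p * m) % 2 = 0 := by rw [Nat.mul_mod, this]; simp
    omega
  obtain ⟨k', hk'⟩ : ∃ k', m = 2 * k' + 1 := ⟨m / 2, by omega⟩
  have hjj : j = (2 * i + 1) * k' + i := by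
    rw [hi, hk'] at hm
    have : 2 * j + 1 = 2 * ((2 * i + 1) * k' + i) + 1 := by rw [hm]; ring
    omega
  have hdvd : PX x i ∣ (x : ℤ) ^ k := by
    rw [hj, hjj]
    exact PX_dvd _ _ _
  -- `i ≥ 2`
  have hi2 : 2 ≤ i := by omega
  have hpi : (p : ℤ) = 2 * (i : ℤ) + 1 := by exact_mod_cast hi
  have hbig : (p : ℤ) < PX x i := by
    obtain ⟨i', hi'⟩ : ∃ i', i = i' + 1 := ⟨i - 1, by omega⟩
    have h1 := PX_ge_one hx2 i'
    rw [← hi'] at h1
    have h2 : PX (x : ℤ) 1 = 4 * x - 3 := rfl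
    rw [h2] at h1
    have h3 : (p : ℤ) ≤ x := by exact_mod_cast Nat.le_of_dvd (by omega) hpx
    linarith
  -- p divides PX i
  have hpPX : (p : ℤ) ∣ PX x i := by
    have h1 := gen (p : ℤ) i hpxZ
    rw [← hpi] at h1
    have h2 : (p : ℤ) ∣ (-1) ^ i * (3 * (p : ℤ)) := (Dvd.intro_left 3 rfl).mul_left _
    have h3 : (p : ℤ) ∣ 3 * PX x i := (dvd_sub_left h2).1 h1
    exact (hpZ.dvd_or_dvd h3).resolve_left hp3
  -- p^2 does not divide PX i
  have hp2PX : ¬ (p : ℤ) ^ 2 ∣ PX x i := by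
    intro hc
    have h1 := PX_mod_sq (x : ℤ) i
    rw [← hpi] at h1
    have h2 : (p : ℤ) ^ 2 ∣ (x : ℤ) ^ 2 := pow_dvd_pow_of_dvd hpxZ 2
    have h3 := h2.trans h1
    have h4 : (p : ℤ) ^ 2 ∣ (-1) ^ i * (3 * (p : ℤ) - 2 * i * (i + 1) * p * x) :=
      (dvd_sub_right (hc.mul_left 3)).1 h3
    have h5 := sgn _ _ _ h4
    obtain ⟨x', hx'⟩ := hpxZ
    have h6 : (p : ℤ) ^ 2 ∣ 2 * i * (i + 1) * p * x := ⟨2 * i * (i + 1) * x', by rw [hx']; ring⟩
    have h7 : (p : ℤ) ^ 2 ∣ 3 * (p : ℤ) := (dvd_sub_left h6).1 h5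
    have h8 : (p : ℤ) * p ∣ 3 * p := by rw [← sq]; exact h7
    have h9 : (p : ℤ) ∣ 3 := (mul_dvd_mul_iff_right hpZ.ne_zero).1 h8
    exact hp3 h9
  obtain ⟨r, hr⟩ := hpPX
  have hppos : (0 : ℤ) < p := by exact_mod_cast hp.pos
  have hr1 : 1 < r := by
    rw [hr] at hbig
    by_contra hc
    push Not at hc
    nlinarith
  obtain ⟨l, hl, hlr⟩ := Nat.exists_prime_and_dvd (n := r.toNat) (by omega)
  have hlrZ : (l : ℤ) ∣ r := by
    have : ((r.toNat : ℕ) : ℤ) = r := Int.toNat_of_nonneg (by omega)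
    rw [← this]
    exact_mod_cast hlr
  have hlZ : Prime (l : ℤ) := Nat.prime_iff_prime_int.1 hl
  have hlPX : (l : ℤ) ∣ PX x i := by rw [hr]; exact hlrZ.mul_left _
  have hlx : (l : ℤ) ∣ x := hlZ.dvd_of_dvd_pow (hlPX.trans hdvd)
  have hlp : (l : ℤ) ∣ p := by
    by_cases hl3 : l = 3
    · exfalso
      subst hl3
      have h1 := PX_mod_sq (x : ℤ) i
      rw [← hpi] at h1
      have h2 : ((3 : ℕ) : ℤ) ^ 2 ∣ (x : ℤ) ^ 2 := pow_dvd_pow_of_dvd hlx 2
      have h3 := h2.trans h1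
      have h4 : ((3 : ℕ) : ℤ) ^ 2 ∣ 3 * PX x i := by
        obtain ⟨z, hz⟩ := hlPX
        exact ⟨z, by rw [hz]; push_cast; ring⟩
      have h5 := sgn _ _ _ ((dvd_sub_right h4).1 h3)
      -- 3 ∣ 2 i (i+1)
      have h6 : (3 : ℤ) ∣ 2 * i * (i + 1) := by
        have hnp : ¬ (3 : ℤ) ∣ p := by
          intro hc
          have h7 : 3 ∣ p := by exact_mod_cast hc
          have h8 := (Nat.prime_dvd_prime_iff_eq Nat.prime_three hp).1 h7
          omega
        have h7 : (i : ℤ) % 3 = 0 ∨ (i : ℤ) % 3 = 1 ∨ (i : ℤ) % 3 = 2 := by omega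
        rcases h7 with h7 | h7 | h7
        · have : (3 : ℤ) ∣ i := Int.dvd_of_emod_eq_zero h7
          exact (this.mul_left 2).mul_right _
        · exfalso
          apply hnp
          rw [hpi]
          omega
        · have : (3 : ℤ) ∣ (i : ℤ) + 1 := by omega
          exact this.mul_left _
      have h7 : ((3 : ℕ) : ℤ) ^ 2 ∣ 2 * i * (i + 1) * p * x := by
        obtain ⟨u, hu⟩ := h6
        obtain ⟨v, hv⟩ := hlx
        exact ⟨u * p * v, by rw [hu, hv]; push_cast; ring⟩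
      have h8 := (dvd_sub_left h7).1 h5
      have h9 : (3 : ℤ) * 3 ∣ 3 * p := by
        have : ((3 : ℕ) : ℤ) ^ 2 = 3 * 3 := by norm_num
        rw [← this]; exact h8
      have h10 : (3 : ℤ) ∣ p := (mul_dvd_mul_iff_left (by norm_num)).1 h9
      have h11 : 3 ∣ p := by exact_mod_cast h10
      have h12 := (Nat.prime_dvd_prime_iff_eq Nat.prime_three hp).1 h11
      omega
    · have h1 := gen (l : ℤ) i hlx
      rw [← hpi] at h1
      have h2 := (dvd_sub_right (hlPX.mul_left 3)).1 h1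
      have h3 := sgn _ _ _ h2
      refine (hlZ.dvd_or_dvd h3).resolve_left ?_
      intro hc
      have h4 : l ∣ 3 := by exact_mod_cast hc
      exact hl3 ((Nat.prime_dvd_prime_iff_eq hl Nat.prime_three).1 h4)
  have hlp' : l = p := (Nat.prime_dvd_prime_iff_eq hl hp).1 (by exact_mod_cast hlp)
  subst hlp'
  apply hp2PX
  rw [hr, sq]
  exact mul_dvd_mul_left _ hlrZ

end Pool.Agent.NL
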