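import Pool.Agent.NL.Defs

/-!
The equation x X^2 - (x - 1) y^2 = 1.

PLAN. pell_sol: strong induction on X. X = 1: j = 0. X > 1: X' = (2x-1) X - 2(x-1) y,
y' = (2x-1) y - 2x X is again a solution, 0 < X' < X (X'^2-type identities:
(2x-1)^2 X^2 - 4 (x-1)^2 y^2 = X^2 + 4(x-1) > 0; X < y because (x-1) y^2 = x X^2 - 1), y' > 0 (if y' <= 0
replace it by its absolute value and get X <= X' or X = 1, contradiction; y' <> 0 because x X'^2 = 1 is
impossible). Carry the companion sequence: prove more generally (X, y) = (PX x j, PY x j) with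
PX (j+1) = (2x-1) PX j + 2(x-1) PY j, PY (j+1) = (2x-1) PY j + 2x PX j, PY 0 = 1 (private definitions),
and PX satisfies the three-term recurrence.
PX_mod_sq: induction with the recurrence (second difference identity; checked numerically).
PX_dvd: X_(j+c) + X_(j-c) = 2 tau_c X_j with tau_0 = 1, tau_1 = 2x - 1, tau_(c+1) = (4x-2) tau_c - tau_(c-1)
(c <= j, and X_(-1-j) = X_j for the first step); with j = (2i+1) k + i, c = 2i+1 induction on k. Or use
Polynomial.Chebyshev: X_j = T_(2j+1)(sqrt x)/sqrt x.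
PX_mono: PX j >= 1 and increasing by induction.
-/

namespace Pool.Agent.NL

open Finset

/-- `X_0 = 1`, `X_1 = 4x - 3`, `X_{j+2} = (4x - 2) X_{j+1} - X_j`. -/
def PX (x : ℤ) : ℕ → ℤ
  | 0 => 1
  | 1 => 4 * x - 3
  | (j + 2) => (4 * x - 2) * PX x (j + 1) - PX x j

private theorem PX_rec (x : ℤ) (j : ℕ) :
    PX x (j + 2) = (4 * x - 2) * PX x (j + 1) - PX x j := rfl

private def PY (x : ℤ) : ℕ → ℤ
  | 0 => 1
  | (j + 1) => (2 * x - 1) * PY x j + 2 * x * PX x j

private theorem PX_succ (x : ℤ) (j : ℕ) :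
    PX x (j + 1) = (2 * x - 1) * PX x j + 2 * (x - 1) * PY x j := by
  induction j with
  | zero => simp [PX, PY]; ring
  | succ j ih =>
    rw [PX_rec]
    have h : PY x (j + 1) = (2 * x - 1) * PY x j + 2 * x * PX x j := rfl
    rw [h]
    linear_combination (2 * x - 1) * ih

private theorem pell_aux {x : ℤ} (hx : 2 ≤ x) : ∀ (n : ℕ) (X y : ℤ), X.toNat = n → 0 < X → 0 < y →
    x * X ^ 2 - (x - 1) * y ^ 2 = 1 → ∃ j, X = PX x j ∧ y = PY x j := by
  intro n
  induction n using Nat.strong_induction_on with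
  | _ n ih =>
    intro X y hn hX hy h
    -- auxiliary fact : `X = 1` gives `y = 1`
    have key1 : ∀ Y : ℤ, 0 < Y → x * 1 ^ 2 - (x - 1) * Y ^ 2 = 1 → Y = 1 := by
      intro Y hY hh
      have h1 : (x - 1) * (Y ^ 2 - 1) = 0 := by linear_combination -hh
      rcases mul_eq_zero.1 h1 with h2 | h2
      · exfalso; linarith
      · have h3 : (Y - 1) * (Y + 1) = 0 := by linear_combination h2
        rcases mul_eq_zero.1 h3 with h4 | h4
        · linarith
        · exfalso; linarith
    have key2 : ∀ X Y : ℤ, 1 < X → 0 < Y → x * X ^ 2 - (x - 1) * Y ^ 2 = 1 → X < Y := by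
      intro X Y hX hY hh
      by_contra hc
      push Not at hc
      have h1 : Y ^ 2 ≤ X ^ 2 := by nlinarith
      have h2 : (x - 1) * Y ^ 2 ≤ (x - 1) * X ^ 2 := by
        apply mul_le_mul_of_nonneg_left h1; linarith
      nlinarith
    rcases eq_or_lt_of_le (show 1 ≤ X by linarith) with h1 | h1
    · subst h1
      exact ⟨0, rfl, key1 y hy h⟩
    · set X' := (2 * x - 1) * X - 2 * (x - 1) * y with hX'
      set y' := (2 * x - 1) * y - 2 * x * X with hy'
      have heq : x * X' ^ 2 - (x - 1) * y' ^ 2 = 1 := by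
        rw [hX', hy']
        linear_combination h
      have hXy : X < y := key2 X y h1 hy h
      have hpos : 0 < X' := by
        by_contra hc
        push Not at hc
        have h2 : (2 * x - 1) * X ≤ 2 * (x - 1) * y := by linarith
        have h3 : ((2 * x - 1) * X) ^ 2 ≤ (2 * (x - 1) * y) ^ 2 := by
          apply pow_le_pow_left₀ _ h2
          apply mul_nonneg <;> linarith
        have h4 : ((2 * x - 1) * X) ^ 2 - (2 * (x - 1) * y) ^ 2 = X ^ 2 + 4 * (x - 1) := by
          linear_combination 4 * (x - 1) * h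
        nlinarith
      have hlt : X' < X := by
        have : 2 * (x - 1) * X < 2 * (x - 1) * y := by
          apply mul_lt_mul_of_pos_left hXy; linarith
        rw [hX']; linarith
      have hback : X = (2 * x - 1) * X' + 2 * (x - 1) * y' := by
        rw [hX', hy']; ring
      have hbacky : y = (2 * x - 1) * y' + 2 * x * X' := by
        rw [hX', hy']; ring
      have hy'pos : 0 < y' := by
        by_contra hc
        push Not at hc
        rcases eq_or_lt_of_le hc with h2 | h2
        · rw [h2] at heq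
          have h3 : x * X' ^ 2 = 1 := by linear_combination heq
          have h4 : 1 ≤ X' ^ 2 := by nlinarith
          nlinarith
        · have h3 : x * X' ^ 2 - (x - 1) * (-y') ^ 2 = 1 := by linear_combination heq
          rcases eq_or_lt_of_le (show 1 ≤ X' by linarith) with h4 | h4
          · rw [← h4] at h3
            have h5 := key1 (-y') (by linarith) h3
            have h6 : y' = -1 := by linarith
            rw [h6, ← h4] at hback
            linarith
          · have h5 := key2 X' (-y') h4 (by linarith) h3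
            have h6 : 2 * (x - 1) * X' < 2 * (x - 1) * (-y') := by
              apply mul_lt_mul_of_pos_left h5; linarith
            linarith
      obtain ⟨j, hj1, hj2⟩ := ih X'.toNat (by omega) X' y' rfl hpos hy'pos heq
      refine ⟨j + 1, ?_, ?_⟩
      · rw [PX_succ, ← hj1, ← hj2]; exact hback
      · show y = (2 * x - 1) * PY x j + 2 * x * PX x j
        rw [← hj1, ← hj2]; exact hbacky

/-- Every positive solution `X` is some `PX x j`. -/
theorem pell_sol {x X y : ℤ} (hx : 2 ≤ x) (hX : 0 < X) (hy : 0 < y)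
    (h : x * X ^ 2 - (x - 1) * y ^ 2 = 1) : ∃ j, X = PX x j := by
  obtain ⟨j, hj, _⟩ := pell_aux hx X.toNat X y rfl hX hy h
  exact ⟨j, hj⟩

/-- Congruence modulo `x ^ 2`: `3 X_j = (-1)^j (3 (2j+1) - 2 j (j+1) (2j+1) x)`. -/
theorem PX_mod_sq (x : ℤ) (j : ℕ) :
    x ^ 2 ∣ 3 * PX x j - (-1) ^ j * (3 * (2 * j + 1) - 2 * j * (j + 1) * (2 * j + 1) * x) := by
  induction j using Nat.twoStepInduction with
  | zero => simp [PX]
  | one => 
    simp only [PX]
    refine ⟨0, ?_⟩
    push_cast
    ring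
  | more j ih1 ih2 =>
    obtain ⟨a, ha⟩ := ih1
    obtain ⟨b, hb⟩ := ih2
    rw [PX_rec]
    refine ⟨(4 * x - 2) * b - a + (-1) ^ j * (8 * (j + 1) * (j + 2) * (2 * j + 3)), ?_⟩
    push_cast at ha hb ⊢
    have e1 : ((-1 : ℤ)) ^ (j + 1) = - (-1) ^ j := by ring
    have e2 : ((-1 : ℤ)) ^ (j + 2) = (-1) ^ j := by ring
    rw [e1] at hb
    rw [e2]
    linear_combination (4 * x - 2) * hb - ha

private theorem PX_symm (x : ℤ) (i : ℕ) : ∀ c d : ℕ, i = c + d → PX x i ∣ PX x (i + c) + PX x d := by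
  intro c
  induction c using Nat.twoStepInduction with
  | zero =>
    intro d hd
    have : d = i := by omega
    subst this
    exact ⟨2, by simp; ring⟩
  | one =>
    intro d hd
    subst hd
    refine ⟨4 * x - 2, ?_⟩
    have h1 : 1 + d + 1 = d + 2 := by omega
    have h2 : 1 + d = d + 1 := by omega
    rw [h1, h2, PX_rec]
    ring
  | more c ih1 ih2 =>
    intro d hd
    obtain ⟨a, ha⟩ := ih1 (d + 2) (by omega)
    obtain ⟨b, hb⟩ := ih2 (d + 1) (by omega)
    refine ⟨(4 * x - 2) * b - a, ?_⟩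
    have h1 : i + (c + 2) = (i + c) + 2 := by omega
    have h2 : i + (c + 1) = (i + c) + 1 := by omega
    rw [h2] at hb
    rw [PX_rec] at ha
    rw [h1, PX_rec]
    linear_combination (4 * x - 2) * hb - ha

private theorem PX_shift (x : ℤ) (i : ℕ) : ∀ c : ℕ, PX x i ∣ PX x (2 * i + 1 + c) + PX x c := by
  have h0 : PX x i ∣ PX x (2 * i + 1) + PX x 0 := by
    rcases i with _ | i
    · exact ⟨PX x (2 * 0 + 1) + PX x 0, by simp [PX]⟩
    · obtain ⟨a, ha⟩ := PX_symm x (i + 1) (i + 1) 0 (by omega)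
      obtain ⟨b, hb⟩ := PX_symm x (i + 1) i 1 (by omega)
      refine ⟨(4 * x - 2) * a - b, ?_⟩
      have h1 : 2 * (i + 1) + 1 = (i + 1 + i) + 2 := by omega
      have h2 : i + 1 + (i + 1) = (i + 1 + i) + 1 := by omega
      rw [h2] at ha
      rw [h1, PX_rec]
      have h3 : PX x 0 = 1 := rfl
      have h4 : PX x 1 = 4 * x - 3 := rfl
      rw [h3] at ha ⊢
      rw [h4] at hb
      linear_combination (4 * x - 2) * ha - hb
  have h1 : PX x i ∣ PX x (2 * i + 1 + 1) + PX x 1 := by
    rcases i with _ | i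
    · exact ⟨PX x (2 * 0 + 1 + 1) + PX x 1, by simp [PX]⟩
    · obtain ⟨a, ha⟩ := PX_symm x (i + 1) (i + 1) 0 (by omega)
      obtain ⟨b, hb⟩ := h0
      refine ⟨(4 * x - 2) * b - a, ?_⟩
      have h1 : 2 * (i + 1) + 1 + 1 = (2 * (i + 1)) + 2 := by omega
      have h2 : i + 1 + (i + 1) = 2 * (i + 1) := by omega
      rw [h2] at ha
      rw [h1, PX_rec]
      have h3 : PX x 0 = 1 := rfl
      have h4 : PX x 1 = 4 * x - 3 := rfl
      rw [h3] at ha hb
      rw [h4]
      linear_combination (4 * x - 2) * hb - ha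
  intro c
  induction c using Nat.twoStepInduction with
  | zero => exact h0
  | one => exact h1
  | more c ih1 ih2 =>
    obtain ⟨a, ha⟩ := ih1
    obtain ⟨b, hb⟩ := ih2
    refine ⟨(4 * x - 2) * b - a, ?_⟩
    have h1 : 2 * i + 1 + (c + 2) = (2 * i + 1 + c) + 2 := by omega
    have h2 : 2 * i + 1 + (c + 1) = (2 * i + 1 + c) + 1 := by omega
    rw [h2] at hb
    rw [h1, PX_rec, PX_rec]
    linear_combination (4 * x - 2) * hb - ha

theorem PX_dvd (x : ℤ) (i k : ℕ) : PX x i ∣ PX x ((2 * i + 1) * k + i) := by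
  induction k with
  | zero => simp
  | succ k ih =>
    have h := PX_shift x i ((2 * i + 1) * k + i)
    have h1 : (2 * i + 1) * (k + 1) + i = 2 * i + 1 + ((2 * i + 1) * k + i) := by ring
    rw [h1]
    exact (dvd_add_left ih).1 h

private theorem PX_pos_mono {x : ℤ} (hx : 2 ≤ x) (j : ℕ) : 0 < PX x j ∧ PX x j < PX x (j + 1) := by
  induction j with
  | zero => 
    simp only [PX]
    constructor <;> linarith
  | succ j ih =>
    obtain ⟨h1, h2⟩ := ih
    refine ⟨by linarith, ?_⟩
    rw [PX_rec]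
    nlinarith

theorem PX_mono {x : ℤ} (hx : 2 ≤ x) (j : ℕ) : PX x j < PX x (j + 1) :=
  (PX_pos_mono hx j).2

end Pool.Agent.NL
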